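import Mathlib

/-!
# Project MT (MP_5140a6_co): ℚ-forms of real subspaces
-/

namespace Pool.Agent.H73.MT

open Module Submodule

set_option linter.unusedSectionVars false

variable {E : Type*} [AddCommGroup E] [Module ℝ E] [FiniteDimensional ℝ E] [Module ℚ E]
  [IsScalarTower ℚ ℝ E]

/-- real span of a `ℚ`-subspace has at most its dimension -/
theorem finrank_span_le (M : Submodule ℚ E) [FiniteDimensional ℚ M] :
    finrank ℝ (span ℝ (M : Set E)) ≤ finrank ℚ M := by
  classical
  set b := Module.finBasis ℚ M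
  have h1 : span ℝ (M : Set E) = span ℝ (Set.range fun i => (b i : E)) := by
    apply le_antisymm
    · rw [span_le]
      intro x hx
      have h2 : (⟨x, hx⟩ : M) ∈ span ℚ (Set.range b) := by rw [b.span_eq]; trivial
      have h3 : x ∈ span ℚ (Set.range fun i => (b i : E)) := by
        have := Submodule.mem_map_of_mem (f := M.subtype) h2
        rw [Submodule.map_span, ← Set.range_comp] at this
        exact this
      exact (Submodule.span_le_restrictScalars ℚ ℝ _ : _) h3
    · rw [span_le]
      rintro _ ⟨i, rfl⟩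
      exact subset_span (b i).2
  rw [h1]
  calc finrank ℝ (span ℝ (Set.range fun i => (b i : E)))
      ≤ Fintype.card (Fin (finrank ℚ M)) := finrank_range_le_card _
    _ = finrank ℚ M := by simp

/-- `LL` is a finite-dimensional `ℚ`-subspace whose real span has real dimension `dim_ℚ LL`. -/
structure IsQForm (LL : Submodule ℚ E) : Prop where
  fin : FiniteDimensional ℚ LL
  rk : finrank ℝ (span ℝ (LL : Set E)) = finrank ℚ LL

theorem span_sup (M N : Submodule ℚ E) :
    span ℝ ((M ⊔ N : Submodule ℚ E) : Set E) = span ℝ (M : Set E) ⊔ span ℝ (N : Set E) := by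
  apply le_antisymm
  · rw [span_le]
    intro x hx
    obtain ⟨m, hm, n, hn, rfl⟩ := Submodule.mem_sup.1 hx
    exact Submodule.add_mem_sup (subset_span hm) (subset_span hn)
  · exact sup_le (span_mono (by exact_mod_cast (le_sup_left : M ≤ M ⊔ N)))
      (span_mono (by exact_mod_cast (le_sup_right : N ≤ M ⊔ N)))

theorem IsQForm.of_le {LL : Submodule ℚ E} (h : IsQForm LL) {M : Submodule ℚ E} (hM : M ≤ LL) :
    IsQForm M := by
  classical
  have := h.fin
  have hMf : FiniteDimensional ℚ M := Submodule.finiteDimensional_of_le hM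
  refine ⟨hMf, le_antisymm (finrank_span_le M) ?_⟩
  obtain ⟨N', hN'⟩ := Submodule.exists_isCompl (Submodule.comap LL.subtype M)
  set N : Submodule ℚ E := N'.map LL.subtype with hN
  have hsup : M ⊔ N = LL := by
    have h1 := congrArg (Submodule.map LL.subtype) hN'.sup_eq_top
    rw [Submodule.map_sup, Submodule.map_comap_subtype, Submodule.map_top,
      Submodule.range_subtype] at h1
    rwa [inf_eq_right.2 hM] at h1
  have hNle : N ≤ LL := hsup ▸ le_sup_right
  have hNf : FiniteDimensional ℚ N := Submodule.finiteDimensional_of_le hNle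
  have hdisj : M ⊓ N = ⊥ := by
    have h1 := congrArg (Submodule.map LL.subtype) hN'.inf_eq_bot
    rw [Submodule.map_inf _ (Submodule.injective_subtype _), Submodule.map_comap_subtype,
      Submodule.map_bot, inf_eq_right.2 hM] at h1
    exact h1
  have hdim : finrank ℚ M + finrank ℚ N = finrank ℚ LL := by
    have h1 := Submodule.finrank_sup_add_finrank_inf_eq M N
    rw [hsup, hdisj, finrank_bot] at h1
    omega
  have h2 : finrank ℝ (span ℝ (LL : Set E)) ≤
      finrank ℝ (span ℝ (M : Set E)) + finrank ℝ (span ℝ (N : Set E)) := by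
    have h3 := Submodule.finrank_sup_add_finrank_inf_eq (span ℝ (M : Set E)) (span ℝ (N : Set E))
    rw [← span_sup, hsup] at h3
    omega
  have h4 := finrank_span_le N
  have h5 := h.rk
  omega

/-- The part of `LL` in a real subspace. -/
noncomputable def part (LL : Submodule ℚ E) (W : Submodule ℝ E) : Submodule ℚ E := LL ⊓ W.restrictScalars ℚ

theorem mem_part {LL : Submodule ℚ E} {W : Submodule ℝ E} {x : E} :
    x ∈ part LL W ↔ x ∈ LL ∧ x ∈ W := by
  simp [part]

/-- A real subspace is rational if it is spanned by its intersection with `LL`. -/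
def IsRat (LL : Submodule ℚ E) (W : Submodule ℝ E) : Prop := span ℝ (part LL W : Set E) = W

theorem isRat_iff {LL : Submodule ℚ E} {W : Submodule ℝ E} :
    IsRat LL W ↔ W ≤ span ℝ (part LL W : Set E) := by
  refine ⟨fun h => h.ge, fun h => le_antisymm ?_ h⟩
  rw [span_le]
  intro x hx
  exact (mem_part.1 hx).2

/-- The span of a `ℚ`-subspace of `LL` is rational. -/
theorem isRat_span {LL M : Submodule ℚ E} (hM : M ≤ LL) : IsRat LL (span ℝ (M : Set E)) := by
  rw [isRat_iff, span_le]
  intro x hx
  exact subset_span (mem_part.2 ⟨hM hx, subset_span hx⟩)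

theorem isRat_bot (LL : Submodule ℚ E) : IsRat LL (⊥ : Submodule ℝ E) := by
  rw [isRat_iff]; exact bot_le

theorem IsRat.sup {LL : Submodule ℚ E} {W₁ W₂ : Submodule ℝ E} (h₁ : IsRat LL W₁)
    (h₂ : IsRat LL W₂) : IsRat LL (W₁ ⊔ W₂) := by
  rw [isRat_iff]
  conv_lhs => rw [← h₁, ← h₂, ← span_sup]
  apply span_mono
  intro x hx
  obtain ⟨m, hm, n, hn, rfl⟩ := Submodule.mem_sup.1 hx
  rw [SetLike.mem_coe] at *
  rw [mem_part] at hm hn ⊢
  exact ⟨LL.add_mem hm.1 hn.1, Submodule.add_mem_sup hm.2 hn.2⟩

theorem IsQForm.finrank_part {LL : Submodule ℚ E} (h : IsQForm LL) {W : Submodule ℝ E}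
    (hW : IsRat LL W) : finrank ℚ (part LL W) = finrank ℝ W := by
  have h1 := (h.of_le (M := part LL W) inf_le_left).rk
  rw [hW] at h1
  exact h1.symm

/-- The part of `LL` in the span of a `ℚ`-subspace `M ≤ LL` is `M`. -/
theorem IsQForm.part_span {LL M : Submodule ℚ E} (h : IsQForm LL) (hM : M ≤ LL) :
    part LL (span ℝ (M : Set E)) = M := by
  have := h.fin
  symm
  have : FiniteDimensional ℚ (part LL (span ℝ (M : Set E))) :=
    Submodule.finiteDimensional_of_le (inf_le_left : _ ≤ LL)
  apply Submodule.eq_of_le_of_finrank_le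
  · intro x hx
    exact mem_part.2 ⟨hM hx, subset_span hx⟩
  · rw [h.finrank_part (isRat_span hM), (h.of_le hM).rk]

/-- Intersections of rational subspaces are rational. -/
theorem IsQForm.isRat_inf {LL : Submodule ℚ E} (h : IsQForm LL) {W₁ W₂ : Submodule ℝ E}
    (h₁ : IsRat LL W₁) (h₂ : IsRat LL W₂) : IsRat LL (W₁ ⊓ W₂) := by
  have := h.fin
  have f1 : FiniteDimensional ℚ (part LL W₁) :=
    Submodule.finiteDimensional_of_le (inf_le_left : _ ≤ LL)
  have f2 : FiniteDimensional ℚ (part LL W₂) :=
    Submodule.finiteDimensional_of_le (inf_le_left : _ ≤ LL)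
  have hpi : part LL (W₁ ⊓ W₂) = part LL W₁ ⊓ part LL W₂ := by
    ext x; simp only [mem_part, Submodule.mem_inf]; tauto
  have hps : part LL (W₁ ⊔ W₂) = part LL W₁ ⊔ part LL W₂ := by
    have h3 : span ℝ ((part LL W₁ ⊔ part LL W₂ : Submodule ℚ E) : Set E) = W₁ ⊔ W₂ := by
      rw [span_sup, h₁, h₂]
    rw [← h3]
    exact h.part_span (sup_le inf_le_left inf_le_left)
  have e1 := Submodule.finrank_sup_add_finrank_inf_eq (part LL W₁) (part LL W₂)
  have e2 := Submodule.finrank_sup_add_finrank_inf_eq W₁ W₂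
  rw [← hps, ← hpi, h.finrank_part h₁, h.finrank_part h₂, h.finrank_part (h₁.sup h₂)] at e1
  have e3 := (h.of_le (M := part LL (W₁ ⊓ W₂)) inf_le_left).rk
  have hle : span ℝ (part LL (W₁ ⊓ W₂) : Set E) ≤ W₁ ⊓ W₂ := by
    rw [span_le]; intro x hx; exact (mem_part.1 hx).2
  exact Submodule.eq_of_le_of_finrank_le hle (by omega)

end Pool.Agent.H73.MT
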