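import Mathlib

/-!
# Module MT-G0: almost everywhere statements and linear isomorphisms

Haar measures on finite dimensional real vector spaces: the image of a Haar measure under a
continuous linear equivalence is a Haar measure (`ContinuousLinearEquiv.isAddHaarMeasure_map`) and
two Haar measures are proportional (`MeasureTheory.Measure.isAddHaarMeasure_eq_smul`), so they have
the same null sets.  `const_of_translation`: `f : A → ℤ` measurable with `f (t + v) = f t` for a.e.
`t`, for every `v`.  By Fubini (`MeasureTheory.Measure.ae_ae_of_ae_prod` / the set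
`{(t, v) | f (t + v) = f t}` is measurable) for a.e. `t` we have `f (t + v) = f t` for a.e. `v`; pick
one such `t` (the measure is not zero); then `f = f t` a.e. (translation invariance).
-/

namespace Pool.Agent.MT

open MeasureTheory

theorem ae_linearEquiv {A B : Type*} [NormedAddCommGroup A] [NormedSpace ℝ A]
    [FiniteDimensional ℝ A] [MeasurableSpace A] [BorelSpace A] [NormedAddCommGroup B]
    [NormedSpace ℝ B] [FiniteDimensional ℝ B] [MeasurableSpace B] [BorelSpace B]
    (μ : Measure A) [μ.IsAddHaarMeasure] (ν : Measure B) [ν.IsAddHaarMeasure]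
    (L : A ≃ₗ[ℝ] B) (p : B → Prop) : (∀ᵐ b ∂ν, p b) ↔ ∀ᵐ a ∂μ, p (L a) := by
  haveI : ProperSpace A := FiniteDimensional.proper ℝ A
  haveI : ProperSpace B := FiniteDimensional.proper ℝ B
  let L' : A ≃L[ℝ] B := L.toContinuousLinearEquiv
  haveI hH : (μ.map L').IsAddHaarMeasure := L'.isAddHaarMeasure_map μ
  have e1 : (∀ᵐ b ∂(μ.map L'), p b) ↔ ∀ᵐ a ∂μ, p (L' a) :=
    L'.toHomeomorph.measurableEmbedding.ae_map_iff
  have a1 : ν ≪ μ.map L' := Measure.absolutelyContinuous_isAddHaarMeasure _ _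
  have a2 : μ.map L' ≪ ν := Measure.absolutelyContinuous_isAddHaarMeasure _ _
  have e2 : (∀ᵐ b ∂ν, p b) ↔ ∀ᵐ b ∂(μ.map L'), p b :=
    ⟨fun h => a2.ae_le h, fun h => a1.ae_le h⟩
  rw [e2, e1]
  exact Iff.rfl

theorem const_of_translation {A : Type*} [NormedAddCommGroup A] [NormedSpace ℝ A]
    [FiniteDimensional ℝ A] [MeasurableSpace A] [BorelSpace A]
    (μ : Measure A) [μ.IsAddHaarMeasure] (f : A → ℤ) (hf : Measurable f)
    (h : ∀ v : A, ∀ᵐ t ∂μ, f (t + v) = f t) : ∃ κ : ℤ, ∀ᵐ t ∂μ, f t = κ := by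
  haveI : ProperSpace A := FiniteDimensional.proper ℝ A
  have hms : MeasurableSet {q : A × A | f (q.2 + q.1) = f q.2} :=
    measurableSet_eq_fun (hf.comp (measurable_snd.add measurable_fst)) (hf.comp measurable_snd)
  have h1 : ∀ᵐ q ∂(μ.prod μ), f (q.2 + q.1) = f q.2 :=
    (Measure.ae_prod_iff_ae_ae hms).2 (Filter.Eventually.of_forall h)
  have hms' : MeasurableSet {q : A × A | f (q.1 + q.2) = f q.1} :=
    measurableSet_eq_fun (hf.comp (measurable_fst.add measurable_snd)) (hf.comp measurable_fst)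
  have h2 : ∀ᵐ t ∂μ, ∀ᵐ v ∂μ, f (t + v) = f t :=
    (Measure.ae_ae_comm hms').2 (Filter.Eventually.of_forall h)
  obtain ⟨t, ht⟩ := h2.exists
  refine ⟨f t, ?_⟩
  have h3 : MeasurePreserving (fun s : A => (-t) + s) μ μ := measurePreserving_add_left μ (-t)
  have h4 : ∀ᵐ s ∂μ, f (t + ((-t) + s)) = f t := h3.quasiMeasurePreserving.ae ht
  filter_upwards [h4] with s hs
  rwa [add_neg_cancel_left] at hs

end Pool.Agent.MT
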