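import Pool.Agent.H73.MT.Transfer
import Pool.Agent.H73.MT.AeLin
import Pool.Agent.H39.MT.J2

/-!
# Module MT-G4: the relations on all `V ⊓ ker φ` imply constancy on the cosets of `V`

Proof.  `V = ⊥`: trivial (`V` has one point).  In general let `x` be given and
`f t = gfun C N (x + t)` on `V`, measurable (`gfun_measurable`).  By `const_of_translation` it is
enough that `f (t + v) = f t` for a.e. `t`, for every `v ∈ V`; let `v ≠ 0`, choose `φ` with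
`φ v = 1` and `s, Ψ, Φ` from `exists_coord`.  For `α : Fin s → ℝ` put
`φ_α = φ - ∑ j, α j * (Ψ ·).1 j`, so `φ_α (Φ p) = p.2 - ∑ α j p.1 j`; `V` is not in its kernel
(`φ_α v = 1`).  The hypothesis for `φ_α` at the point `x + Φ (0, a)`, the linear equivalence
`y ↦ Φ (y, ∑ α j y j)` onto `V ⊓ ker φ_α` (`ae_linearEquiv`) and `gfun_bd_transfer` give the
hypothesis of `J2` for the family `QQ Ψ`, `cc`.  `J2`: for a.e. `y` the function
`t ↦ f (Φ (y, t))` is a.e. constant, so `f (Φ (y, t + 1)) = f (Φ (y, t))` for a.e. `t`; by Fubini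
(`Measure.ae_prod_iff...`, the set is measurable) for a.e. `(y, t)`, i.e. `f (t + v) = f t` a.e.
-/

namespace Pool.Agent.MT

open MeasureTheory Module Submodule

variable {d : ℕ}

/-- the functional `φ - ⟨α, ·⟩` -/
private noncomputable def mtJumpUp_phi {s : ℕ} (Ψ : (Sp d) →ₗ[ℝ] (Fin s → ℝ) × ℝ)
    (φ : (Sp d) →ₗ[ℝ] ℝ) (α : Fin s → ℝ) : (Sp d) →ₗ[ℝ] ℝ :=
  φ - (J2aux.dotL α) ∘ₗ (LinearMap.fst ℝ (Fin s → ℝ) ℝ) ∘ₗ Ψ

private theorem mtJumpUp_phi_apply {s : ℕ} (Ψ : (Sp d) →ₗ[ℝ] (Fin s → ℝ) × ℝ)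
    {V : Submodule ℝ (Sp d)} (Φ : ((Fin s → ℝ) × ℝ) ≃ₗ[ℝ] V)
    (hΨ : ∀ p, Ψ (Φ p) = p) (φ : (Sp d) →ₗ[ℝ] ℝ) (hφ : ∀ p, φ (Φ p) = p.2) (α : Fin s → ℝ)
    (p : (Fin s → ℝ) × ℝ) :
    mtJumpUp_phi Ψ φ α (Φ p) = p.2 - ∑ j, α j * p.1 j := by
  unfold mtJumpUp_phi
  rw [LinearMap.sub_apply, LinearMap.comp_apply, LinearMap.comp_apply, hΨ, hφ,
    LinearMap.fst_apply, J2aux.dotL_apply]

/-- the parametrisation of the hyperplane -/
private noncomputable def mtJumpUp_L {s : ℕ} (Ψ : (Sp d) →ₗ[ℝ] (Fin s → ℝ) × ℝ)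
    {V : Submodule ℝ (Sp d)} (Φ : ((Fin s → ℝ) × ℝ) ≃ₗ[ℝ] V)
    (hΨ : ∀ p, Ψ (Φ p) = p) (φ : (Sp d) →ₗ[ℝ] ℝ) (hφ : ∀ p, φ (Φ p) = p.2) (α : Fin s → ℝ) :
    (Fin s → ℝ) ≃ₗ[ℝ] (V ⊓ LinearMap.ker (mtJumpUp_phi Ψ φ α) : Submodule ℝ (Sp d)) where
  toFun y := ⟨(Φ (y, ∑ j, α j * y j) : Sp d), (Φ (y, ∑ j, α j * y j)).2, by
    rw [SetLike.mem_coe, LinearMap.mem_ker, mtJumpUp_phi_apply Ψ Φ hΨ φ hφ α, sub_self]⟩
  map_add' y y' := by
    apply Subtype.ext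
    change ((Φ (y + y', ∑ j, α j * (y + y') j) : V) : Sp d) =
      (Φ (y, ∑ j, α j * y j) : Sp d) + (Φ (y', ∑ j, α j * y' j) : Sp d)
    rw [← Submodule.coe_add, ← map_add]
    congr 2
    refine Prod.ext rfl ?_
    simp only [Pi.add_apply, mul_add, Finset.sum_add_distrib, Prod.mk_add_mk]
  map_smul' c y := by
    apply Subtype.ext
    change ((Φ (c • y, ∑ j, α j * (c • y) j) : V) : Sp d) =
      c • (Φ (y, ∑ j, α j * y j) : Sp d)
    rw [← Submodule.coe_smul, ← map_smul]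
    congr 2
    refine Prod.ext rfl ?_
    simp only [Pi.smul_apply, smul_eq_mul, Finset.mul_sum, Prod.smul_mk]
    exact Finset.sum_congr rfl fun j _ => by ring
  invFun w := (Ψ (w : Sp d)).1
  left_inv y := by
    change (Ψ (Φ (y, ∑ j, α j * y j) : Sp d)).1 = y
    rw [hΨ]
  right_inv w := by
    apply Subtype.ext
    obtain ⟨p, hp⟩ := Φ.surjective ⟨(w : Sp d), w.2.1⟩
    have h1 : (w : Sp d) = (Φ p : Sp d) := by rw [hp]
    have h2 : mtJumpUp_phi Ψ φ α (w : Sp d) = 0 := LinearMap.mem_ker.1 w.2.2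
    rw [h1, mtJumpUp_phi_apply Ψ Φ hΨ φ hφ α] at h2
    change ((Φ ((Ψ (w : Sp d)).1, ∑ j, α j * (Ψ (w : Sp d)).1 j) : V) : Sp d) = (w : Sp d)
    rw [h1, hΨ]
    congr 2
    exact Prod.ext rfl (by simp only; linarith)

private theorem mtJumpUp_L_apply {s : ℕ} (Ψ : (Sp d) →ₗ[ℝ] (Fin s → ℝ) × ℝ)
    {V : Submodule ℝ (Sp d)} (Φ : ((Fin s → ℝ) × ℝ) ≃ₗ[ℝ] V)
    (hΨ : ∀ p, Ψ (Φ p) = p) (φ : (Sp d) →ₗ[ℝ] ℝ) (hφ : ∀ p, φ (Φ p) = p.2) (α y : Fin s → ℝ) :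
    ((mtJumpUp_L Ψ Φ hΨ φ hφ α y : (V ⊓ LinearMap.ker (mtJumpUp_phi Ψ φ α) :
      Submodule ℝ (Sp d))) : Sp d) = (Φ (y, ∑ j, α j * y j) : Sp d) := rfl

theorem jump_up {V : Submodule ℝ (Sp d)} {C : Comb d} (hC : Adapted V C)
    {N : (Sp d) → ℕ} {C0 : ℕ} (hN : LocB N C0)
    (h : ∀ φ : (Sp d) →ₗ[ℝ] ℝ, ¬ V ≤ LinearMap.ker φ → Rel (V ⊓ LinearMap.ker φ) (bd φ C) N) :
    ConstOn V C N := by
  intro x
  have hgm := gfun_measurable hN C
  have hfm : Measurable (fun t : V => gfun C N (x + t)) :=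
    hgm.comp (measurable_const.add measurable_subtype_coe)
  refine const_of_translation (Measure.addHaar : Measure V) (fun t : V => gfun C N (x + t)) hfm ?_
  intro v
  by_cases hv0 : v = 0
  · refine Filter.Eventually.of_forall fun t => ?_
    rw [hv0, add_zero]
  have hv1 : (v : Sp d) ≠ 0 := fun h' => hv0 (Subtype.ext h')
  obtain ⟨i, hi⟩ := Function.ne_iff.1 hv1
  have hi' : (v : Sp d) i ≠ 0 := hi
  obtain ⟨φ, hφv⟩ : ∃ φ : (Sp d) →ₗ[ℝ] ℝ, φ v = 1 :=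
    ⟨((v : Sp d) i)⁻¹ • (LinearMap.proj i : (Fin d → ℝ) →ₗ[ℝ] ℝ), by
      rw [LinearMap.smul_apply, LinearMap.proj_apply, smul_eq_mul, inv_mul_cancel₀ hi']⟩
  obtain ⟨s, Ψ, Φ, hΨ, hΦv, hΦφ⟩ := exists_coord V v φ hφv
  have hcount : Countable (IdxT V C N x) := idxT_countable hN V C x
  have hlf := locFin_QQ Ψ Φ hΨ hC hN x
  -- the hypothesis of J2
  have hJ : ∀ (α : Fin s → ℝ) (a : ℝ), ∀ᵐ y : Fin s → ℝ, ∑ᶠ i : IdxT V C N x, cc i *
      (ind (convexHull ℝ (topf α (QQ Ψ i) : Set ((Fin s → ℝ) × ℝ))) (y, a + ∑ j, α j * y j) -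
        ind (convexHull ℝ (botf α (QQ Ψ i) : Set ((Fin s → ℝ) × ℝ)))
          (y, a + ∑ j, α j * y j)) = 0 := by
    intro α a
    have hphi := mtJumpUp_phi_apply Ψ Φ hΨ φ hΦφ α
    have hker : ¬ V ≤ LinearMap.ker (mtJumpUp_phi Ψ φ α) := by
      intro hle
      have h1 : mtJumpUp_phi Ψ φ α (v : Sp d) = 0 := LinearMap.mem_ker.1 (hle v.2)
      rw [← hΦv, hphi] at h1
      simp at h1
    have h1 := h _ hker (x + (Φ (0, a) : Sp d))
    rw [ae_linearEquiv (volume : Measure (Fin s → ℝ)) _ (mtJumpUp_L Ψ Φ hΨ φ hΦφ α)] at h1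
    filter_upwards [h1] with y hy
    rw [← gfun_bd_transfer Ψ Φ hΨ hC hN x (mtJumpUp_phi Ψ φ α) α hphi, ← hy,
      mtJumpUp_L_apply, add_assoc, ← Submodule.coe_add, ← map_add]
    congr 3
    simp
  have h2 := J2 (QQ Ψ : IdxT V C N x → _) cc hlf hJ
  set g : (Fin s → ℝ) × ℝ → ℤ := fun p => gfun C N (x + (Φ p : Sp d)) with hg
  have hgm' : Measurable g := by
    have h3 : Continuous (fun p : (Fin s → ℝ) × ℝ => x + (Φ p : Sp d)) :=
      continuous_const.add (continuous_subtype_val.comp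
        (LinearMap.continuous_of_finiteDimensional (Φ : ((Fin s → ℝ) × ℝ) →ₗ[ℝ] V)))
    exact hgm.comp h3.measurable
  have h3 : ∀ᵐ y : Fin s → ℝ, ∀ᵐ t : ℝ, g (y, t + 1) = g (y, t) := by
    filter_upwards [h2] with y hy
    obtain ⟨κ, hκ⟩ := hy
    have h4 : ∀ᵐ t : ℝ, g (y, t) = κ := by
      filter_upwards [hκ] with t ht
      rw [← ht]
      exact gfun_transfer Ψ Φ hΨ hC hN x (y, t)
    have h5 : ∀ᵐ t : ℝ, g (y, t + 1) = κ :=
      (measurePreserving_add_right (volume : Measure ℝ) 1).quasiMeasurePreserving.ae h4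
    filter_upwards [h4, h5] with t ht ht'
    rw [ht, ht']
  have hmeas : MeasurableSet {p : (Fin s → ℝ) × ℝ | g (p.1, p.2 + 1) = g p} := by
    refine measurableSet_eq_fun ?_ hgm'
    exact hgm'.comp (measurable_fst.prodMk (measurable_snd.add_const 1))
  have h4 : ∀ᵐ p : (Fin s → ℝ) × ℝ ∂((volume : Measure (Fin s → ℝ)).prod (volume : Measure ℝ)),
      g (p.1, p.2 + 1) = g p :=
    (Measure.ae_prod_iff_ae_ae hmeas).2 h3
  rw [ae_linearEquiv ((volume : Measure (Fin s → ℝ)).prod (volume : Measure ℝ)) _ Φ]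
  filter_upwards [h4] with p hp
  have h5 : ((Φ p + v : V) : Sp d) = (Φ (p.1, p.2 + 1) : Sp d) := by
    rw [← hΦv, ← map_add]
    congr 2
    exact Prod.ext (by simp) rfl
  have h6 : gfun C N (x + ((Φ p + v : V) : Sp d)) = gfun C N (x + (Φ p : Sp d)) := by
    rw [h5]
    exact hp
  exact h6

end Pool.Agent.MT
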