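import Pool.Agent.H73.MT.JumpDown
import Pool.Agent.H73.MT.JumpUp

/-!
# Module MT-G8: from tilings to relations and back

`chain_rel`: induction on `Chain`.  For the first step `V = ⊤` and `gfun (single S 1) N` is a.e.
equal to `k` on `E`, so on all cosets of `⊤` (`ae_linearEquiv` for `Submodule.topEquiv` and
translation invariance); for later steps `Rel V C N` gives `ConstOn V C N` with constant `0`; then
`jump_down`.
`const_of_chain_rel`: `jump_up` for `V = ⊤`, `C = single S 1` (`⊤ ⊓ ker φ ≠ ⊤` if `¬ ⊤ ≤ ker φ`),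
and back from `⊤` to `E`.
`chain_induction`: the common induction scheme (on `finrank V`, `jump_up`).
-/

namespace Pool.Agent.MT

open MeasureTheory Module Submodule

variable {d : ℕ}

private theorem mtTiling_inf_ne_top {V : Submodule ℝ (Sp d)} {φ : (Sp d) →ₗ[ℝ] ℝ}
    (hφ : ¬ V ≤ LinearMap.ker φ) : V ⊓ LinearMap.ker φ ≠ ⊤ := by
  intro h
  apply hφ
  have h2 : (⊤ : Submodule ℝ (Sp d)) ≤ LinearMap.ker φ := by
    rw [← h]; exact inf_le_right
  exact le_top.trans h2

private theorem mtTiling_chain_top {S : Finset (Sp d)} {V : Submodule ℝ (Sp d)} {C : Comb d}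
    (h : Chain S V C) (hV : V = ⊤) : C = Finsupp.single S 1 := by
  cases h with
  | top => rfl
  | step V C φ _ hφ => exact absurd hV (mtTiling_inf_ne_top hφ)

theorem chain_rel {S : Finset (Sp d)} (hS : S.Nonempty) {N : (Sp d) → ℕ} {C0 : ℕ}
    (hN : LocB N C0) (k : ℤ)
    (h : ∀ᵐ x : Sp d, gfun (Finsupp.single S 1) N x = k) :
    ∀ (V : Submodule ℝ (Sp d)) (C : Comb d), Chain S V C → V ≠ ⊤ → Rel V C N := by
  intro V C hc
  induction hc with
  | top => intro hne; exact absurd rfl hne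
  | step V C φ hc hφ ih =>
    intro _
    refine jump_down (chain_adapted hS hc) hN ?_ φ hφ
    by_cases hV : V = ⊤
    · have hC := mtTiling_chain_top hc hV
      subst hC
      subst hV
      intro x
      refine ⟨k, ?_⟩
      have h2 : ∀ᵐ b : Sp d, gfun (Finsupp.single S 1) N (x + b) = k :=
        (eventually_add_left_iff volume x).2 h
      exact (ae_linearEquiv (Measure.addHaar : Measure (⊤ : Submodule ℝ (Sp d))) volume
        (Submodule.topEquiv : (⊤ : Submodule ℝ (Sp d)) ≃ₗ[ℝ] Sp d)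
        (fun b => gfun (Finsupp.single S 1) N (x + b) = k)).1 h2
    · intro x
      exact ⟨0, ih hV x⟩

theorem const_of_chain_rel {S : Finset (Sp d)} (hS : S.Nonempty) {N : (Sp d) → ℕ}
    {C0 : ℕ} (hN : LocB N C0)
    (h : ∀ (V : Submodule ℝ (Sp d)) (C : Comb d), Chain S V C → V ≠ ⊤ → Rel V C N) :
    ∃ κ : ℤ, ∀ᵐ x : Sp d, gfun (Finsupp.single S 1) N x = κ := by
  have h1 : ConstOn (⊤ : Submodule ℝ (Sp d)) (Finsupp.single S 1) N :=
    jump_up (chain_adapted hS Chain.top) hN fun φ hφ =>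
      h _ _ (Chain.step ⊤ _ φ Chain.top hφ) (mtTiling_inf_ne_top hφ)
  obtain ⟨κ, hκ⟩ := h1 0
  refine ⟨κ, ?_⟩
  refine (ae_linearEquiv (Measure.addHaar : Measure (⊤ : Submodule ℝ (Sp d))) volume
        (Submodule.topEquiv : (⊤ : Submodule ℝ (Sp d)) ≃ₗ[ℝ] Sp d)
        (fun b => gfun (Finsupp.single S 1) N b = κ)).2 ?_
  filter_upwards [hκ] with t ht
  rw [zero_add] at ht
  exact ht

/-- Suppose that for every chain `(V, C)` with `V ≤ Vs`, `V ≠ ⊤`: if `gfun (dil q C) N` is a.e.
constant on the cosets of `V` then it is `0` there.  Then it is `0` for all these chains.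
(Induction on `finrank V`: the chains `(V ⊓ ker φ, bd φ C)` are covered by the induction
hypothesis; `bd φ (dil q C) = dil q (bd φ C)`; `jump_up`.) -/
theorem chain_induction {S : Finset (Sp d)} (hS : S.Nonempty) {N : (Sp d) → ℕ} {C0 : ℕ}
    (hN : LocB N C0) (q : ℕ) (hq : 0 < q) (Vs : Submodule ℝ (Sp d))
    (h : ∀ (V : Submodule ℝ (Sp d)) (C : Comb d), Chain S V C → V ≠ ⊤ → V ≤ Vs →
      ConstOn V (dil q C) N → Rel V (dil q C) N) :
    ∀ (V : Submodule ℝ (Sp d)) (C : Comb d), Chain S V C → V ≠ ⊤ → V ≤ Vs →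
      Rel V (dil q C) N := by
  have key : ∀ (m : ℕ) (V : Submodule ℝ (Sp d)) (C : Comb d), finrank ℝ V = m → Chain S V C →
      V ≠ ⊤ → V ≤ Vs → Rel V (dil q C) N := by
    intro m
    induction m using Nat.strong_induction_on with
    | _ m ih =>
      intro V C hm hc hne hle
      refine h V C hc hne hle ?_
      refine jump_up (adapted_dil (chain_adapted hS hc) q) hN ?_
      intro φ hφ
      rw [bd_dil φ hq]
      have hfr := finrank_inf_ker hφ
      exact ih (finrank ℝ (V ⊓ LinearMap.ker φ : Submodule ℝ (Sp d))) (by omega) _ _ rfl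
        (Chain.step V C φ hc hφ) (mtTiling_inf_ne_top hφ) (inf_le_left.trans hle)
  intro V C hc hne hle
  exact key _ V C rfl hc hne hle

end Pool.Agent.MT
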