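import Pool.Agent.H73.MT.GamMain
import Pool.Agent.H73.MT.Tiling

/-!
# Module MT-E3: Lemmas A, B, C of h73_sec6.md
-/

namespace Pool.Agent.MT

open MeasureTheory Module Submodule

variable {d : ℕ}

/-- a real number `a` with `a * R ≤ K` for all `R ≥ 1` is `≤ 0` -/
theorem mtABC_le_zero {a K : ℝ} (h : ∀ R : ℝ, 1 ≤ R → a * R ≤ K) : a ≤ 0 := by
  by_contra ha
  push Not at ha
  have h1 := h (max 1 ((K + 1) / a)) (le_max_left _ _)
  have h2 : a * ((K + 1) / a) ≤ a * max 1 ((K + 1) / a) :=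
    mul_le_mul_of_nonneg_left (le_max_right _ _) ha.le
  rw [mul_div_cancel₀ _ ha.ne'] at h2
  linarith

theorem lemmaA {Γ : AddSubgroup (Sp d)} {C1 : ℕ} (hΓ : LocB (indN Γ) C1)
    {V : Submodule ℝ (Sp d)} {C : Comb d} (hC : Adapted V C) (h : Rel V C (indN Γ)) (x : Sp d) :
    clsum Γ V C x = 0 := by
  obtain ⟨c, hc, hm⟩ := gam_main hΓ V
  obtain ⟨K, hK, hK'⟩ := hm C hC x 0 (by simpa using h x)
  obtain ⟨c', hc', hl⟩ := gam_lower hΓ V
  have key : |clsum Γ V C x| * c' ≤ 0 := by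
    apply mtABC_le_zero (K := K)
    intro R hR
    have hR0 : 0 < R := by linarith
    have h1 := hK' R hR
    have h2 := hl R hR
    have h3 : 0 < R ^ gamRk Γ V := by positivity
    have hT : 0 ≤ gamT Γ V R := le_trans (by positivity) h2
    rw [Int.cast_zero, zero_mul, zero_sub, abs_neg, abs_mul, abs_of_nonneg hT] at h1
    have h4 : |clsum Γ V C x| * (c' * R ^ gamRk Γ V) ≤ K * R ^ gamRk Γ V / R :=
      le_trans (mul_le_mul_of_nonneg_left h2 (abs_nonneg _)) h1
    rw [le_div_iff₀ hR0] at h4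
    have h5 : (|clsum Γ V C x| * c' * R) * R ^ gamRk Γ V ≤ K * R ^ gamRk Γ V := by
      nlinarith [h4]
    exact le_of_mul_le_mul_right h5 h3
  have h6 : |clsum Γ V C x| ≤ 0 := by
    by_contra h7
    push Not at h7
    have := mul_pos h7 hc'
    linarith
  exact abs_eq_zero.1 (le_antisymm h6 (abs_nonneg _))

theorem lemmaB {Γ : AddSubgroup (Sp d)} {C1 : ℕ} (hΓ : LocB (indN Γ) C1)
    {V : Submodule ℝ (Sp d)} {C : Comb d} (hC : Adapted V C) (h : ConstOn V C (indN Γ))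
    (h2 : span ℝ ((Γ : Set (Sp d)) ∩ V) ≠ V ∨ ∀ x, clsum Γ V C x = 0) :
    Rel V C (indN Γ) := by
  intro x
  obtain ⟨κ, hκ⟩ := h x
  obtain ⟨c, hc, hm⟩ := gam_main hΓ V
  obtain ⟨K, hK, hK'⟩ := hm C hC x κ hκ
  have key : |(κ : ℝ)| * c ≤ 0 := by
    rcases h2 with h2 | h2
    · have hlt := gamRk_lt h2
      obtain ⟨K2, hK2, hcnt⟩ := gam_cnt hΓ V
      apply mtABC_le_zero (K := |clsum Γ V C x| * K2 + K)
      intro R hR
      have hR0 : 0 < R := by linarith
      have h3 : 0 < R ^ gamRk Γ V := by positivity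
      have hT : 0 ≤ gamT Γ V R ∧ gamT Γ V R ≤ cntV (indN Γ) V 0 0 R :=
        fsum_le_cntV hΓ V 0 0 hR0
      have hT2 := hT.2.trans (hcnt 0 0 R hR)
      have h4 := hK' R hR
      have h5 : |(κ : ℝ) * (c * R ^ finrank ℝ V)| ≤
          |clsum Γ V C x * gamT Γ V R| + K * R ^ gamRk Γ V / R := by
        have := abs_sub_abs_le_abs_sub ((κ : ℝ) * (c * R ^ finrank ℝ V))
          (clsum Γ V C x * gamT Γ V R)
        linarith
      rw [abs_mul, abs_of_nonneg (by positivity : 0 ≤ c * R ^ finrank ℝ V), abs_mul,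
        abs_of_nonneg hT.1] at h5
      have h6 : K * R ^ gamRk Γ V / R ≤ K * R ^ gamRk Γ V :=
        div_le_self (by positivity) hR
      have h7 : |clsum Γ V C x| * gamT Γ V R ≤ |clsum Γ V C x| * (K2 * R ^ gamRk Γ V) :=
        mul_le_mul_of_nonneg_left hT2 (abs_nonneg _)
      have h8 : R * R ^ gamRk Γ V ≤ R ^ finrank ℝ V := by
        rw [← pow_succ']
        exact pow_le_pow_right₀ hR hlt
      have h9 : |(κ : ℝ)| * (c * (R * R ^ gamRk Γ V)) ≤ |(κ : ℝ)| * (c * R ^ finrank ℝ V) := by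
        gcongr
      have h10 : (|(κ : ℝ)| * c * R) * R ^ gamRk Γ V ≤
          (|clsum Γ V C x| * K2 + K) * R ^ gamRk Γ V := by
        nlinarith
      exact le_of_mul_le_mul_right h10 h3
    · apply mtABC_le_zero (K := K)
      intro R hR
      have hR0 : 0 < R := by linarith
      have h3 : 0 < R ^ gamRk Γ V := by positivity
      have h4 := hK' R hR
      rw [h2 x, zero_mul, sub_zero, abs_mul,
        abs_of_nonneg (by positivity : 0 ≤ c * R ^ finrank ℝ V), le_div_iff₀ hR0] at h4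
      have h8 : R ^ gamRk Γ V ≤ R ^ finrank ℝ V := pow_le_pow_right₀ hR (gamRk_le Γ V)
      have h9 : |(κ : ℝ)| * (c * R ^ gamRk Γ V) * R ≤
          |(κ : ℝ)| * (c * R ^ finrank ℝ V) * R := by
        gcongr
      have h10 : (|(κ : ℝ)| * c * R) * R ^ gamRk Γ V ≤ K * R ^ gamRk Γ V := by
        nlinarith
      exact le_of_mul_le_mul_right h10 h3
  have h6 : |(κ : ℝ)| = 0 := by
    apply le_antisymm _ (abs_nonneg _)
    by_contra h7
    push Not at h7
    have := mul_pos h7 hc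
    linarith
  have h7 : κ = 0 := by
    have := abs_eq_zero.1 h6
    exact_mod_cast this
  simpa [h7] using hκ

theorem lemmaC {S : Finset (Sp d)} (hS : S.Nonempty) {Γ : AddSubgroup (Sp d)} {C1 : ℕ}
    (hΓ : LocB (indN Γ) C1) (Vs : Submodule ℝ (Sp d))
    (h : ∀ (V : Submodule ℝ (Sp d)) (C : Comb d), Chain S V C → V ≠ ⊤ → V ≤ Vs →
      span ℝ ((Γ : Set (Sp d)) ∩ V) = V → ∀ x, clsum Γ V C x = 0) :
    ∀ (V : Submodule ℝ (Sp d)) (C : Comb d), Chain S V C → V ≠ ⊤ → V ≤ Vs →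
      Rel V C (indN Γ) := by
  have key := chain_induction hS hΓ 1 one_pos Vs (by
    intro V C hVC hV hle hconst
    rw [dil_one] at hconst ⊢
    refine lemmaB hΓ (chain_adapted hS hVC) hconst ?_
    by_cases hsp : span ℝ ((Γ : Set (Sp d)) ∩ V) = V
    · exact Or.inr (h V C hVC hV hle hsp)
    · exact Or.inl hsp)
  intro V C hVC hV hle
  have := key V C hVC hV hle
  rwa [dil_one] at this

end Pool.Agent.MT
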