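import Pool.Agent.H73.MT.GeoDefs

/-!
# Module MT-G1: basic facts about chains of faces

All proofs are by induction on `Chain`; `bd φ C = C.sum fun Q c => single (amax φ Q) c - single
(amin φ Q) c` (`Finsupp.liftAddHom_apply`), so every `Q'` in the support of `bd φ C` is `amax φ Q` or
`amin φ Q` with `Q` in the support of `C`.  `amax φ Q`, `amin φ Q` are subsets of `Q`, nonempty if
`Q` is (`Finset.exists_max_image`), and `φ` is constant on them.
-/

namespace Pool.Agent.MT

open MeasureTheory Module Submodule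

variable {d : ℕ}

theorem mtBasics_mem_amax {φ : (Sp d) →ₗ[ℝ] ℝ} {Q : Finset (Sp d)} {p : Sp d} :
    p ∈ amax φ Q ↔ p ∈ Q ∧ ∀ q ∈ Q, φ q ≤ φ p := by
  simp [amax]

theorem mtBasics_mem_amin {φ : (Sp d) →ₗ[ℝ] ℝ} {Q : Finset (Sp d)} {p : Sp d} :
    p ∈ amin φ Q ↔ p ∈ Q ∧ ∀ q ∈ Q, φ p ≤ φ q := by
  simp [amin]

theorem mtBasics_amax_subset (φ : (Sp d) →ₗ[ℝ] ℝ) (Q : Finset (Sp d)) : amax φ Q ⊆ Q :=
  fun _ hp => (mtBasics_mem_amax.1 hp).1

theorem mtBasics_amin_subset (φ : (Sp d) →ₗ[ℝ] ℝ) (Q : Finset (Sp d)) : amin φ Q ⊆ Q :=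
  fun _ hp => (mtBasics_mem_amin.1 hp).1

theorem mtBasics_amax_nonempty (φ : (Sp d) →ₗ[ℝ] ℝ) {Q : Finset (Sp d)} (hQ : Q.Nonempty) :
    (amax φ Q).Nonempty := by
  obtain ⟨p, hp, h⟩ := Finset.exists_max_image Q (fun p => φ p) hQ
  exact ⟨p, mtBasics_mem_amax.2 ⟨hp, h⟩⟩

theorem mtBasics_amin_nonempty (φ : (Sp d) →ₗ[ℝ] ℝ) {Q : Finset (Sp d)} (hQ : Q.Nonempty) :
    (amin φ Q).Nonempty := by
  obtain ⟨p, hp, h⟩ := Finset.exists_min_image Q (fun p => φ p) hQ
  exact ⟨p, mtBasics_mem_amin.2 ⟨hp, h⟩⟩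

theorem mem_support_bd {φ : (Sp d) →ₗ[ℝ] ℝ} {C : Comb d} {Q' : Finset (Sp d)}
    (h : Q' ∈ (bd φ C).support) : ∃ Q ∈ C.support, Q' = amax φ Q ∨ Q' = amin φ Q := by
  classical
  have h1 : (bd φ C) Q' = ∑ Q ∈ C.support,
      ((Finsupp.single (amax φ Q) (C Q) - Finsupp.single (amin φ Q) (C Q) : Comb d) Q') := by
    rw [bd, Finsupp.liftAddHom_apply, Finsupp.sum, Finsupp.finsetSum_apply]
    rfl
  rw [Finsupp.mem_support_iff, h1] at h
  obtain ⟨Q, hQ, h2⟩ := Finset.exists_ne_zero_of_sum_ne_zero h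
  refine ⟨Q, hQ, ?_⟩
  by_contra h3
  push Not at h3
  apply h2
  rw [Finsupp.sub_apply, Finsupp.single_eq_of_ne h3.1, Finsupp.single_eq_of_ne h3.2, sub_zero]

theorem adapted_bd {V : Submodule ℝ (Sp d)} {C : Comb d} (h : Adapted V C)
    (φ : (Sp d) →ₗ[ℝ] ℝ) : Adapted (V ⊓ LinearMap.ker φ) (bd φ C) := by
  intro Q' hQ'
  obtain ⟨Q, hQ, h1⟩ := mem_support_bd hQ'
  obtain ⟨h2, h3⟩ := h Q hQ
  rcases h1 with rfl | rfl
  · refine ⟨mtBasics_amax_nonempty φ h2, fun p hp q hq => ?_⟩
    rw [mtBasics_mem_amax] at hp hq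
    refine ⟨h3 p hp.1 q hq.1, ?_⟩
    have : φ (p - q) = 0 := by
      rw [map_sub, sub_eq_zero]
      exact le_antisymm (hq.2 p hp.1) (hp.2 q hq.1)
    exact this
  · refine ⟨mtBasics_amin_nonempty φ h2, fun p hp q hq => ?_⟩
    rw [mtBasics_mem_amin] at hp hq
    refine ⟨h3 p hp.1 q hq.1, ?_⟩
    have : φ (p - q) = 0 := by
      rw [map_sub, sub_eq_zero]
      exact le_antisymm (hp.2 q hq.1) (hq.2 p hp.1)
    exact this

theorem chain_adapted {S : Finset (Sp d)} (hS : S.Nonempty) {V : Submodule ℝ (Sp d)}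
    {C : Comb d} (h : Chain S V C) : Adapted V C := by
  induction h with
  | top =>
    intro Q hQ
    have h1 := Finsupp.support_single_subset hQ
    rw [Finset.mem_singleton] at h1
    subst h1
    exact ⟨hS, fun _ _ _ _ => Submodule.mem_top⟩
  | step V C φ _ _ ih => exact adapted_bd ih φ

theorem chain_subset {S : Finset (Sp d)} {V : Submodule ℝ (Sp d)}
    {C : Comb d} (h : Chain S V C) : ∀ Q ∈ C.support, Q ⊆ S := by
  induction h with
  | top =>
    intro Q hQ
    have h1 := Finsupp.support_single_subset hQ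
    rw [Finset.mem_singleton] at h1
    subst h1
    exact Finset.Subset.refl _
  | step V C φ _ _ ih =>
    intro Q' hQ'
    obtain ⟨Q, hQ, h1⟩ := mem_support_bd hQ'
    rcases h1 with rfl | rfl
    · exact (mtBasics_amax_subset φ Q).trans (ih Q hQ)
    · exact (mtBasics_amin_subset φ Q).trans (ih Q hQ)

theorem finrank_inf_ker {V : Submodule ℝ (Sp d)} {φ : (Sp d) →ₗ[ℝ] ℝ}
    (h : ¬ V ≤ LinearMap.ker φ) :
    finrank ℝ (V ⊓ LinearMap.ker φ : Submodule ℝ (Sp d)) + 1 = finrank ℝ V := by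
  have h1 := LinearMap.finrank_range_add_finrank_ker (φ.domRestrict V)
  have h2 : LinearMap.range (φ.domRestrict V) = ⊤ := by
    rw [LinearMap.range_eq_top]
    apply LinearMap.surjective
    intro h0
    apply h
    intro x hx
    have := LinearMap.congr_fun h0 ⟨x, hx⟩
    simpa using this
  have h3 : finrank ℝ (LinearMap.ker (φ.domRestrict V)) =
      finrank ℝ (V ⊓ LinearMap.ker φ : Submodule ℝ (Sp d)) := by
    have h4 : V ⊓ LinearMap.ker φ = (LinearMap.ker (φ.domRestrict V)).map V.subtype := by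
      ext x
      simp only [Submodule.mem_inf, LinearMap.mem_ker, Submodule.mem_map, Submodule.subtype_apply,
        Subtype.exists, exists_and_right, exists_eq_right]
      constructor
      · rintro ⟨hx, h5⟩
        exact ⟨hx, h5⟩
      · rintro ⟨hx, h5⟩
        exact ⟨hx, h5⟩
    rw [h4, Submodule.finrank_map_subtype_eq]
  rw [h2, finrank_top, Module.finrank_self, h3] at h1
  omega

theorem mtBasics_card_bd (φ : (Sp d) →ₗ[ℝ] ℝ) (C : Comb d) :
    (bd φ C).support.card ≤ 2 * C.support.card := by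
  classical
  have h1 : (bd φ C).support ⊆ C.support.image (amax φ) ∪ C.support.image (amin φ) := by
    intro Q' hQ'
    obtain ⟨Q, hQ, h1⟩ := mem_support_bd hQ'
    rw [Finset.mem_union, Finset.mem_image, Finset.mem_image]
    rcases h1 with rfl | rfl
    · exact Or.inl ⟨Q, hQ, rfl⟩
    · exact Or.inr ⟨Q, hQ, rfl⟩
  calc (bd φ C).support.card
      ≤ (C.support.image (amax φ) ∪ C.support.image (amin φ)).card := Finset.card_le_card h1
    _ ≤ (C.support.image (amax φ)).card + (C.support.image (amin φ)).card :=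
        Finset.card_union_le _ _
    _ ≤ C.support.card + C.support.card :=
        Nat.add_le_add Finset.card_image_le Finset.card_image_le
    _ = 2 * C.support.card := by ring

/-- the number of terms doubles at most with every step, and every step lowers the dimension -/
theorem chain_card {S : Finset (Sp d)} {V : Submodule ℝ (Sp d)}
    {C : Comb d} (h : Chain S V C) : C.support.card ≤ 2 ^ d := by
  have key : C.support.card * 2 ^ (finrank ℝ V) ≤ 2 ^ d := by
    induction h with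
    | top =>
      have h1 : (Finsupp.single S (1 : ℤ)).support.card ≤ 1 := by
        calc (Finsupp.single S (1 : ℤ)).support.card ≤ ({S} : Finset (Finset (Sp d))).card :=
              Finset.card_le_card Finsupp.support_single_subset
          _ = 1 := Finset.card_singleton _
      rw [finrank_top, Module.finrank_fin_fun]
      calc (Finsupp.single S (1 : ℤ)).support.card * 2 ^ d ≤ 1 * 2 ^ d :=
            Nat.mul_le_mul_right _ h1
        _ = 2 ^ d := one_mul _
    | step V C φ _ hV ih =>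
      rw [← finrank_inf_ker hV, pow_succ] at ih
      calc (bd φ C).support.card * 2 ^ finrank ℝ (V ⊓ LinearMap.ker φ : Submodule ℝ (Sp d))
          ≤ (2 * C.support.card) * 2 ^ finrank ℝ (V ⊓ LinearMap.ker φ : Submodule ℝ (Sp d)) :=
            Nat.mul_le_mul_right _ (mtBasics_card_bd φ C)
        _ = C.support.card *
            (2 ^ finrank ℝ (V ⊓ LinearMap.ker φ : Submodule ℝ (Sp d)) * 2) := by ring
        _ ≤ 2 ^ d := ih
  calc C.support.card ≤ C.support.card * 2 ^ (finrank ℝ V) :=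
        Nat.le_mul_of_pos_right _ (pow_pos two_pos _)
    _ ≤ 2 ^ d := key

theorem base_mem {Q : Finset (Sp d)} (h : Q.Nonempty) : base Q ∈ Q := by
  rw [base, dif_pos h]
  exact h.choose_spec

/-- a point of the support of `wt V C` is a point of some `Q`, so of `S` -/
theorem wt_support {S : Finset (Sp d)} (hS : S.Nonempty) {V : Submodule ℝ (Sp d)}
    {C : Comb d} (h : Chain S V C) : (wt V C).support ⊆ S := by
  classical
  intro v hv
  rw [Finsupp.mem_support_iff, wt, Finsupp.sum, Finsupp.finsetSum_apply] at hv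
  obtain ⟨Q, hQ, h2⟩ := Finset.exists_ne_zero_of_sum_ne_zero hv
  have h3 : v = base Q := by
    by_contra h4
    exact h2 (Finsupp.single_eq_of_ne h4)
  rw [h3]
  exact chain_subset h Q hQ (base_mem (chain_adapted hS h Q hQ).1)

theorem mtBasics_dil_support (q : ℕ) (C : Comb d) {Q' : Finset (Sp d)}
    (h : Q' ∈ (dil q C).support) : ∃ Q ∈ C.support, Q' = by
      classical exact Q.image fun p => (q : ℝ) • p := by
  classical
  have h1 := Finsupp.mapDomain_support h
  rw [Finset.mem_image] at h1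
  obtain ⟨Q, hQ, h2⟩ := h1
  refine ⟨Q, hQ, ?_⟩
  rw [← h2]

theorem adapted_dil {V : Submodule ℝ (Sp d)} {C : Comb d} (h : Adapted V C) (q : ℕ) :
    Adapted V (dil q C) := by
  classical
  intro Q' hQ'
  obtain ⟨Q, hQ, rfl⟩ := mtBasics_dil_support q C hQ'
  obtain ⟨h2, h3⟩ := h Q hQ
  refine ⟨h2.image _, fun p hp p' hp' => ?_⟩
  rw [Finset.mem_image] at hp hp'
  obtain ⟨a, ha, rfl⟩ := hp
  obtain ⟨b, hb, rfl⟩ := hp'
  rw [← smul_sub]
  exact V.smul_mem _ (h3 a ha b hb)

open Classical in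
theorem mtBasics_amax_image (φ : (Sp d) →ₗ[ℝ] ℝ) {q : ℕ} (hq : 0 < q) (Q : Finset (Sp d)) :
    amax φ (Q.image fun p => (q : ℝ) • p) = (amax φ Q).image fun p => (q : ℝ) • p := by
  have hq' : (0 : ℝ) < q := Nat.cast_pos.2 hq
  ext x
  rw [mtBasics_mem_amax, Finset.mem_image, Finset.mem_image]
  constructor
  · rintro ⟨⟨p, hp, rfl⟩, h⟩
    refine ⟨p, mtBasics_mem_amax.2 ⟨hp, fun y hy => ?_⟩, rfl⟩
    have h1 := h _ (Finset.mem_image_of_mem _ hy)
    rw [map_smul, map_smul, smul_eq_mul, smul_eq_mul] at h1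
    exact le_of_mul_le_mul_left h1 hq'
  · rintro ⟨p, hp, rfl⟩
    rw [mtBasics_mem_amax] at hp
    refine ⟨⟨p, hp.1, rfl⟩, fun y hy => ?_⟩
    rw [Finset.mem_image] at hy
    obtain ⟨z, hz, rfl⟩ := hy
    rw [map_smul, map_smul, smul_eq_mul, smul_eq_mul]
    exact mul_le_mul_of_nonneg_left (hp.2 z hz) hq'.le

open Classical in
theorem mtBasics_amin_image (φ : (Sp d) →ₗ[ℝ] ℝ) {q : ℕ} (hq : 0 < q) (Q : Finset (Sp d)) :
    amin φ (Q.image fun p => (q : ℝ) • p) = (amin φ Q).image fun p => (q : ℝ) • p := by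
  have hq' : (0 : ℝ) < q := Nat.cast_pos.2 hq
  ext x
  rw [mtBasics_mem_amin, Finset.mem_image, Finset.mem_image]
  constructor
  · rintro ⟨⟨p, hp, rfl⟩, h⟩
    refine ⟨p, mtBasics_mem_amin.2 ⟨hp, fun y hy => ?_⟩, rfl⟩
    have h1 := h _ (Finset.mem_image_of_mem _ hy)
    rw [map_smul, map_smul, smul_eq_mul, smul_eq_mul] at h1
    exact le_of_mul_le_mul_left h1 hq'
  · rintro ⟨p, hp, rfl⟩
    rw [mtBasics_mem_amin] at hp
    refine ⟨⟨p, hp.1, rfl⟩, fun y hy => ?_⟩
    rw [Finset.mem_image] at hy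
    obtain ⟨z, hz, rfl⟩ := hy
    rw [map_smul, map_smul, smul_eq_mul, smul_eq_mul]
    exact mul_le_mul_of_nonneg_left (hp.2 z hz) hq'.le

open Classical in
theorem mtBasics_dil_single (q : ℕ) (Q : Finset (Sp d)) (c : ℤ) :
    dil q (Finsupp.single Q c) = Finsupp.single (Q.image fun p => (q : ℝ) • p) c := by
  rw [dil, Finsupp.mapDomain_single]

theorem mtBasics_dil_add (q : ℕ) (C C' : Comb d) : dil q (C + C') = dil q C + dil q C' := by
  rw [dil, dil, dil, Finsupp.mapDomain_add]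

theorem mtBasics_dil_sub (q : ℕ) (C C' : Comb d) : dil q (C - C') = dil q C - dil q C' := by
  rw [eq_sub_iff_add_eq, ← mtBasics_dil_add, sub_add_cancel]

theorem mtBasics_dil_zero (q : ℕ) : dil q (0 : Comb d) = 0 := by
  rw [dil, Finsupp.mapDomain_zero]

/-- `q > 0`: the map `Q ↦ q Q` is injective and commutes with `amax`, `amin` -/
theorem bd_dil (φ : (Sp d) →ₗ[ℝ] ℝ) {q : ℕ} (hq : 0 < q) (C : Comb d) :
    bd φ (dil q C) = dil q (bd φ C) := by
  induction C using Finsupp.induction_linear with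
  | zero => rw [mtBasics_dil_zero, map_zero, mtBasics_dil_zero]
  | add f g hf hg => rw [mtBasics_dil_add, map_add, map_add, mtBasics_dil_add, hf, hg]
  | single Q c =>
    rw [mtBasics_dil_single, bd_single, bd_single, mtBasics_dil_sub, mtBasics_dil_single,
      mtBasics_dil_single, mtBasics_amax_image φ hq, mtBasics_amin_image φ hq]

theorem dil_one (C : Comb d) : dil 1 C = C := by
  have h : (fun Q : Finset (Sp d) => by
      classical exact Q.image fun p => ((1 : ℕ) : ℝ) • p) = id := by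
    funext Q
    simp
  rw [dil]
  convert Finsupp.mapDomain_id

end Pool.Agent.MT
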