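import Pool.Agent.H73.MT.Meas
import Pool.Agent.H73.MT.Basics
import Pool.Agent.H73.MT.AeLin

/-!
# Module MT-G6: averaging `gfun (dil q C) N` against a tent function on a coset of `V`

Proof.  `gfun (dil q C) N y = ∑_l N l ∑_Q C Q * ind (conv (q Q)) (y - l)` and
`conv (q Q) = q conv Q`.  On the support of the (compactly supported, bounded, continuous) function
`t ↦ tent R z (x + t)` on `V` only finitely many `l` occur, so the integral is
`∑_Q C Q ∑_l N l ∫_{t ∈ V, x + t - l ∈ q conv Q} tent R z (x + t)`.  The set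
`{t ∈ V : x + t - l ∈ q conv Q}` is empty unless `l ∈ x - q base Q + V`; then it is a translate of
`q {t ∈ V : base Q + t ∈ conv Q}`, of volume `q ^ s volV V Q` (`s = finrank V`,
`Measure.addHaar_smul`).  For such `t`, `‖(x + t - z) - (l - z)‖ = ‖x + t - l‖ ≤ q K1` (`K1` a bound
for all points of all `conv Q`), and `tent R` is `1/R`-Lipschitz, so the integral differs from
`q ^ s volV V Q * tent R z l` by at most `q ^ s volV V Q * q K1 / R`, and both are `0` unless
`‖l - z‖ ≤ R + q K1`.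
-/

namespace Pool.Agent.MT

open MeasureTheory Module Submodule

open scoped Pointwise

variable {d : ℕ}

/-- the main term: `∑_v wt(v) * fsum N V (x - q v) z R` -/
noncomputable def mainTerm (V : Submodule ℝ (Sp d)) (C : Comb d) (N : (Sp d) → ℕ)
    (q : ℕ) (x z : Sp d) (R : ℝ) : ℝ :=
  (wt V C).sum fun v a => a * fsum N V.toAddSubgroup (x - (q : ℝ) • v) z R

private theorem mtAv_tent_nonneg (R : ℝ) (z y : Sp d) : 0 ≤ tent R z y := le_max_left _ _

private theorem mtAv_tent_lip {R : ℝ} (hR : 0 < R) (z y y' : Sp d) :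
    |tent R z y - tent R z y'| ≤ ‖y - y'‖ / R := by
  unfold tent
  rw [max_comm 0, max_comm 0]
  refine (abs_max_sub_max_le_abs _ _ _).trans ?_
  have h1 : (1 - ‖y - z‖ / R) - (1 - ‖y' - z‖ / R) = (‖y' - z‖ - ‖y - z‖) / R := by ring
  rw [h1, abs_div, abs_of_pos hR]
  refine div_le_div_of_nonneg_right ?_ hR.le
  refine (abs_norm_sub_norm_le _ _).trans ?_
  rw [show y' - z - (y - z) = -(y - y') by abel, norm_neg]

private theorem mtAv_tent_eq_zero {R : ℝ} (hR : 0 < R) {z y : Sp d} (h : R ≤ ‖y - z‖) :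
    tent R z y = 0 := by
  unfold tent
  apply max_eq_left
  have : 1 ≤ ‖y - z‖ / R := by rwa [le_div_iff₀ hR, one_mul]
  linarith

private theorem mtAv_tent_ne {R : ℝ} (hR : 0 < R) {z y : Sp d} (h : tent R z y ≠ 0) :
    ‖y - z‖ ≤ R := by
  by_contra h'
  exact h (mtAv_tent_eq_zero hR (not_le.1 h').le)

private theorem mtAv_tent_cont (R : ℝ) (z : Sp d) : Continuous fun y => tent R z y := by
  unfold tent
  fun_prop

private theorem mtAv_tent_contV (V : Submodule ℝ (Sp d)) (R : ℝ) (x z : Sp d) :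
    Continuous fun t : V => tent R z (x + (t : Sp d)) :=
  (mtAv_tent_cont R z).comp (continuous_const.add continuous_subtype_val)

private theorem mtAv_tent_compact (V : Submodule ℝ (Sp d)) {R : ℝ} (hR : 0 < R) (x z : Sp d) :
    HasCompactSupport fun t : V => tent R z (x + (t : Sp d)) := by
  have : ProperSpace V := FiniteDimensional.proper ℝ V
  refine HasCompactSupport.intro (isCompact_closedBall (0 : V) (R + ‖x - z‖)) ?_
  intro t ht
  by_contra h
  apply ht
  have h1 := mtAv_tent_ne hR h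
  rw [mem_closedBall_zero_iff]
  have h2 : (t : Sp d) = (x + (t : Sp d) - z) - (x - z) := by abel
  calc ‖t‖ = ‖(t : Sp d)‖ := rfl
    _ = ‖(x + (t : Sp d) - z) - (x - z)‖ := by rw [← h2]
    _ ≤ ‖x + (t : Sp d) - z‖ + ‖x - z‖ := norm_sub_le _ _
    _ ≤ R + ‖x - z‖ := by linarith

private theorem mtAv_tent_int (V : Submodule ℝ (Sp d)) {R : ℝ} (hR : 0 < R) (x z : Sp d) :
    Integrable (fun t : V => tent R z (x + (t : Sp d))) (Measure.addHaar : Measure V) :=
  (mtAv_tent_contV V R x z).integrable_of_hasCompactSupport (mtAv_tent_compact V hR x z)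

/-- the set of `t` with `x + t - l ∈ q conv Q` -/
private def mtAv_AA (V : Submodule ℝ (Sp d)) (Q : Finset (Sp d)) (q : ℕ) (x l : Sp d) : Set V :=
  {t : V | x + (t : Sp d) - l ∈ (q : ℝ) • convexHull ℝ (Q : Set (Sp d))}

private theorem mtAv_AAclosed (V : Submodule ℝ (Sp d)) (Q : Finset (Sp d)) (q : ℕ)
    (x l : Sp d) : IsClosed (mtAv_AA V Q q x l) := by
  have h1 : IsCompact (convexHull ℝ (Q : Set (Sp d))) := Q.finite_toSet.isCompact_convexHull ℝ
  have h2 : IsCompact ((q : ℝ) • convexHull ℝ (Q : Set (Sp d))) := h1.smul _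
  exact h2.isClosed.preimage
    ((continuous_const.add continuous_subtype_val).sub continuous_const)

private theorem mtAv_ind_eq (V : Submodule ℝ (Sp d)) (Q : Finset (Sp d)) (q : ℕ)
    (x z l : Sp d) (R : ℝ) (t : V) :
    tent R z (x + (t : Sp d)) *
      (ind ((q : ℝ) • convexHull ℝ (Q : Set (Sp d))) (x + (t : Sp d) - l) : ℝ) =
    (mtAv_AA V Q q x l).indicator (fun t : V => tent R z (x + (t : Sp d))) t := by
  classical
  unfold ind
  by_cases h : x + (t : Sp d) - l ∈ (q : ℝ) • convexHull ℝ (Q : Set (Sp d))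
  · rw [if_pos h, Set.indicator_of_mem (show t ∈ mtAv_AA V Q q x l from h)]
    simp
  · rw [if_neg h, Set.indicator_of_notMem (show t ∉ mtAv_AA V Q q x l from h)]
    simp

private theorem mtAv_int (V : Submodule ℝ (Sp d)) (Q : Finset (Sp d)) (q : ℕ)
    (x z l : Sp d) {R : ℝ} (hR : 0 < R) :
    Integrable (fun t : V => tent R z (x + (t : Sp d)) *
      (ind ((q : ℝ) • convexHull ℝ (Q : Set (Sp d))) (x + (t : Sp d) - l) : ℝ))
      (Measure.addHaar : Measure V) := by
  simp_rw [mtAv_ind_eq]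
  exact (mtAv_tent_int V hR x z).indicator (mtAv_AAclosed V Q q x l).measurableSet

private theorem mtAv_sub_mem {V : Submodule ℝ (Sp d)} {Q : Finset (Sp d)} (hQ : Q.Nonempty)
    (hV : ∀ p ∈ Q, ∀ q ∈ Q, p - q ∈ V) {p : Sp d} (hp : p ∈ convexHull ℝ (Q : Set (Sp d))) :
    p - base Q ∈ V := by
  have h1 : convexHull ℝ (Q : Set (Sp d)) ⊆ {p | p - base Q ∈ V} := by
    apply convexHull_min
    · intro p hp
      exact hV p hp _ (base_mem hQ)
    · intro a ha b hb s t hs ht hst
      have h2 : s • a + t • b - base Q = s • (a - base Q) + t • (b - base Q) := by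
        have : base Q = (s + t) • base Q := by rw [hst, one_smul]
        rw [smul_sub, smul_sub]
        nth_rewrite 1 [this]
        rw [add_smul]
        abel
      show s • a + t • b - base Q ∈ V
      rw [h2]
      exact V.add_mem (V.smul_mem _ ha) (V.smul_mem _ hb)
  exact h1 hp

private theorem mtAv_AA_norm {V : Submodule ℝ (Sp d)} {Q : Finset (Sp d)} {K1 : ℝ}
    (hK : ∀ p ∈ convexHull ℝ (Q : Set (Sp d)), ‖p‖ ≤ K1) {q : ℕ} {x l : Sp d} {t : V}
    (ht : t ∈ mtAv_AA V Q q x l) : ‖x + (t : Sp d) - l‖ ≤ q * K1 := by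
  obtain ⟨p, hp, hpe⟩ := Set.mem_smul_set.1 (show _ ∈ (q : ℝ) • convexHull ℝ (Q : Set (Sp d)) from ht)
  rw [← hpe, norm_smul, Real.norm_natCast]
  exact mul_le_mul_of_nonneg_left (hK p hp) (Nat.cast_nonneg q)

private theorem mtAv_AA_vol {V : Submodule ℝ (Sp d)} {Q : Finset (Sp d)}
    {q : ℕ} (hq : 1 ≤ q) {x l : Sp d} (h : l - (x - (q : ℝ) • base Q) ∈ V) :
    (Measure.addHaar : Measure V).real (mtAv_AA V Q q x l) = (q : ℝ) ^ finrank ℝ V * volV V Q := by
  have hq0 : (q : ℝ) ≠ 0 := by positivity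
  set u : V := ⟨l - (x - (q : ℝ) • base Q), h⟩ with hu
  have h1 : mtAv_AA V Q q x l = (fun t : V => t + (-u)) ⁻¹'
      ((q : ℝ) • {t : V | base Q + (t : Sp d) ∈ convexHull ℝ (Q : Set (Sp d))}) := by
    ext t
    rw [Set.mem_preimage, Set.mem_smul_set_iff_inv_smul_mem₀ hq0, Set.mem_ofPred_eq]
    show x + (t : Sp d) - l ∈ (q : ℝ) • convexHull ℝ (Q : Set (Sp d)) ↔ _
    rw [Set.mem_smul_set_iff_inv_smul_mem₀ hq0]
    have h2 : (q : ℝ)⁻¹ • (x + (t : Sp d) - l) = base Q + (((q : ℝ)⁻¹ • (t + -u) : V) : Sp d) := by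
      simp only [Submodule.coe_smul, Submodule.coe_add, Submodule.coe_neg, hu]
      have h3 : base Q = (q : ℝ)⁻¹ • ((q : ℝ) • base Q) := by
        rw [smul_smul, inv_mul_cancel₀ hq0, one_smul]
      nth_rewrite 1 [h3]
      rw [← smul_add]
      congr 1
      abel
    rw [h2]
  have h5 := Measure.addHaar_smul (Measure.addHaar : Measure V) (q : ℝ)
    {t : V | base Q + (t : Sp d) ∈ convexHull ℝ (Q : Set (Sp d))}
  rw [Measure.real, h1, measure_preimage_add_right]
  refine (congrArg ENNReal.toReal h5).trans ?_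
  rw [volV, Measure.real,
    ENNReal.toReal_mul, ENNReal.toReal_ofReal (abs_nonneg _), abs_of_nonneg (by positivity)]

private theorem mtAv_AA_fin {V : Submodule ℝ (Sp d)} {Q : Finset (Sp d)} {K1 : ℝ}
    (hK : ∀ p ∈ convexHull ℝ (Q : Set (Sp d)), ‖p‖ ≤ K1) (q : ℕ) (x l : Sp d) :
    (Measure.addHaar : Measure V) (mtAv_AA V Q q x l) < ⊤ := by
  have : ProperSpace V := FiniteDimensional.proper ℝ V
  refine lt_of_le_of_lt (measure_mono ?_)
    (isCompact_closedBall (0 : V) (q * K1 + ‖x - l‖)).measure_lt_top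
  intro t ht
  have h1 := mtAv_AA_norm hK ht
  rw [mem_closedBall_zero_iff]
  have h2 : (t : Sp d) = (x + (t : Sp d) - l) - (x - l) := by abel
  calc ‖t‖ = ‖(t : Sp d)‖ := rfl
    _ = ‖(x + (t : Sp d) - l) - (x - l)‖ := by rw [← h2]
    _ ≤ ‖x + (t : Sp d) - l‖ + ‖x - l‖ := norm_sub_le _ _
    _ ≤ q * K1 + ‖x - l‖ := by linarith

open Classical in
private theorem mtAv_step {V : Submodule ℝ (Sp d)} {Q : Finset (Sp d)} (hQ : Q.Nonempty)
    (hV : ∀ p ∈ Q, ∀ q ∈ Q, p - q ∈ V) {K1 : ℝ}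
    (hK : ∀ p ∈ convexHull ℝ (Q : Set (Sp d)), ‖p‖ ≤ K1) {q : ℕ} (hq : 1 ≤ q) (x z l : Sp d)
    {R : ℝ} (hR : 0 < R) :
    |(∫ t : V, tent R z (x + (t : Sp d)) *
      (ind ((q : ℝ) • convexHull ℝ (Q : Set (Sp d))) (x + (t : Sp d) - l) : ℝ)
      ∂(Measure.addHaar : Measure V)) -
      (if l - (x - (q : ℝ) • base Q) ∈ V then
        (q : ℝ) ^ finrank ℝ V * volV V Q * tent R z l else 0)| ≤
    if l - (x - (q : ℝ) • base Q) ∈ V then
      (q : ℝ) ^ finrank ℝ V * volV V Q * (q * K1 / R) else 0 := by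
  simp_rw [mtAv_ind_eq]
  rw [integral_indicator (mtAv_AAclosed V Q q x l).measurableSet]
  by_cases h : l - (x - (q : ℝ) • base Q) ∈ V
  · rw [if_pos h, if_pos h]
    have hfin := mtAv_AA_fin (V := V) hK q x l
    have hvol := mtAv_AA_vol (V := V) (Q := Q) hq h
    have h1 : (q : ℝ) ^ finrank ℝ V * volV V Q * tent R z l =
        ∫ t in mtAv_AA V Q q x l, tent R z l ∂(Measure.addHaar : Measure V) := by
      rw [setIntegral_const, smul_eq_mul, hvol]
    rw [h1, ← integral_sub (mtAv_tent_int V hR x z).integrableOn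
      (integrableOn_const hfin.ne)]
    have h2 : ∀ t ∈ mtAv_AA V Q q x l, ‖tent R z (x + (t : Sp d)) - tent R z l‖ ≤ q * K1 / R := by
      intro t ht
      rw [Real.norm_eq_abs]
      refine (mtAv_tent_lip hR z _ _).trans ?_
      exact div_le_div_of_nonneg_right (mtAv_AA_norm hK ht) hR.le
    have h3 := norm_setIntegral_le_of_norm_le_const hfin h2
    rw [hvol, mul_comm] at h3
    exact h3
  · rw [if_neg h, if_neg h]
    have h1 : mtAv_AA V Q q x l = ∅ := by
      rw [Set.eq_empty_iff_forall_notMem]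
      intro t ht
      apply h
      obtain ⟨p, hp, hpe⟩ :=
        Set.mem_smul_set.1 (show _ ∈ (q : ℝ) • convexHull ℝ (Q : Set (Sp d)) from ht)
      have h2 := mtAv_sub_mem hQ hV hp
      have h3 : l - (x - (q : ℝ) • base Q) = (t : Sp d) - (q : ℝ) • (p - base Q) := by
        rw [smul_sub, hpe]; abel
      rw [h3]
      exact V.sub_mem t.2 (V.smul_mem _ h2)
    rw [h1]
    simp

private theorem mtAv_gfun (C : Comb d) (N : Sp d → ℕ) (q : ℕ) (y : Sp d) :
    gfun (dil q C) N y = ∑ᶠ l : Sp d, (N l : ℤ) *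
      C.sum fun Q c => c * ind ((q : ℝ) • convexHull ℝ (Q : Set (Sp d))) (y - l) := by
  classical
  unfold gfun dil
  congr 1
  ext l
  rw [Finsupp.sum_mapDomain_index (by simp) (by intros; ring)]
  congr 1
  refine Finsupp.sum_congr fun Q _ => ?_
  rw [Finset.coe_image, ← convexHull_smul]
  rfl

theorem averaging (V : Submodule ℝ (Sp d)) (C : Comb d) (hC : Adapted V C) :
    ∃ K : ℝ, 0 ≤ K ∧ ∀ (N : (Sp d) → ℕ) (C0 : ℕ), LocB N C0 → ∀ q : ℕ, 1 ≤ q →
      ∀ (x z : Sp d) (R : ℝ), 0 < R →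
        |(∫ t : V, tent R z (x + (t : Sp d)) * (gfun (dil q C) N (x + t) : ℝ) ∂(Measure.addHaar : Measure V))
          - (q : ℝ) ^ finrank ℝ V * mainTerm V C N q x z R| ≤
        K * (q : ℝ) ^ (finrank ℝ V + 1) / R *
          ∑ Q ∈ C.support, cntV N V (x - (q : ℝ) • base Q) z (R + K * q) := by
  classical
  obtain ⟨K1, hK1, hb⟩ := exists_bound C
  have hvn : ∀ Q : Finset (Sp d), 0 ≤ volV V Q := fun Q => ENNReal.toReal_nonneg
  set M : ℝ := ∑ Q ∈ C.support, |(C Q : ℝ)| * volV V Q with hM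
  have hM0 : 0 ≤ M := Finset.sum_nonneg fun Q _ => mul_nonneg (abs_nonneg _) (hvn Q)
  have hKK : K1 ≤ K1 * (1 + M) := by nlinarith
  refine ⟨K1 * (1 + M), by positivity, ?_⟩
  intro N C0 hN q hq x z R hR
  set K : ℝ := K1 * (1 + M) with hK
  have hq0 : (0 : ℝ) ≤ q := Nat.cast_nonneg q
  set F := (hN.finite z (R + K * q)).toFinset with hF
  have memF : ∀ l, l ∈ F ↔ N l ≠ 0 ∧ ‖l - z‖ ≤ R + K * q := fun l => by
    rw [hF, Set.Finite.mem_toFinset]; rfl
  set J : Sp d → Finset (Sp d) → ℝ := fun l Q => ∫ t : V, tent R z (x + (t : Sp d)) *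
      (ind ((q : ℝ) • convexHull ℝ (Q : Set (Sp d))) (x + (t : Sp d) - l) : ℝ)
      ∂(Measure.addHaar : Measure V) with hJ
  have h1 : ∀ t : V, tent R z (x + (t : Sp d)) * (gfun (dil q C) N (x + t) : ℝ) =
      ∑ l ∈ F, ∑ Q ∈ C.support, (N l : ℝ) * (C Q : ℝ) * (tent R z (x + (t : Sp d)) *
      (ind ((q : ℝ) • convexHull ℝ (Q : Set (Sp d))) (x + (t : Sp d) - l) : ℝ)) := by
    intro t
    by_cases ht : tent R z (x + (t : Sp d)) = 0
    · rw [ht]; simp
    · have hyz := mtAv_tent_ne hR ht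
      have h2 : gfun (dil q C) N (x + t) = ∑ l ∈ F, (N l : ℤ) *
          C.sum fun Q c => c * ind ((q : ℝ) • convexHull ℝ (Q : Set (Sp d)))
            (x + (t : Sp d) - l) := by
        rw [mtAv_gfun]
        apply finsum_eq_sum_of_support_subset
        intro l hl
        rw [Function.mem_support] at hl
        rw [Finset.mem_coe, memF]
        have hN0 : N l ≠ 0 := fun h => hl (by rw [h]; simp)
        refine ⟨hN0, ?_⟩
        have h3 : (C.sum fun Q c => c * ind ((q : ℝ) • convexHull ℝ (Q : Set (Sp d)))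
            (x + (t : Sp d) - l)) ≠ 0 := right_ne_zero_of_mul hl
        rw [Finsupp.sum] at h3
        obtain ⟨Q, hQ, hQ0⟩ := Finset.exists_ne_zero_of_sum_ne_zero h3
        have h4 : ind ((q : ℝ) • convexHull ℝ (Q : Set (Sp d))) (x + (t : Sp d) - l) ≠ 0 :=
          right_ne_zero_of_mul hQ0
        have h5 : t ∈ mtAv_AA V Q q x l := by
          by_contra h6
          apply h4
          unfold ind
          rw [if_neg]
          exact h6
        have h6 := mtAv_AA_norm (hb Q hQ) h5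
        calc ‖l - z‖ = ‖(x + (t : Sp d) - z) - (x + (t : Sp d) - l)‖ := by congr 1; abel
          _ ≤ ‖x + (t : Sp d) - z‖ + ‖x + (t : Sp d) - l‖ := norm_sub_le _ _
          _ ≤ R + q * K1 := by linarith
          _ ≤ R + K * q := by nlinarith
      rw [h2]
      push_cast
      rw [Finset.mul_sum]
      refine Finset.sum_congr rfl fun l _ => ?_
      rw [Finsupp.sum]
      rw [Finset.mul_sum, Finset.mul_sum]
      refine Finset.sum_congr rfl fun Q _ => ?_
      ring
  have h2 : (∫ t : V, tent R z (x + (t : Sp d)) * (gfun (dil q C) N (x + t) : ℝ)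
      ∂(Measure.addHaar : Measure V)) =
      ∑ l ∈ F, ∑ Q ∈ C.support, (N l : ℝ) * (C Q : ℝ) * J l Q := by
    simp_rw [h1]
    rw [integral_finsetSum]
    · refine Finset.sum_congr rfl fun l _ => ?_
      rw [integral_finsetSum]
      · refine Finset.sum_congr rfl fun Q _ => ?_
        rw [integral_const_mul]
      · intro Q _
        exact (mtAv_int V Q q x z l hR).const_mul _
    · intro l _
      refine integrable_finsetSum _ fun Q _ => ?_
      exact (mtAv_int V Q q x z l hR).const_mul _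
  have h3 : ∀ Q : Finset (Sp d), fsum N V.toAddSubgroup (x - (q : ℝ) • base Q) z R =
      ∑ l ∈ F, if l - (x - (q : ℝ) • base Q) ∈ V then (N l : ℝ) * tent R z l else 0 := by
    intro Q
    unfold fsum
    have h4 : (fun l : Sp d => if l - (x - (q : ℝ) • base Q) ∈ V.toAddSubgroup then
        (N l : ℝ) * tent R z l else 0) = fun l : Sp d =>
        if l - (x - (q : ℝ) • base Q) ∈ V then (N l : ℝ) * tent R z l else 0 := by
      ext l
      rw [Submodule.mem_toAddSubgroup]
    rw [h4]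
    apply finsum_eq_sum_of_support_subset
    intro l hl
    rw [Function.mem_support] at hl
    rw [Finset.mem_coe, memF]
    have h5 : (N l : ℝ) * tent R z l ≠ 0 := by
      intro h6
      apply hl
      rw [h6, ite_self]
    refine ⟨fun h => h5 (by rw [h]; simp), ?_⟩
    have h6 := mtAv_tent_ne hR (right_ne_zero_of_mul h5)
    have h7 : 0 ≤ K * q := mul_nonneg (hK1.trans hKK) hq0
    linarith
  have h4 : mainTerm V C N q x z R = ∑ Q ∈ C.support, (C Q : ℝ) * volV V Q *
      fsum N V.toAddSubgroup (x - (q : ℝ) • base Q) z R := by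
    unfold mainTerm wt
    rw [Finsupp.sum_sum_index (by simp) (by intros; ring), Finsupp.sum]
    refine Finset.sum_congr rfl fun Q _ => ?_
    rw [Finsupp.sum_single_index (by simp)]
  have h5 : ∀ Q : Finset (Sp d), cntV N V (x - (q : ℝ) • base Q) z (R + K * q) =
      ∑ l ∈ F, if l - (x - (q : ℝ) • base Q) ∈ V then (N l : ℝ) else 0 := by
    intro Q
    unfold cntV
    rw [finsum_eq_sum_of_support_subset (s := F)]
    · refine Finset.sum_congr rfl fun l hl => ?_
      rw [memF] at hl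
      simp only [hl.2, and_true]
    · intro l hl
      rw [Function.mem_support] at hl
      rw [Finset.mem_coe, memF]
      by_cases h6 : l - (x - (q : ℝ) • base Q) ∈ V ∧ ‖l - z‖ ≤ R + K * q
      · rw [if_pos h6] at hl
        exact ⟨by exact_mod_cast hl, h6.2⟩
      · exact absurd (if_neg h6) hl
  have h6 : (∫ t : V, tent R z (x + (t : Sp d)) * (gfun (dil q C) N (x + t) : ℝ)
      ∂(Measure.addHaar : Measure V)) - (q : ℝ) ^ finrank ℝ V * mainTerm V C N q x z R =
      ∑ l ∈ F, ∑ Q ∈ C.support, (N l : ℝ) * (C Q : ℝ) *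
        (J l Q - if l - (x - (q : ℝ) • base Q) ∈ V then
          (q : ℝ) ^ finrank ℝ V * volV V Q * tent R z l else 0) := by
    have h7 : (q : ℝ) ^ finrank ℝ V * mainTerm V C N q x z R =
        ∑ l ∈ F, ∑ Q ∈ C.support, (N l : ℝ) * (C Q : ℝ) *
        (if l - (x - (q : ℝ) • base Q) ∈ V then
          (q : ℝ) ^ finrank ℝ V * volV V Q * tent R z l else 0) := by
      rw [Finset.sum_comm, h4, Finset.mul_sum]
      refine Finset.sum_congr rfl fun Q _ => ?_
      rw [h3, Finset.mul_sum, Finset.mul_sum]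
      refine Finset.sum_congr rfl fun l _ => ?_
      split_ifs
      · ring
      · ring
    rw [h2, h7, ← Finset.sum_sub_distrib]
    refine Finset.sum_congr rfl fun l _ => ?_
    rw [← Finset.sum_sub_distrib]
    refine Finset.sum_congr rfl fun Q _ => ?_
    ring
  rw [h6]
  have h7 : ∀ l ∈ F, ∀ Q ∈ C.support, |(N l : ℝ) * (C Q : ℝ) *
        (J l Q - if l - (x - (q : ℝ) • base Q) ∈ V then
          (q : ℝ) ^ finrank ℝ V * volV V Q * tent R z l else 0)| ≤
        (K * (q : ℝ) ^ (finrank ℝ V + 1) / R) *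
          (if l - (x - (q : ℝ) • base Q) ∈ V then (N l : ℝ) else 0) := by
    intro l _ Q hQ
    have h8 := mtAv_step (hC Q hQ).1 (hC Q hQ).2 (hb Q hQ) hq x z l hR
    rw [abs_mul, abs_mul, Nat.abs_cast]
    refine (mul_le_mul_of_nonneg_left h8
      (mul_nonneg (Nat.cast_nonneg _) (abs_nonneg _))).trans ?_
    split_ifs with h9
    · have h10 : |(C Q : ℝ)| * volV V Q ≤ M := by
        rw [hM]
        exact Finset.single_le_sum (f := fun Q => |(C Q : ℝ)| * volV V Q)
          (fun Q _ => mul_nonneg (abs_nonneg _) (hvn Q)) hQ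
      have h11 : K1 * (|(C Q : ℝ)| * volV V Q) ≤ K := by
        rw [hK]; nlinarith
      calc (N l : ℝ) * |(C Q : ℝ)| * ((q : ℝ) ^ finrank ℝ V * volV V Q * (q * K1 / R))
          = (K1 * (|(C Q : ℝ)| * volV V Q)) * ((q : ℝ) ^ (finrank ℝ V + 1) / R * N l) := by
            ring
        _ ≤ K * ((q : ℝ) ^ (finrank ℝ V + 1) / R * N l) :=
            mul_le_mul_of_nonneg_right h11 (by positivity)
        _ = _ := by ring
    · simp
  calc |∑ l ∈ F, ∑ Q ∈ C.support, (N l : ℝ) * (C Q : ℝ) *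
        (J l Q - if l - (x - (q : ℝ) • base Q) ∈ V then
          (q : ℝ) ^ finrank ℝ V * volV V Q * tent R z l else 0)|
      ≤ ∑ l ∈ F, ∑ Q ∈ C.support, |(N l : ℝ) * (C Q : ℝ) *
        (J l Q - if l - (x - (q : ℝ) • base Q) ∈ V then
          (q : ℝ) ^ finrank ℝ V * volV V Q * tent R z l else 0)| := by
        refine (Finset.abs_sum_le_sum_abs _ _).trans ?_
        exact Finset.sum_le_sum fun l _ => Finset.abs_sum_le_sum_abs _ _
    _ ≤ ∑ l ∈ F, ∑ Q ∈ C.support, (K * (q : ℝ) ^ (finrank ℝ V + 1) / R) *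
          (if l - (x - (q : ℝ) • base Q) ∈ V then (N l : ℝ) else 0) :=
        Finset.sum_le_sum fun l hl => Finset.sum_le_sum fun Q hQ => h7 l hl Q hQ
    _ = _ := by
        rw [Finset.sum_comm, Finset.mul_sum]
        refine Finset.sum_congr rfl fun Q _ => ?_
        rw [h5, Finset.mul_sum]

/-- `∫_V tent R = c R^s` with `c > 0` -/
theorem integral_tent (V : Submodule ℝ (Sp d)) : ∃ c : ℝ, 0 < c ∧ ∀ R : ℝ, 0 < R →
    ∫ t : V, tent R 0 (t : Sp d) ∂(Measure.addHaar : Measure V) = c * R ^ finrank ℝ V := by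
  refine ⟨∫ t : V, tent 1 0 (t : Sp d) ∂(Measure.addHaar : Measure V), ?_, ?_⟩
  · have hc : Continuous fun t : V => tent 1 0 (t : Sp d) := by
      simpa using mtAv_tent_contV V 1 0 0
    have hk : HasCompactSupport fun t : V => tent 1 0 (t : Sp d) := by
      simpa using mtAv_tent_compact V one_pos 0 0
    refine hc.integral_pos_of_hasCompactSupport_nonneg_nonzero hk
      (fun t => mtAv_tent_nonneg _ _ _) (x := 0) ?_
    simp [tent]
  · intro R hR
    have h1 : ∀ t : V, tent R 0 (t : Sp d) = tent 1 0 ((R⁻¹ • t : V) : Sp d) := by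
      intro t
      unfold tent
      rw [Submodule.coe_smul, sub_zero, sub_zero, norm_smul, Real.norm_eq_abs, abs_inv,
        abs_of_pos hR, div_one]
      congr 2
      field_simp
    simp_rw [h1]
    rw [Measure.integral_comp_smul (Measure.addHaar : Measure V)
      (fun t : V => tent 1 0 (t : Sp d)) R⁻¹]
    rw [inv_pow, inv_inv, abs_of_pos (by positivity), smul_eq_mul, mul_comm]

end Pool.Agent.MT
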