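import Pool.Agent.H73.MT.Meas

/-!
# Module MT-G7: counting points of a locally bounded multiset near a flat

`cntV N V y z R = ∑ {N l : l ∈ y + V, ‖l - z‖ ≤ R}`.
Proof.  If the set is empty nothing is to show; otherwise we may assume `y` itself is in it, so all
`l` are in `y + {v ∈ V : ‖v‖ ≤ 2 R}`.  Let `v_1 .. v_s` be a basis of `V`; the coordinates of such
`v` are bounded by `K1 * R`; the parallelepipeds with corners in the grid
`∑ n_i ε v_i` (`n_i : ℤ`, `|n_i| ≤ K2 * R`, `ε` so small that a parallelepiped of side `ε` has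
diameter `≤ 1`) cover: at most `(K3 * R) ^ s` of them (`R ≥ 1`), each contains points of total
multiplicity `≤ C0`.
-/

namespace Pool.Agent.MT

open MeasureTheory Module Submodule

variable {d : ℕ}

theorem cntV_le (V : Submodule ℝ (Sp d)) : ∃ K : ℝ, 0 ≤ K ∧
    ∀ (N : (Sp d) → ℕ) (C0 : ℕ), LocB N C0 → ∀ (y z : Sp d) (R : ℝ), 1 ≤ R →
      cntV N V y z R ≤ K * C0 * R ^ finrank ℝ V := by
  classical
  let e := Module.finBasis ℝ V
  let L := e.equivFunL
  obtain ⟨M, hM0, hM⟩ : ∃ M : ℝ, 0 ≤ M ∧ ∀ v : V, ∀ i, |L v i| ≤ M * ‖v‖ :=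
    ⟨‖(L : V →L[ℝ] (Fin (finrank ℝ V) → ℝ))‖, ContinuousLinearMap.opNorm_nonneg _, fun v i => by
      have h1 := (L : V →L[ℝ] (Fin (finrank ℝ V) → ℝ)).le_opNorm v
      have h2 := norm_le_pi_norm (L v) i
      rw [Real.norm_eq_abs] at h2
      exact h2.trans h1⟩
  obtain ⟨M', hM'0, hM'⟩ : ∃ M' : ℝ, 0 ≤ M' ∧ ∀ v : V, ‖v‖ ≤ M' * ‖L v‖ :=
    ⟨‖(L.symm : (Fin (finrank ℝ V) → ℝ) →L[ℝ] V)‖, ContinuousLinearMap.opNorm_nonneg _, fun v => by
      have h1 := (L.symm : (Fin (finrank ℝ V) → ℝ) →L[ℝ] V).le_opNorm (L v)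
      simpa using h1⟩
  set ε : ℝ := 1 / (M' + 1) with hε
  have hε0 : 0 < ε := by positivity
  have hε1 : M' * ε ≤ 1 := by
    rw [hε, mul_one_div, div_le_one (by positivity)]
    linarith
  refine ⟨(2 * (2 * M / ε + 1) + 1) ^ finrank ℝ V, by positivity, ?_⟩
  intro N C0 hN y z R hR
  have hR0 : 0 < R := by linarith
  let F : Finset (Sp d) := (hN.finite z R).toFinset.filter fun l => l - y ∈ V
  have hF : ∀ l ∈ F, l - y ∈ V ∧ ‖l - z‖ ≤ R := by
    intro l hl
    simp only [F, Finset.mem_filter, Set.Finite.mem_toFinset, Set.mem_setOf_eq] at hl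
    exact ⟨hl.2, hl.1.2⟩
  have hsum : cntV N V y z R = ∑ l ∈ F, (N l : ℝ) := by
    unfold cntV
    rw [finsum_eq_sum_of_support_subset (s := F)]
    · refine Finset.sum_congr rfl fun l hl => ?_
      rw [if_pos (hF l hl)]
    · intro l hl
      rw [Function.mem_support] at hl
      simp only [F, Finset.coe_filter, Set.Finite.mem_toFinset, Set.mem_setOf_eq]
      by_cases h : l - y ∈ V ∧ ‖l - z‖ ≤ R
      · rw [if_pos h] at hl
        exact ⟨⟨by exact_mod_cast hl, h.2⟩, h.1⟩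
      · rw [if_neg h] at hl
        exact absurd rfl hl
  rw [hsum]
  rcases F.eq_empty_or_nonempty with hFe | ⟨l0, hl0⟩
  · rw [hFe, Finset.sum_empty]
    positivity
  have hV : ∀ l ∈ F, l - l0 ∈ V := by
    intro l hl
    have h1 := V.sub_mem (hF l hl).1 (hF l0 hl0).1
    simpa using h1
  let g : Sp d → V := fun l => if h : l - l0 ∈ V then ⟨l - l0, h⟩ else 0
  have hg : ∀ l ∈ F, (g l : Sp d) = l - l0 := by
    intro l hl
    simp only [g]
    rw [dif_pos (hV l hl)]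
  have hgn : ∀ l ∈ F, ‖g l‖ ≤ 2 * R := by
    intro l hl
    have h1 : ‖g l‖ = ‖l - l0‖ := by rw [← hg l hl]; rfl
    rw [h1]
    calc ‖l - l0‖ = ‖(l - z) - (l0 - z)‖ := by congr 1; abel
      _ ≤ ‖l - z‖ + ‖l0 - z‖ := norm_sub_le _ _
      _ ≤ 2 * R := by linarith [(hF l hl).2, (hF l0 hl0).2]
  set m : ℕ := ⌈2 * M * R / ε⌉₊ with hm
  let φ : Sp d → (Fin (finrank ℝ V) → ℤ) := fun l i => ⌊L (g l) i / ε⌋
  let T : Finset (Fin (finrank ℝ V) → ℤ) :=
    Fintype.piFinset fun _ => Finset.Icc (-(m : ℤ)) (m : ℤ)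
  have hT : ∀ l ∈ F, φ l ∈ T := by
    intro l hl
    simp only [T, Fintype.mem_piFinset, Finset.mem_Icc, φ]
    intro i
    have h1 : |L (g l) i| ≤ M * (2 * R) :=
      (hM _ i).trans (mul_le_mul_of_nonneg_left (hgn l hl) hM0)
    have h2 : |L (g l) i / ε| ≤ 2 * M * R / ε := by
      rw [abs_div, abs_of_pos hε0]
      apply div_le_div_of_nonneg_right _ hε0.le
      linarith
    have h3 : |L (g l) i / ε| ≤ m := h2.trans (Nat.le_ceil _)
    obtain ⟨h4, h5⟩ := abs_le.1 h3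
    constructor
    · rw [Int.le_floor]
      push_cast
      exact h4
    · have h6 : (⌊L (g l) i / ε⌋ : ℝ) ≤ m := (Int.floor_le _).trans h5
      exact_mod_cast h6
  have hfib : ∀ c ∈ T, ∑ l ∈ F with φ l = c, N l ≤ C0 := by
    intro c _
    rcases (F.filter fun l => φ l = c).eq_empty_or_nonempty with h | ⟨l1, hl1⟩
    · rw [h, Finset.sum_empty]
      exact Nat.zero_le _
    · refine hN l1 _ fun l hl => ?_
      rw [Finset.mem_filter] at hl hl1
      have h1 : ‖l - l1‖ = ‖g l - g l1‖ := by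
        have : ((g l - g l1 : V) : Sp d) = l - l1 := by
          rw [Submodule.coe_sub, hg l hl.1, hg l1 hl1.1]
          abel
        rw [← this]
        rfl
      rw [h1]
      refine (hM' _).trans (le_trans (mul_le_mul_of_nonneg_left ?_ hM'0) hε1)
      rw [map_sub, pi_norm_le_iff_of_nonneg hε0.le]
      intro i
      rw [Pi.sub_apply, Real.norm_eq_abs]
      have h2 : ⌊L (g l) i / ε⌋ = ⌊L (g l1) i / ε⌋ := by
        have h3 := congrFun hl.2 i
        have h4 := congrFun hl1.2 i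
        simp only [φ] at h3 h4
        rw [h3, h4]
      have h5 := Int.abs_sub_lt_one_of_floor_eq_floor h2
      rw [← sub_div, abs_div, abs_of_pos hε0, div_lt_one hε0] at h5
      exact h5.le
  have hcard : (T.card : ℝ) ≤ ((2 * (2 * M / ε + 1) + 1) * R) ^ finrank ℝ V := by
    have h1 : T.card = (2 * m + 1) ^ finrank ℝ V := by
      simp only [T, Fintype.card_piFinset, Int.card_Icc, Finset.prod_const, Finset.card_univ,
        Fintype.card_fin]
      congr 1
      omega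
    rw [h1]
    push_cast
    have h2 : (m : ℝ) ≤ 2 * M * R / ε + 1 := (Nat.ceil_lt_add_one (by positivity)).le
    have h3 : 2 * (m : ℝ) + 1 ≤ (2 * (2 * M / ε + 1) + 1) * R := by
      have h4 : (2 * (2 * M / ε + 1) + 1) * R = 2 * (2 * M * R / ε) + 2 * R + R := by ring
      rw [h4]
      linarith
    exact pow_le_pow_left₀ (by positivity) h3 _
  have hmain : ∑ l ∈ F, N l ≤ T.card * C0 := by
    rw [← Finset.sum_fiberwise_of_maps_to hT]
    calc ∑ c ∈ T, ∑ l ∈ F with φ l = c, N l ≤ ∑ c ∈ T, C0 := Finset.sum_le_sum hfib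
      _ = T.card * C0 := by rw [Finset.sum_const, smul_eq_mul]
  calc ∑ l ∈ F, (N l : ℝ) = ((∑ l ∈ F, N l : ℕ) : ℝ) := by push_cast; rfl
    _ ≤ ((T.card * C0 : ℕ) : ℝ) := by exact_mod_cast hmain
    _ = (T.card : ℝ) * C0 := by push_cast; rfl
    _ ≤ ((2 * (2 * M / ε + 1) + 1) * R) ^ finrank ℝ V * C0 :=
      mul_le_mul_of_nonneg_right hcard (Nat.cast_nonneg _)
    _ = (2 * (2 * M / ε + 1) + 1) ^ finrank ℝ V * C0 * R ^ finrank ℝ V := by
      rw [mul_pow]
      ring

end Pool.Agent.MT
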