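import Pool.Agent.H75.MT.Defs
import Pool.Agent.H73.MT.QForm

/-!
# Project MT: compatible rational forms and the core of a rational flat (6'.1 of h73_sec6.md)
-/

namespace Pool.Agent.MT

open MeasureTheory Module Submodule Pool.Agent.H73.MT

variable {d : ℕ}

/-- `LL` is a rational form of `EE` compatible with the tower structure (the output of 5.2). -/
structure Compat (VV : Set (Submodule ℝ (Sp d))) (EE : Submodule ℝ (Sp d))
    (Y : Submodule ℝ (Sp d) → Submodule ℚ (Sp d)) (LL : Submodule ℚ (Sp d)) : Prop where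
  form : IsQForm LL
  span_eq : span ℝ (LL : Set (Sp d)) = EE
  rat : ∀ V ∈ VV, IsRat LL V
  part_le : ∀ V ∈ VV, part LL (rs (Y V)) ≤ Y V
  Y_le : ∀ V ∈ VV, Y V ≤ rq V ⊔ LL

variable {S : Finset (Sp d)} {FD : Set (Submodule ℝ (Sp d) × (Sp d → ℝ))}
  {VV : Set (Submodule ℝ (Sp d))} {EE : Submodule ℝ (Sp d)}
  {Y : Submodule ℝ (Sp d) → Submodule ℚ (Sp d)} {LL : Submodule ℚ (Sp d)}

theorem mtComp_le_rs (st : Struc S FD VV EE Y) {U : Submodule ℝ (Sp d)} (hU : U ∈ VV) :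
    U ≤ rs (Y U) := fun x hx => subset_span (st.le_Y U hU (by simpa using hx))

theorem mtComp_rs_mono {Y₁ Y₂ : Submodule ℚ (Sp d)} (h : Y₁ ≤ Y₂) : rs Y₁ ≤ rs Y₂ :=
  span_mono h

/-- The core of a rational flat. -/
theorem core (st : Struc S FD VV EE Y) (hc : Compat VV EE Y LL) {V : Submodule ℝ (Sp d)}
    (hr : IsRat LL V) {D3 : Set (Sp d)} (hD3 : D3 ⊆ dif S) (hVD : V = span ℝ D3) :
    ∃ U ∈ VV, U ≤ V ∧ V ⊓ rs (Y U) = U := by
  classical
  have hfin : {U | U ∈ VV ∧ U ≤ V}.Finite := st.fin.subset fun U hU => hU.1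
  obtain ⟨U, hU⟩ := hfin.exists_maximal ⟨⊥, st.bot_mem, bot_le⟩
  have hUV := hU.prop
  refine ⟨U, hUV.1, hUV.2, ?_⟩
  have hle : U ≤ V ⊓ rs (Y U) := le_inf hUV.2 (mtComp_le_rs st hUV.1)
  have hrat : IsRat LL (V ⊓ rs (Y U)) :=
    hc.form.isRat_inf hr (hc.rat _ (st.pl_mem U hUV.1))
  have hmem : V ⊓ rs (Y U) ∈ VV := by
    rw [hVD]
    apply st.cap U hUV.1 D3 hD3 (hVD ▸ hUV.2)
    rw [← hVD]
    refine le_trans ?_ le_sup_right
    rw [isRat_iff] at hrat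
    refine hrat.trans (span_mono ?_)
    intro x hx
    have hx' := mem_part.1 hx
    have h1 : x ∈ V := hx'.2.1
    have h2 : x ∈ rs (Y U) := hx'.2.2
    refine ⟨?_, hc.part_le U hUV.1 (mem_part.2 ⟨hx'.1, h2⟩)⟩
    simpa using h1
  exact le_antisymm (hU.le_of_ge ⟨hmem, inf_le_left⟩ hle) hle

/-- `Y V = V + (LL ∩ V^+)` -/
theorem Y_eq (st : Struc S FD VV EE Y) (hc : Compat VV EE Y LL) {V : Submodule ℝ (Sp d)}
    (hV : V ∈ VV) : Y V = rq V ⊔ part LL (rs (Y V)) := by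
  apply le_antisymm
  · intro y hy
    obtain ⟨v, hv, l, hl, rfl⟩ := Submodule.mem_sup.1 (hc.Y_le V hV hy)
    refine Submodule.add_mem_sup hv (mem_part.2 ⟨hl, ?_⟩)
    have h1 : v ∈ Y V := st.le_Y V hV hv
    have h2 : l ∈ Y V := by
      have := (Y V).sub_mem hy h1
      simpa using this
    exact subset_span h2
  · exact sup_le (st.le_Y V hV) (hc.part_le V hV)

end Pool.Agent.MT
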