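import Pool.Agent.H73.MT.Tiling
import Pool.Agent.H73.MT.Av
import Pool.Agent.H73.MT.Cnt

/-!
# Module MT-G9: the dilation theorem (2.4 of multi_proof.md)

Every `qP`, `q` coprime to `(2 ^ d)!`, satisfies all chain relations with `N`.

Proof.  `chain_induction` with `Vs = ⊤`: let `Chain S V C`, `V ≠ ⊤`, `s = finrank V`, and suppose
that `gfun (dil q C) N` is a.e. equal to `κ x` on `x + V` (choose `κ : Sp d → ℤ`).  Let `U` be
a nonprincipal ultrafilter on `ℕ` (`Filter.hyperfilter ℕ`) and for `y : Sp d`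
`f y = lim_U fsum N V y y n / n ^ s` (bounded by `K * C0`: `fsum_le_cntV`, `cntV_le`; bounded real
sequences converge along `U`, e.g. `Ultrafilter.le_nhds_lim` in a compact interval, or
`IsCompact.ultrafilter_le_nhds`).
For `R ≥ 1` and fixed `y, z, z'`: `|fsum N V y z R - fsum N V y z' R| ≤ ‖z - z'‖ / R * (cntV N V y z R +
cntV N V y z' R) = O (R ^ s / R)` (`tent R z l` is `1/R`-Lipschitz in `z`).  So
`lim_U fsum N V (x - q v) x n / n ^ s = f (x - q v)`.
`averaging` with `z = x`, `R = n`: the integral is `κ x * ∫_V tent n 0 t = κ x * c * n ^ s`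
(`integral_tent`), so dividing by `n ^ s` and taking `lim_U` (the error is `O (1/n)` by `cntV_le`)
`κ x * c = q ^ s * ∑_v wt V C v * f (x - q v)`.       (1)
For `q = 1` (`dil_one`) `Rel V C N` holds by `chain_rel`, so `0 = ∑_v wt V C v * f (x - v)`.  (2)
Index the support of `wt V C` by `Fin n`, `n = card ≤ 2 ^ d` (`wt_card`), so `q` is coprime to `n!`
(`Nat.factorial_dvd_factorial`).  `DilLemma` with `r = q ^ s / c`, `c := κ` gives `κ = 0`.
-/

namespace Pool.Agent.MT

open MeasureTheory Module Submodule Nat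

variable {d : ℕ}

/-- Lemma 1.2 (A2) of multi_proof.md in the form needed here (proved by helper46). -/
def DilLemma (d : ℕ) : Prop :=
  ∀ (n : ℕ) (w : Fin n → Sp d) (a : Fin n → ℝ) (f : Sp d → ℝ) (B : ℝ), (∀ x, |f x| ≤ B) →
    (∀ x, ∑ i, a i * f (x - w i) = 0) → ∀ q : ℤ, IsCoprime q (n ! : ℤ) → ∀ r : ℝ, 0 < r →
      ∀ c : Sp d → ℤ, (∀ x, (c x : ℝ) = r * ∑ i, a i * f (x - q • w i)) → ∀ x, c x = 0

theorem wt_card {S : Finset (Sp d)} (hS : S.Nonempty) {V : Submodule ℝ (Sp d)}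
    {C : Comb d} (h : Chain S V C) : (wt V C).support.card ≤ 2 ^ d := by
  classical
  have h1 : (wt V C).support ⊆ C.support.image base := by
    intro v hv
    by_contra hcon
    rw [Finsupp.mem_support_iff] at hv
    apply hv
    unfold wt
    rw [Finsupp.sum, Finsupp.finsetSum_apply]
    refine Finset.sum_eq_zero fun Q hQ => ?_
    rw [Finsupp.single_apply, if_neg]
    intro hb
    exact hcon (Finset.mem_image.2 ⟨Q, hQ, hb⟩)
  exact ((Finset.card_le_card h1).trans Finset.card_image_le).trans (chain_card h)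

/-- bounded real sequences converge along an ultrafilter -/
private theorem mtDil_lim (U : Ultrafilter ℕ) (a : ℕ → ℝ) (B : ℝ) (h : ∀ᶠ n in (U : Filter ℕ), |a n| ≤ B) :
    ∃ x : ℝ, |x| ≤ B ∧ Filter.Tendsto a U (nhds x) := by
  have h1 : ((U.map a : Ultrafilter ℝ) : Filter ℝ) ≤ Filter.principal (Set.Icc (-B) B) := by
    rw [Filter.le_principal_iff, Ultrafilter.mem_coe, Ultrafilter.mem_map]
    filter_upwards [h] with n hn
    exact abs_le.1 hn
  obtain ⟨x, hx, hx'⟩ := (isCompact_Icc (a := -B) (b := B)).ultrafilter_le_nhds (U.map a) h1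
  exact ⟨x, abs_le.2 hx, hx'⟩

private theorem mtDil_tent_nonneg (R : ℝ) (z y : Sp d) : 0 ≤ tent R z y := le_max_left _ _

private theorem mtDil_tent_zero {R : ℝ} (hR : 0 < R) {z y : Sp d} (h : R < ‖y - z‖) :
    tent R z y = 0 := by
  unfold tent
  apply max_eq_left
  have : 1 < ‖y - z‖ / R := by rwa [lt_div_iff₀ hR, one_mul]
  linarith

private theorem mtDil_tent_sub {R : ℝ} (hR : 0 < R) (z z' y : Sp d) :
    |tent R z y - tent R z' y| ≤ ‖z - z'‖ / R := by
  unfold tent
  have h1 := abs_max_sub_max_le_max (0:ℝ) (1 - ‖y - z‖ / R) 0 (1 - ‖y - z'‖ / R)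
  refine h1.trans ?_
  rw [sub_zero, abs_zero]
  refine max_le (by positivity) ?_
  have h2 : 1 - ‖y - z‖ / R - (1 - ‖y - z'‖ / R) = (‖y - z'‖ - ‖y - z‖) / R := by ring
  rw [h2, abs_div, abs_of_pos hR]
  refine div_le_div_of_nonneg_right ?_ hR.le
  refine (abs_norm_sub_norm_le _ _).trans ?_
  have h3 : y - z' - (y - z) = z - z' := by abel
  rw [h3]

private theorem mtDil_fsum_sub {N : Sp d → ℕ} {C0 : ℕ} (hN : LocB N C0)
    (V : Submodule ℝ (Sp d)) (y z z' : Sp d) {R : ℝ} (hR : 0 < R) :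
    |fsum N V.toAddSubgroup y z R - fsum N V.toAddSubgroup y z' R| ≤
      ‖z - z'‖ / R * (cntV N V y z R + cntV N V y z' R) := by
  classical
  set F : Finset (Sp d) := (fsum_support_finite hN z hR).toFinset ∪
    (fsum_support_finite hN z' hR).toFinset ∪ (hN.finite z R).toFinset ∪
    (hN.finite z' R).toFinset with hF
  have e1 : fsum N V.toAddSubgroup y z R =
      ∑ l ∈ F, if l - y ∈ V.toAddSubgroup then (N l : ℝ) * tent R z l else 0 := by
    unfold fsum
    apply finsum_eq_sum_of_support_subset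
    intro l hl
    rw [Function.mem_support] at hl
    have h1 : (N l : ℝ) * tent R z l ≠ 0 := by
      intro h0
      rw [h0] at hl
      simp at hl
    rw [Finset.mem_coe, hF]
    simp only [Finset.mem_union, Set.Finite.mem_toFinset, Set.mem_ofPred_eq]
    exact Or.inl (Or.inl (Or.inl h1))
  have e2 : fsum N V.toAddSubgroup y z' R =
      ∑ l ∈ F, if l - y ∈ V.toAddSubgroup then (N l : ℝ) * tent R z' l else 0 := by
    unfold fsum
    apply finsum_eq_sum_of_support_subset
    intro l hl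
    rw [Function.mem_support] at hl
    have h1 : (N l : ℝ) * tent R z' l ≠ 0 := by
      intro h0
      rw [h0] at hl
      simp at hl
    rw [Finset.mem_coe, hF]
    simp only [Finset.mem_union, Set.Finite.mem_toFinset, Set.mem_ofPred_eq]
    exact Or.inl (Or.inl (Or.inr h1))
  have e3 : cntV N V y z R =
      ∑ l ∈ F, if l - y ∈ V ∧ ‖l - z‖ ≤ R then (N l : ℝ) else 0 := by
    unfold cntV
    apply finsum_eq_sum_of_support_subset
    intro l hl
    rw [Function.mem_support] at hl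
    have h1 : N l ≠ 0 ∧ ‖l - z‖ ≤ R := by
      by_contra h0
      apply hl
      by_cases h2 : l - y ∈ V ∧ ‖l - z‖ ≤ R
      · rw [if_pos h2]
        by_contra h3
        exact h0 ⟨fun h4 => h3 (by rw [h4]; simp), h2.2⟩
      · rw [if_neg h2]
    rw [Finset.mem_coe, hF]
    simp only [Finset.mem_union, Set.Finite.mem_toFinset, Set.mem_ofPred_eq]
    exact Or.inl (Or.inr h1)
  have e4 : cntV N V y z' R =
      ∑ l ∈ F, if l - y ∈ V ∧ ‖l - z'‖ ≤ R then (N l : ℝ) else 0 := by
    unfold cntV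
    apply finsum_eq_sum_of_support_subset
    intro l hl
    rw [Function.mem_support] at hl
    have h1 : N l ≠ 0 ∧ ‖l - z'‖ ≤ R := by
      by_contra h0
      apply hl
      by_cases h2 : l - y ∈ V ∧ ‖l - z'‖ ≤ R
      · rw [if_pos h2]
        by_contra h3
        exact h0 ⟨fun h4 => h3 (by rw [h4]; simp), h2.2⟩
      · rw [if_neg h2]
    rw [Finset.mem_coe, hF]
    simp only [Finset.mem_union, Set.Finite.mem_toFinset, Set.mem_ofPred_eq]
    exact Or.inr h1
  rw [e1, e2, e3, e4, ← Finset.sum_sub_distrib, ← Finset.sum_add_distrib, Finset.mul_sum]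
  refine (Finset.abs_sum_le_sum_abs _ _).trans (Finset.sum_le_sum fun l _ => ?_)
  have hN0 : (0:ℝ) ≤ N l := Nat.cast_nonneg _
  have hz0 : 0 ≤ ‖z - z'‖ / R := by positivity
  by_cases hl : l - y ∈ V
  · have hl' : l - y ∈ V.toAddSubgroup := hl
    rw [if_pos hl', if_pos hl', ← mul_sub, abs_mul, abs_of_nonneg hN0]
    have h1 := mtDil_tent_sub hR z z' l
    by_cases ha : ‖l - z‖ ≤ R
    · rw [if_pos ⟨hl, ha⟩]
      have h3 : (0:ℝ) ≤ if l - y ∈ V ∧ ‖l - z'‖ ≤ R then (N l : ℝ) else 0 := by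
        split_ifs <;> positivity
      nlinarith [mul_le_mul_of_nonneg_left h1 hN0, mul_nonneg hz0 h3]
    · by_cases hb : ‖l - z'‖ ≤ R
      · rw [if_pos (⟨hl, hb⟩ : l - y ∈ V ∧ ‖l - z'‖ ≤ R)]
        have h3 : (0:ℝ) ≤ if l - y ∈ V ∧ ‖l - z‖ ≤ R then (N l : ℝ) else 0 := by
          split_ifs <;> positivity
        nlinarith [mul_le_mul_of_nonneg_left h1 hN0, mul_nonneg hz0 h3]
      · rw [mtDil_tent_zero hR (not_le.1 ha), mtDil_tent_zero hR (not_le.1 hb)]
        rw [sub_zero, abs_zero, mul_zero]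
        refine mul_nonneg hz0 (add_nonneg ?_ ?_) <;> (split_ifs <;> positivity)
  · have hl' : l - y ∉ V.toAddSubgroup := hl
    rw [if_neg hl', if_neg hl', if_neg (fun hh => hl hh.1), if_neg (fun hh => hl hh.1)]
    simp

private theorem mtDil_div_tendsto {U : Filter ℕ} (hU : U ≤ Filter.atTop) (M : ℝ) :
    Filter.Tendsto (fun n : ℕ => M / (n : ℝ)) U (nhds 0) :=
  (tendsto_const_div_atTop_nhds_zero_nat M).mono_left hU

private theorem mtDil_pos {U : Filter ℕ} (hU : U ≤ Filter.atTop) : ∀ᶠ n : ℕ in U, 1 ≤ n :=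
  hU (Filter.eventually_ge_atTop 1)

private theorem mtDil_center {N : Sp d → ℕ} {C0 : ℕ} (hN : LocB N C0)
    (V : Submodule ℝ (Sp d)) (y z : Sp d) {U : Filter ℕ} (hU : U ≤ Filter.atTop) (a : ℝ)
    (h : Filter.Tendsto (fun n : ℕ => fsum N V.toAddSubgroup y y n / (n : ℝ) ^ finrank ℝ V) U
      (nhds a)) :
    Filter.Tendsto (fun n : ℕ => fsum N V.toAddSubgroup y z n / (n : ℝ) ^ finrank ℝ V) U
      (nhds a) := by
  obtain ⟨K', hK', hcnt⟩ := cntV_le V
  have h1 : Filter.Tendsto (fun n : ℕ => fsum N V.toAddSubgroup y z n / (n : ℝ) ^ finrank ℝ V -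
      fsum N V.toAddSubgroup y y n / (n : ℝ) ^ finrank ℝ V) U (nhds 0) := by
    refine squeeze_zero_norm' ?_ (mtDil_div_tendsto hU (‖z - y‖ * (2 * (K' * C0))))
    filter_upwards [mtDil_pos hU] with n hn
    have hn' : (1:ℝ) ≤ n := by exact_mod_cast hn
    have hn0 : (0:ℝ) < n := by linarith
    have hns : (0:ℝ) < (n:ℝ) ^ finrank ℝ V := by positivity
    rw [← sub_div, Real.norm_eq_abs, abs_div, abs_of_pos hns, div_le_iff₀ hns]
    refine (mtDil_fsum_sub hN V y z y hn0).trans ?_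
    have h2 := hcnt N C0 hN y z n hn'
    have h3 := hcnt N C0 hN y y n hn'
    have h4 : 0 ≤ ‖z - y‖ / n := by positivity
    calc ‖z - y‖ / n * (cntV N V y z n + cntV N V y y n)
        ≤ ‖z - y‖ / n * (K' * C0 * n ^ finrank ℝ V + K' * C0 * n ^ finrank ℝ V) :=
          mul_le_mul_of_nonneg_left (add_le_add h2 h3) h4
      _ = ‖z - y‖ * (2 * (K' * C0)) / n * n ^ finrank ℝ V := by ring
  have h2 := h1.add h
  simpa using h2

private theorem mtDil_key {V : Submodule ℝ (Sp d)} {C : Comb d} (hC : Adapted V C)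
    {N : Sp d → ℕ} {C0 : ℕ} (hN : LocB N C0) {U : Filter ℕ} [U.NeBot] (hU : U ≤ Filter.atTop)
    (f : Sp d → ℝ)
    (hf : ∀ y, Filter.Tendsto (fun n : ℕ => fsum N V.toAddSubgroup y y n /
      (n : ℝ) ^ finrank ℝ V) U (nhds (f y)))
    {c : ℝ} (hc : ∀ R : ℝ, 0 < R →
      ∫ t : V, tent R 0 (t : Sp d) ∂(Measure.addHaar : Measure V) = c * R ^ finrank ℝ V)
    (q : ℕ) (hq : 1 ≤ q) (κ : ℤ) (x : Sp d)
    (h : ∀ᵐ t : V ∂(Measure.addHaar : Measure V), gfun (dil q C) N (x + t) = κ) :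
    (κ : ℝ) * c = (q : ℝ) ^ finrank ℝ V * (wt V C).sum fun v a => a * f (x - (q : ℝ) • v) := by
  obtain ⟨K, hK0, hav⟩ := averaging V C hC
  obtain ⟨K', hK'0, hcnt⟩ := cntV_le V
  set s := finrank ℝ V with hs
  -- the integral
  have hint : ∀ n : ℕ, 1 ≤ n →
      (∫ t : V, tent n x (x + (t : Sp d)) * (gfun (dil q C) N (x + t) : ℝ)
        ∂(Measure.addHaar : Measure V)) = κ * c * (n : ℝ) ^ s := by
    intro n hn
    have hn0 : (0:ℝ) < n := by exact_mod_cast hn
    have h1 : (∫ t : V, tent n x (x + (t : Sp d)) * (gfun (dil q C) N (x + t) : ℝ)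
        ∂(Measure.addHaar : Measure V)) = ∫ t : V, tent n 0 (t : Sp d) * (κ : ℝ)
        ∂(Measure.addHaar : Measure V) := by
      refine integral_congr_ae ?_
      filter_upwards [h] with t ht
      have h2 : tent (n : ℝ) x (x + (t : Sp d)) = tent (n : ℝ) 0 (t : Sp d) := by
        unfold tent
        rw [add_sub_cancel_left, sub_zero]
      simp only [ht, h2]
    rw [h1, integral_mul_const, hc n hn0]
    ring
  set m := C.support.card with hm
  -- the error term
  set M : ℝ := K * (q : ℝ) ^ (s + 1) * (m * (K' * C0 * (1 + K * q) ^ s)) with hM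
  have herr : ∀ n : ℕ, 1 ≤ n →
      |(κ : ℝ) * c - (q : ℝ) ^ s * (mainTerm V C N q x x n / (n : ℝ) ^ s)| ≤ M / n := by
    intro n hn
    have hn' : (1:ℝ) ≤ n := by exact_mod_cast hn
    have hn0 : (0:ℝ) < n := by linarith
    have hns : (0:ℝ) < (n:ℝ) ^ s := by positivity
    have h1 := hav N C0 hN q hq x x n hn0
    rw [hint n hn] at h1
    have h2 : ∑ Q ∈ C.support, cntV N V (x - (q : ℝ) • base Q) x (n + K * q) ≤
        m * (K' * C0 * ((1 + K * q) ^ s * n ^ s)) := by
      rw [hm, ← nsmul_eq_mul]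
      refine Finset.sum_le_card_nsmul _ _ _ fun Q _ => ?_
      have hKq : 0 ≤ K * q := by positivity
      have h3 := hcnt N C0 hN (x - (q : ℝ) • base Q) x (n + K * q) (by linarith)
      refine h3.trans ?_
      rw [← mul_pow]
      refine mul_le_mul_of_nonneg_left ?_ (by positivity)
      refine pow_le_pow_left₀ (by positivity) ?_ _
      nlinarith
    have h3 : |(κ : ℝ) * c - (q : ℝ) ^ s * (mainTerm V C N q x x n / (n : ℝ) ^ s)| * n ^ s =
        |κ * c * (n : ℝ) ^ s - (q : ℝ) ^ s * mainTerm V C N q x x n| := by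
      rw [← abs_of_pos hns, ← abs_mul, abs_of_pos hns]
      congr 1
      field_simp
    have h4 : |(κ : ℝ) * c - (q : ℝ) ^ s * (mainTerm V C N q x x n / (n : ℝ) ^ s)| * n ^ s ≤
        M / n * n ^ s := by
      rw [h3]
      refine h1.trans ?_
      have h5 : 0 ≤ K * (q : ℝ) ^ (s + 1) / n := by positivity
      refine (mul_le_mul_of_nonneg_left h2 h5).trans (le_of_eq ?_)
      rw [hM]
      ring
    exact le_of_mul_le_mul_right h4 hns
  -- first limit
  have hlim1 : Filter.Tendsto (fun n : ℕ => (q : ℝ) ^ s *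
      (mainTerm V C N q x x n / (n : ℝ) ^ s)) U (nhds (κ * c)) := by
    have h1 : Filter.Tendsto (fun n : ℕ => (κ : ℝ) * c - (q : ℝ) ^ s *
      (mainTerm V C N q x x n / (n : ℝ) ^ s)) U (nhds 0) := by
      refine squeeze_zero_norm' ?_ (mtDil_div_tendsto hU M)
      filter_upwards [mtDil_pos hU] with n hn
      rw [Real.norm_eq_abs]
      exact herr n hn
    have h2 := (tendsto_const_nhds (x := (κ : ℝ) * c)).sub h1
    simpa using h2
  -- second limit
  have hlim2 : Filter.Tendsto (fun n : ℕ => (q : ℝ) ^ s *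
      (mainTerm V C N q x x n / (n : ℝ) ^ s)) U
      (nhds ((q : ℝ) ^ s * (wt V C).sum fun v a => a * f (x - (q : ℝ) • v))) := by
    refine Filter.Tendsto.const_mul _ ?_
    have h1 : ∀ n : ℕ, mainTerm V C N q x x n / (n : ℝ) ^ s =
        ∑ v ∈ (wt V C).support, wt V C v *
          (fsum N V.toAddSubgroup (x - (q : ℝ) • v) x n / (n : ℝ) ^ s) := by
      intro n
      unfold mainTerm
      rw [Finsupp.sum, Finset.sum_div]
      exact Finset.sum_congr rfl fun v _ => by rw [mul_div_assoc]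
    simp_rw [h1]
    rw [Finsupp.sum]
    refine tendsto_finsetSum _ fun v _ => ?_
    exact (mtDil_center hN V _ x hU _ (hf _)).const_mul _
  exact tendsto_nhds_unique hlim1 hlim2

theorem dilation_chain (hA2 : DilLemma d) {S : Finset (Sp d)} (hS : S.Nonempty) {N : Sp d → ℕ}
    {C0 : ℕ} (hN : LocB N C0) (k : ℤ) (h : ∀ᵐ x : Sp d, gfun (Finsupp.single S 1) N x = k)
    (q : ℕ) (hq1 : 1 ≤ q) (hq : Nat.Coprime q (Nat.factorial (2 ^ d))) :
    ∀ (V : Submodule ℝ (Sp d)) (C : Comb d), Chain S V C → V ≠ ⊤ → Rel V (dil q C) N := by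
  intro V0 C0' hch0 hV0
  refine chain_induction hS hN q (by omega) ⊤ ?_ V0 C0' hch0 hV0 le_top
  intro V C hch hV _ hconst
  choose κ hκ using hconst
  have hC := chain_adapted hS hch
  obtain ⟨K', hK'0, hcnt⟩ := cntV_le V
  obtain ⟨c, hc0, hc⟩ := integral_tent V
  have hU : ((Filter.hyperfilter ℕ : Ultrafilter ℕ) : Filter ℕ) ≤ Filter.atTop :=
    Nat.hyperfilter_le_atTop
  have hex : ∀ y : Sp d, ∃ a : ℝ, |a| ≤ K' * C0 ∧
      Filter.Tendsto (fun n : ℕ => fsum N V.toAddSubgroup y y n / (n : ℝ) ^ finrank ℝ V)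
        (Filter.hyperfilter ℕ : Ultrafilter ℕ) (nhds a) := by
    intro y
    refine mtDil_lim _ _ _ ?_
    filter_upwards [mtDil_pos hU] with n hn
    have hn' : (1:ℝ) ≤ n := by exact_mod_cast hn
    have hn0 : (0:ℝ) < n := by linarith
    have hns : (0:ℝ) < (n:ℝ) ^ finrank ℝ V := by positivity
    obtain ⟨h1, h2⟩ := fsum_le_cntV hN V y y hn0
    rw [abs_of_nonneg (by positivity), div_le_iff₀ hns]
    exact h2.trans (hcnt N C0 hN y y n hn')
  choose f hfB hf using hex
  -- the relation for q = 1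
  have hrel := chain_rel hS hN k h V C hch hV
  have h1 : ∀ x : Sp d, (wt V C).sum (fun v a => a * f (x - v)) = 0 := by
    intro x
    have h2 := mtDil_key hC hN hU f hf hc 1 le_rfl 0 x (by
      rw [dil_one]
      exact hrel x)
    simp at h2
    exact h2.symm
  have h2 : ∀ x : Sp d, (κ x : ℝ) * c =
      (q : ℝ) ^ finrank ℝ V * (wt V C).sum fun v a => a * f (x - (q : ℝ) • v) :=
    fun x => mtDil_key hC hN hU f hf hc q hq1 (κ x) x (hκ x)
  -- index the support
  set F := (wt V C).support with hF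
  set n := F.card with hn
  let e : Fin n ≃ F := F.equivFin.symm
  have hsum : ∀ g : Sp d → ℝ, ∑ i, wt V C (e i) * g (e i) = (wt V C).sum fun v a => a * g v := by
    intro g
    rw [Finsupp.sum, ← hF, ← Finset.sum_coe_sort F (fun v => wt V C v * g v)]
    exact Fintype.sum_equiv e _ _ fun i => rfl
  have hnd : n ≤ 2 ^ d := wt_card hS hch
  have hqn : IsCoprime (q : ℤ) ((n ! : ℕ) : ℤ) := by
    rw [Nat.isCoprime_iff_coprime]
    exact Nat.Coprime.coprime_dvd_right (Nat.factorial_dvd_factorial hnd) hq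
  have hr : 0 < (q : ℝ) ^ finrank ℝ V / c := by
    have : (0:ℝ) < q := by exact_mod_cast hq1
    positivity
  have h3 := hA2 n (fun i => (e i : Sp d)) (fun i => wt V C (e i)) f (K' * C0) hfB
    (fun x => by
      have h4 := hsum (fun v => f (x - v))
      rw [h4]
      exact h1 x) q hqn _ hr κ (fun x => by
      have h4 := hsum (fun v => f (x - (q : ℝ) • v))
      have h5 : ∀ v : Sp d, ((q : ℤ) : ℤ) • v = (q : ℝ) • v := by
        intro v
        rw [natCast_zsmul, Nat.cast_smul_eq_nsmul]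
      simp only [h5]
      rw [h4, div_mul_eq_mul_div, ← h2 x]
      field_simp)
  intro x
  have h4 := hκ x
  rw [h3 x] at h4
  exact h4

end Pool.Agent.MT
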