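import Pool.Agent.H73.MT.Dil

/-!
# Module MT-G10: the finite scale relation (H3) (2.5 of multi_proof.md)

Proof.  Let `Chain S V C`, `V ≠ ⊤`, `s = finrank V`, `q` coprime to `(2 ^ d)!`.  `dilation_chain`:
`Rel V (dil q C) N`, so the integral in `averaging` is `0` and
`q ^ s * |mainTerm V C N q x z R| ≤ K * q ^ (s + 1) / R * ∑_Q cntV N V _ z (R + K q)`, and
`cntV N V _ z (R + K q) ≤ K' * C0 * (R + K q) ^ s ≤ K' * C0 * (1 + K) ^ s * R ^ s` as `1 ≤ q ≤ R`.
`mainTerm = ∑ v ∈ S, wt V C v * fsum N V (x - q v) z R` as `(wt V C).support ⊆ S` (`wt_support`).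
-/

namespace Pool.Agent.MT

open MeasureTheory Module Submodule

variable {d : ℕ}

theorem mainTerm_eq {S : Finset (Sp d)} (hS : S.Nonempty) {V : Submodule ℝ (Sp d)}
    {C : Comb d} (h : Chain S V C) (N : Sp d → ℕ) (q : ℕ) (x z : Sp d) (R : ℝ) :
    mainTerm V C N q x z R =
      ∑ v ∈ S, wt V C v * fsum N V.toAddSubgroup (x - (q : ℝ) • v) z R := by
  unfold mainTerm
  exact Finsupp.sum_of_support_subset _ (wt_support hS h) _ (fun v _ => zero_mul _)

theorem h3_chain (hA2 : DilLemma d) {S : Finset (Sp d)} (hS : S.Nonempty) {N : Sp d → ℕ}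
    {C0 : ℕ} (hN : LocB N C0) (k : ℤ) (h : ∀ᵐ x : Sp d, gfun (Finsupp.single S 1) N x = k) :
    ∀ p ∈ FDat S, H3 S N p.1 p.2 := by
  rintro ⟨V, A⟩ ⟨C, hC, hV, hA⟩
  simp only at hC hV hA ⊢
  subst hA
  obtain ⟨K, hK0, hK⟩ := averaging V C (chain_adapted hS hC)
  obtain ⟨K', hK'0, hK'⟩ := cntV_le V
  refine ⟨K * (C.support.card * (K' * C0 * (1 + K) ^ finrank ℝ V)), ?_⟩
  intro q hq1 hq x z R hR
  have hqR : (1 : ℝ) ≤ q := by exact_mod_cast hq1
  have hR1 : (1 : ℝ) ≤ R := hqR.trans hR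
  have hR0 : (0 : ℝ) < R := lt_of_lt_of_le one_pos hR1
  have hq0 : (0 : ℝ) < q := lt_of_lt_of_le one_pos hqR
  rw [← mainTerm_eq hS hC N q x z R]
  have hav := hK N C0 hN q hq1 x z R hR0
  have hrel := dilation_chain hA2 hS hN k h q hq1 hq V C hC hV x
  have hint : (∫ t : V, tent R z (x + (t : Sp d)) * (gfun (dil q C) N (x + t) : ℝ)
      ∂(Measure.addHaar : Measure V)) = 0 := by
    apply integral_eq_zero_of_ae
    filter_upwards [hrel] with t ht
    rw [ht]
    simp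
  rw [hint, zero_sub, abs_neg, abs_mul, abs_of_pos (pow_pos hq0 _)] at hav
  have hsum : ∑ Q ∈ C.support, cntV N V (x - (q : ℝ) • base Q) z (R + K * q) ≤
      C.support.card * (K' * C0 * (1 + K) ^ finrank ℝ V * R ^ finrank ℝ V) := by
    rw [← nsmul_eq_mul]
    apply Finset.sum_le_card_nsmul
    intro Q _
    have h1 : (1 : ℝ) ≤ R + K * q := by nlinarith [mul_nonneg hK0 hq0.le]
    have h2 := hK' N C0 hN (x - (q : ℝ) • base Q) z (R + K * q) h1
    have h3 : (R + K * q) ^ finrank ℝ V ≤ ((1 + K) * R) ^ finrank ℝ V := by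
      apply pow_le_pow_left₀ (by linarith)
      nlinarith [mul_le_mul_of_nonneg_left hR hK0]
    rw [mul_pow] at h3
    calc cntV N V (x - (q : ℝ) • base Q) z (R + K * q)
        ≤ K' * C0 * (R + K * q) ^ finrank ℝ V := h2
      _ ≤ K' * C0 * ((1 + K) ^ finrank ℝ V * R ^ finrank ℝ V) :=
          mul_le_mul_of_nonneg_left h3 (mul_nonneg hK'0 (Nat.cast_nonneg _))
      _ = K' * C0 * (1 + K) ^ finrank ℝ V * R ^ finrank ℝ V := by ring
  have hfac : 0 ≤ K * (q : ℝ) ^ (finrank ℝ V + 1) / R := by positivity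
  have hav2 := hav.trans (mul_le_mul_of_nonneg_left hsum hfac)
  have hqs : (0 : ℝ) < (q : ℝ) ^ finrank ℝ V := pow_pos hq0 _
  have key : (q : ℝ) ^ finrank ℝ V * (R * |mainTerm V C N q x z R|) ≤
      (q : ℝ) ^ finrank ℝ V * (K * (C.support.card * (K' * C0 * (1 + K) ^ finrank ℝ V)) * q *
        R ^ finrank ℝ V) := by
    calc (q : ℝ) ^ finrank ℝ V * (R * |mainTerm V C N q x z R|)
        = R * ((q : ℝ) ^ finrank ℝ V * |mainTerm V C N q x z R|) := by ring
      _ ≤ R * (K * (q : ℝ) ^ (finrank ℝ V + 1) / R *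
            (C.support.card * (K' * C0 * (1 + K) ^ finrank ℝ V * R ^ finrank ℝ V))) :=
          mul_le_mul_of_nonneg_left hav2 hR0.le
      _ = (q : ℝ) ^ finrank ℝ V * (K * (C.support.card * (K' * C0 * (1 + K) ^ finrank ℝ V)) * q *
            R ^ finrank ℝ V) := by
          field_simp
          ring
  exact le_of_mul_le_mul_left key hqs

end Pool.Agent.MT
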