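import Pool.Agent.H73.MT.Meas

/-!
# Module MT-G12: from the frozen statement to the multiset `N`

`E = EuclideanSpace ℝ (Fin d)`, `P = conv S`, `t : ℕ → E`, `Nat.card {i | x - t i ∈ P} = k > 0` for
a.e. `x`.  Let `S' : Finset (Sp d)` be the image of `S` under `WithLp.ofLp`
(`EuclideanSpace.volume_preserving_...`; the convex hull commutes with the linear equivalence),
`N y = Nat.card {i | ofLp (t i) = y}`.
* `S` is nonempty (otherwise the cardinality is `0 ≠ k` everywhere and the measure is not `0`);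
  `conv S` has positive volume (otherwise the countable union of the `t i + P` is a null set and for
  a.e. `x` the cardinality is `0`), so its interior is nonempty (a convex set with empty interior is
  contained in a proper affine subspace, or: `Convex.addHaar_frontier` and `P` closed).
* Local bound: let `ball p ρ ⊆ P` (`0 < ρ`).  For `y : Sp d` choose `x` in `ball (y + p) (ρ/2)` outside of the null set;
  all `i` with `‖t i - y‖ ≤ ρ / 2` satisfy `x - t i ∈ P`, and `{i | x - t i ∈ P}` has `k > 0`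
  elements (`Nat.card ≠ 0`, so it is finite).  So `∑_{z ∈ F} N z ≤ k` for every finite `F` in a ball of
  radius `ρ / 2` (in particular `{i | t i = y}` is finite for all `y`); a unit ball is covered by
  finitely many, say `m`, such balls (the number does not depend on the center): `C0 = m * k`.
* `gfun (single S' 1) N x = ∑ᶠ l, N l * ind P (x - l) = #{i | x - t i ∈ P} = k` for a.e. `x` (the
  finite set `{i | x - t i ∈ P}` is the disjoint union of the sets `{i | t i = l}`, `x - l ∈ P`).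
* Density: `P ⊆ ball 0 M`; for `K ≥ 2 M` and a.e. `x ∈ ball 0 (K / 2)` the `k ≥ 1` points `l` (with
  multiplicity) with `x - l ∈ P` are in `ball 0 K`.  Integrate over `ball 0 (K/2)`:
  `volume (ball 0 (K/2)) ≤ ∑_{‖l‖ ≤ K} N l * volume P`.  `F` = the finite set of `l` with `N l ≠ 0`,
  `‖l‖ ≤ K`; `volume (ball 0 (K/2)) = K ^ d` for the sup norm.
-/

namespace Pool.Agent.MT

open MeasureTheory Module Submodule

variable {d : ℕ}

/-- for almost every `x` the set of indices is finite -/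
private theorem mtRedIn_fin {P : Set (Sp d)} {t : ℕ → Sp d} {k : ℕ} (hk : 0 < k) {x : Sp d}
    (h : Nat.card {i : ℕ // x - t i ∈ P} = k) : {i : ℕ | x - t i ∈ P}.Finite ∧
      {i : ℕ | x - t i ∈ P}.ncard = k := by
  have h1 : Nat.card {i : ℕ // x - t i ∈ P} ≠ 0 := by omega
  have h2 : Finite {i : ℕ // x - t i ∈ P} := Nat.finite_of_card_ne_zero h1
  exact ⟨h2, by rw [← h]; rfl⟩

private theorem mtRedIn_exists {p : Sp d → Prop} (h : ∀ᵐ x : Sp d, p x) {U : Set (Sp d)}
    (hU : IsOpen U) (hne : U.Nonempty) : ∃ x ∈ U, p x := by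
  by_contra hcon
  push Not at hcon
  have h1 : volume U = 0 := measure_mono_null (fun x hx => hcon x hx) (ae_iff.1 h)
  exact (hU.measure_pos volume hne).ne' h1

private theorem mtRedIn_int {S : Finset (Sp d)} {t : ℕ → Sp d} {k : ℕ} (hk : 0 < k)
    (h : ∀ᵐ x : Sp d, Nat.card {i : ℕ // x - t i ∈ convexHull ℝ (S : Set (Sp d))} = k) :
    (interior (convexHull ℝ (S : Set (Sp d)))).Nonempty := by
  set P := convexHull ℝ (S : Set (Sp d)) with hP
  have hPc : IsCompact P := S.finite_toSet.isCompact_convexHull (𝕜 := ℝ)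
  by_contra hcon
  rw [Set.not_nonempty_iff_eq_empty] at hcon
  have h1 : volume P = 0 := by
    have h2 := (convex_convexHull ℝ (S : Set (Sp d))).addHaar_frontier volume
    rw [← hP, frontier, hPc.isClosed.closure_eq, hcon, Set.sdiff_empty] at h2
    exact h2
  have h2 : ∀ᵐ x : Sp d, ∀ i, x - t i ∉ P := by
    rw [ae_all_iff]
    intro i
    rw [ae_iff]
    simp only [not_not]
    have h3 : {x : Sp d | x - t i ∈ P} = (fun x => x + -(t i)) ⁻¹' P := by
      ext x
      simp [sub_eq_add_neg]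
    rw [h3, measure_preimage_add_right, h1]
  obtain ⟨x, hx1, hx2⟩ := (h.and h2).exists
  obtain ⟨hf, hc⟩ := mtRedIn_fin hk hx1
  have h3 : {i : ℕ | x - t i ∈ P} = ∅ := by
    ext i
    simp [hx2 i]
  rw [h3, Set.ncard_empty] at hc
  omega

/-- the multiplicity function -/
private noncomputable def mtRedIn_N (t : ℕ → Sp d) (y : Sp d) : ℕ := {i : ℕ | t i = y}.ncard

private theorem mtRedIn_fiber [DecidableEq (Sp d)] {t : ℕ → Sp d} {A : Finset ℕ} {z : Sp d}
    (h : ∀ i, t i = z → i ∈ A) : mtRedIn_N t z = (A.filter fun i => t i = z).card := by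
  unfold mtRedIn_N
  rw [← Set.ncard_coe_finset]
  congr 1
  ext i
  simp only [Finset.coe_filter, Set.mem_ofPred_eq]
  exact ⟨fun hi => ⟨h i hi, hi⟩, fun hi => hi.2⟩

private theorem mtRedIn_small {P : Set (Sp d)} {t : ℕ → Sp d} {k : ℕ} (hk : 0 < k)
    (h : ∀ᵐ x : Sp d, Nat.card {i : ℕ // x - t i ∈ P} = k) {p : Sp d} {ρ : ℝ} (hρ : 0 < ρ)
    (hp : Metric.ball p ρ ⊆ P) (y : Sp d) (F : Finset (Sp d)) (hF : ∀ z ∈ F, ‖z - y‖ ≤ ρ / 2) :
    ∑ z ∈ F, mtRedIn_N t z ≤ k := by
  classical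
  obtain ⟨x, hxU, hx⟩ := mtRedIn_exists h (U := Metric.ball (y + p) (ρ / 2)) Metric.isOpen_ball
    ⟨y + p, Metric.mem_ball_self (by linarith)⟩
  obtain ⟨hf, hc⟩ := mtRedIn_fin hk hx
  set A := hf.toFinset with hA
  have hAc : A.card = k := by
    rw [← hc, Set.ncard_eq_toFinset_card _ hf]
  have h1 : ∀ z ∈ F, ∀ i, t i = z → i ∈ A := by
    intro z hz i hi
    rw [hA, Set.Finite.mem_toFinset, Set.mem_ofPred_eq]
    apply hp
    rw [Metric.mem_ball, dist_eq_norm] at hxU ⊢
    have h2 := hF z hz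
    have h3 : x - t i - p = (x - (y + p)) - (z - y) := by rw [hi]; abel
    rw [h3]
    exact lt_of_le_of_lt (norm_sub_le _ _) (by linarith)
  calc ∑ z ∈ F, mtRedIn_N t z = ∑ z ∈ F, ((A.filter fun i => t i ∈ F).filter fun i => t i = z).card := by
        refine Finset.sum_congr rfl fun z hz => ?_
        rw [mtRedIn_fiber (A := A.filter fun i => t i ∈ F)]
        intro i hi
        rw [Finset.mem_filter]
        exact ⟨h1 z hz i hi, by rw [hi]; exact hz⟩
    _ = (A.filter fun i => t i ∈ F).card := by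
        rw [Finset.card_eq_sum_card_fiberwise (f := t) (t := F)]
        intro i hi
        exact (Finset.mem_filter.1 (Finset.mem_coe.1 hi)).2
    _ ≤ A.card := Finset.card_filter_le _ _
    _ = k := hAc

private theorem mtRedIn_locB {P : Set (Sp d)} {t : ℕ → Sp d} {k : ℕ} (hk : 0 < k)
    (h : ∀ᵐ x : Sp d, Nat.card {i : ℕ // x - t i ∈ P} = k) {p : Sp d} {ρ : ℝ} (hρ : 0 < ρ)
    (hp : Metric.ball p ρ ⊆ P) : ∃ C0 : ℕ, LocB (mtRedIn_N t) C0 := by
  classical
  obtain ⟨T, _, hTf, hT⟩ := (isCompact_closedBall (0 : Sp d) 1).finite_cover_balls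
    (e := ρ / 2) (by linarith)
  refine ⟨hTf.toFinset.card * k, fun y F hF => ?_⟩
  have h1 : ∀ z ∈ F, mtRedIn_N t z ≤
      ∑ c ∈ hTf.toFinset, if ‖z - (y + c)‖ ≤ ρ / 2 then mtRedIn_N t z else 0 := by
    intro z hz
    have h2 : z - y ∈ Metric.closedBall (0 : Sp d) 1 := by
      rw [Metric.mem_closedBall, dist_zero_right]
      exact hF z hz
    have h3 := hT h2
    rw [Set.mem_iUnion₂] at h3
    obtain ⟨c, hc, hc'⟩ := h3
    rw [Metric.mem_ball, dist_eq_norm] at hc'
    have h4 : ‖z - (y + c)‖ ≤ ρ / 2 := by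
      have h5 : z - (y + c) = z - y - c := by abel
      rw [h5]
      exact hc'.le
    have h6 := Finset.single_le_sum (f := fun c => if ‖z - (y + c)‖ ≤ ρ / 2 then
      mtRedIn_N t z else 0) (s := hTf.toFinset) (fun _ _ => Nat.zero_le _)
      ((Set.Finite.mem_toFinset hTf).2 hc)
    simp only [if_pos h4] at h6
    exact h6
  refine (Finset.sum_le_sum h1).trans ?_
  rw [Finset.sum_comm, ← smul_eq_mul]
  refine Finset.sum_le_card_nsmul _ _ _ fun c _ => ?_
  rw [← Finset.sum_filter]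
  exact mtRedIn_small hk h hρ hp (y + c) _ fun z hz => (Finset.mem_filter.1 hz).2

private theorem mtRedIn_gfun {S : Finset (Sp d)} {t : ℕ → Sp d} {k : ℕ} (hk : 0 < k) {x : Sp d}
    (h : Nat.card {i : ℕ // x - t i ∈ convexHull ℝ (S : Set (Sp d))} = k) :
    gfun (Finsupp.single S 1) (mtRedIn_N t) x = k := by
  classical
  obtain ⟨hf, hc⟩ := mtRedIn_fin hk h
  set A := hf.toFinset with hA
  have hAc : A.card = k := by
    rw [← hc, Set.ncard_eq_toFinset_card _ hf]
  unfold gfun
  have h1 : ∀ l : Sp d, (Finsupp.single S (1 : ℤ)).sum (fun Q c =>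
      c * ind (convexHull ℝ (Q : Set (Sp d))) (x - l)) =
      ind (convexHull ℝ (S : Set (Sp d))) (x - l) := by
    intro l
    rw [Finsupp.sum_single_index (by simp), one_mul]
  simp_rw [h1]
  rw [finsum_eq_sum_of_support_subset (s := A.image t)]
  · have h2 : ∀ l ∈ A.image t, (mtRedIn_N t l : ℤ) * ind (convexHull ℝ (S : Set (Sp d))) (x - l) =
        ((A.filter fun i => t i = l).card : ℤ) := by
      intro l hl
      obtain ⟨i, hi, rfl⟩ := Finset.mem_image.1 hl
      rw [hA, Set.Finite.mem_toFinset, Set.mem_ofPred_eq] at hi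
      rw [ind, if_pos hi, mul_one, mtRedIn_fiber (A := A)]
      intro j hj
      rw [hA, Set.Finite.mem_toFinset, Set.mem_ofPred_eq, hj]
      exact hi
    rw [Finset.sum_congr rfl h2, ← Nat.cast_sum, ← Finset.card_eq_sum_card_image, hAc]
  · intro l hl
    rw [Function.mem_support] at hl
    have h2 : x - l ∈ convexHull ℝ (S : Set (Sp d)) := by
      by_contra hcon
      apply hl
      rw [ind, if_neg hcon, mul_zero]
    have h3 : (mtRedIn_N t l) ≠ 0 := by
      intro h0
      apply hl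
      rw [h0]
      simp
    have h4 : {i : ℕ | t i = l}.Nonempty := by
      by_contra hcon
      rw [Set.not_nonempty_iff_eq_empty] at hcon
      apply h3
      unfold mtRedIn_N
      rw [hcon, Set.ncard_empty]
    obtain ⟨i, hi⟩ := h4
    rw [Set.mem_ofPred_eq] at hi
    rw [Finset.mem_coe, Finset.mem_image]
    refine ⟨i, ?_, hi⟩
    rw [hA, Set.Finite.mem_toFinset, Set.mem_ofPred_eq, hi]
    exact h2

private theorem mtRedIn_dens {S : Finset (Sp d)} {t : ℕ → Sp d} {k : ℕ} (hk : 0 < k)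
    (h : ∀ᵐ x : Sp d, Nat.card {i : ℕ // x - t i ∈ convexHull ℝ (S : Set (Sp d))} = k)
    {C0 : ℕ} (hN : LocB (mtRedIn_N t) C0)
    (hint : (interior (convexHull ℝ (S : Set (Sp d)))).Nonempty) : Dens (mtRedIn_N t) := by
  classical
  set P := convexHull ℝ (S : Set (Sp d)) with hP
  have hPc : IsCompact P := S.finite_toSet.isCompact_convexHull (𝕜 := ℝ)
  obtain ⟨M, hM⟩ := hPc.isBounded.exists_norm_le
  have hvpos : 0 < volume.real P := by
    rw [measureReal_def]
    refine ENNReal.toReal_pos ?_ hPc.measure_lt_top.ne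
    exact ((isOpen_interior.measure_pos volume hint).trans_le
      (measure_mono interior_subset)).ne'
  refine ⟨(volume.real P)⁻¹, by positivity, max (2 * M) 1, fun K hK => ?_⟩
  have hK1 : 2 * M ≤ K := (le_max_left _ _).trans hK
  have hK2 : 1 ≤ K := (le_max_right _ _).trans hK
  have hfin := hN.finite 0 K
  refine ⟨hfin.toFinset, fun z hz => ?_, ?_⟩
  · have h1 := (Set.Finite.mem_toFinset hfin).1 hz
    simpa using h1.2
  have hcov : (Metric.closedBall (0 : Sp d) (K / 2) : Set (Sp d)) ≤ᵐ[volume]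
      (⋃ l ∈ hfin.toFinset, {x : Sp d | x - l ∈ P} : Set (Sp d)) := by
    filter_upwards [h] with x hx hxb
    obtain ⟨hf, hc⟩ := mtRedIn_fin hk hx
    have h2 : {i : ℕ | x - t i ∈ P}.Nonempty := by
      by_contra hcon
      rw [Set.not_nonempty_iff_eq_empty] at hcon
      rw [hcon, Set.ncard_empty] at hc
      omega
    obtain ⟨i, hi⟩ := h2
    rw [Set.mem_ofPred_eq] at hi
    have hxn : ‖x‖ ≤ K / 2 := by
      have h3 : x ∈ Metric.closedBall (0 : Sp d) (K / 2) := hxb
      rwa [Metric.mem_closedBall, dist_zero_right] at h3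
    have h4 := hM _ hi
    have h5 : ‖t i‖ ≤ K := by
      have h6 : t i = x - (x - t i) := by abel
      rw [h6]
      exact (norm_sub_le _ _).trans (by linarith)
    have h7 : mtRedIn_N t (t i) ≠ 0 := by
      unfold mtRedIn_N
      have h8 : {j : ℕ | t j = t i}.Finite := by
        refine hf.subset fun j hj => ?_
        rw [Set.mem_ofPred_eq] at hj ⊢
        rw [hj]
        exact hi
      have h9 : 0 < {j : ℕ | t j = t i}.ncard := (Set.ncard_pos h8).2 ⟨i, rfl⟩
      omega
    change x ∈ (⋃ l ∈ hfin.toFinset, {x : Sp d | x - l ∈ P} : Set (Sp d))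
    rw [Set.mem_iUnion₂]
    refine ⟨t i, ?_, hi⟩
    rw [Set.Finite.mem_toFinset]
    exact ⟨h7, by simpa using h5⟩
  have h1 : volume (Metric.closedBall (0 : Sp d) (K / 2)) ≤
      ∑ l ∈ hfin.toFinset, volume {x : Sp d | x - l ∈ P} :=
    (measure_mono_ae hcov).trans (measure_biUnion_finset_le _ _)
  have h2 : ∀ l : Sp d, volume {x : Sp d | x - l ∈ P} = volume P := by
    intro l
    have h3 : {x : Sp d | x - l ∈ P} = (fun x => x + -l) ⁻¹' P := by
      ext x
      simp [sub_eq_add_neg]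
    rw [h3, measure_preimage_add_right]
  simp only [h2] at h1
  rw [Finset.sum_const, Real.volume_pi_closedBall _ (by linarith : (0:ℝ) ≤ K / 2),
    nsmul_eq_mul] at h1
  have h3 : K ^ d ≤ hfin.toFinset.card * volume.real P := by
    have h4 : (2 * (K / 2)) ^ Fintype.card (Fin d) = K ^ d := by
      rw [Fintype.card_fin]
      congr 1
      ring
    rw [h4] at h1
    have h5 := ENNReal.toReal_mono (ENNReal.mul_ne_top (ENNReal.natCast_ne_top _)
      hPc.measure_lt_top.ne) h1
    rw [ENNReal.toReal_ofReal (by positivity), ENNReal.toReal_mul, ENNReal.toReal_natCast] at h5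
    exact h5
  have h4 : (hfin.toFinset.card : ℝ) ≤ ∑ z ∈ hfin.toFinset, (mtRedIn_N t z : ℝ) := by
    rw [Finset.card_eq_sum_ones, Nat.cast_sum]
    refine Finset.sum_le_sum fun z hz => ?_
    have h5 := ((Set.Finite.mem_toFinset hfin).1 hz).1
    exact_mod_cast Nat.one_le_iff_ne_zero.2 h5
  rw [inv_mul_le_iff₀ hvpos]
  refine h3.trans ?_
  rw [mul_comm]
  exact mul_le_mul_of_nonneg_left h4 hvpos.le

theorem red_in (S : Finset (EuclideanSpace ℝ (Fin d))) (k : ℕ) (hk : 0 < k)
    (t : ℕ → EuclideanSpace ℝ (Fin d))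
    (h : ∀ᵐ x : EuclideanSpace ℝ (Fin d) ∂(volume : Measure (EuclideanSpace ℝ (Fin d))),
      Nat.card {i : ℕ // x - t i ∈ convexHull ℝ (S : Set (EuclideanSpace ℝ (Fin d)))} = k) :
    ∃ (S' : Finset (Sp d)) (N : Sp d → ℕ) (C0 : ℕ),
      (S' : Set (Sp d)) = WithLp.ofLp '' (S : Set (EuclideanSpace ℝ (Fin d))) ∧
      S'.Nonempty ∧ (interior (convexHull ℝ (S' : Set (Sp d)))).Nonempty ∧
      LocB N C0 ∧ Dens N ∧ (∀ᵐ x : Sp d, gfun (Finsupp.single S' 1) N x = k) := by
  classical
  set S' : Finset (Sp d) := S.image WithLp.ofLp with hS'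
  have hS'c : (S' : Set (Sp d)) = WithLp.ofLp '' (S : Set (EuclideanSpace ℝ (Fin d))) := by
    rw [hS', Finset.coe_image]
  have hconv : ∀ x : EuclideanSpace ℝ (Fin d),
      WithLp.ofLp x ∈ convexHull ℝ (S' : Set (Sp d)) ↔
        x ∈ convexHull ℝ (S : Set (EuclideanSpace ℝ (Fin d))) := by
    intro x
    rw [hS'c]
    have h1 := LinearMap.image_convexHull (𝕜 := ℝ)
      (WithLp.linearEquiv 2 ℝ (Fin d → ℝ)).toLinearMap (S : Set (EuclideanSpace ℝ (Fin d)))
    have h2 : (WithLp.ofLp '' (S : Set (EuclideanSpace ℝ (Fin d))) : Set (Sp d)) =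
      (WithLp.linearEquiv 2 ℝ (Fin d → ℝ)).toLinearMap '' (S : Set (EuclideanSpace ℝ (Fin d))) := rfl
    rw [h2, ← h1]
    constructor
    · rintro ⟨y, hy, hyx⟩
      have h3 : y = x := WithLp.ofLp_injective 2 hyx
      rwa [← h3]
    · intro hx
      exact ⟨x, hx, rfl⟩
  set t' : ℕ → Sp d := fun i => WithLp.ofLp (t i) with ht'
  have h' : ∀ᵐ x : Sp d, Nat.card {i : ℕ // x - t' i ∈ convexHull ℝ (S' : Set (Sp d))} = k := by
    have h1 := (PiLp.volume_preserving_toLp (Fin d)).quasiMeasurePreserving.ae h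
    filter_upwards [h1] with x hx
    rw [← hx]
    congr 1
    have h2 : ∀ i, (x - t' i ∈ convexHull ℝ (S' : Set (Sp d))) =
        (WithLp.toLp 2 x - t i ∈ convexHull ℝ (S : Set (EuclideanSpace ℝ (Fin d)))) := by
      intro i
      rw [← hconv]
      rfl
    simp only [h2]
  have hint := mtRedIn_int hk h'
  obtain ⟨p, hp⟩ := hint
  obtain ⟨ρ, hρ, hρP⟩ := Metric.isOpen_iff.1 isOpen_interior p hp
  have hρP' : Metric.ball p ρ ⊆ convexHull ℝ (S' : Set (Sp d)) := hρP.trans interior_subset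
  obtain ⟨C0, hC0⟩ := mtRedIn_locB hk h' hρ hρP'
  refine ⟨S', mtRedIn_N t', C0, hS'c, ?_, ⟨p, hp⟩, hC0, mtRedIn_dens hk h' hC0 ⟨p, hp⟩, ?_⟩
  · by_contra hcon
    rw [Finset.not_nonempty_iff_eq_empty] at hcon
    have h1 : p ∈ convexHull ℝ (S' : Set (Sp d)) := interior_subset hp
    rw [hcon] at h1
    simp at h1
  · filter_upwards [h'] with x hx
    exact mtRedIn_gfun hk hx

end Pool.Agent.MT
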