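import Pool.Agent.H73.MT.Meas

/-!
# Module MT-G13: from the group `Γ` to the conclusion of the frozen statement

`Γ : AddSubgroup (Sp d)` locally bounded (`LocB (indN Γ) C1`, so discrete), and
`gfun (single S' 1) (indN Γ) x = #{γ ∈ Γ | x - γ ∈ conv S'} = κ` for a.e. `x`.
* `κ ≥ 1`: for `x` in the interior of `conv S'` (nonempty, open, so of positive measure) the point
  `γ = 0` contributes, all contributions are `≥ 0`; choose such an `x` outside of the null set.
* `Γ` spans: if `span ℝ Γ ≠ ⊤` choose a linear functional `φ ≠ 0` vanishing on `Γ`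
  (`Submodule.exists_le_ker_of_lt_top`); `φ` is bounded by some `M` on the bounded set `conv S'`, so
  for `φ x > M` (an open nonempty set) no `γ` contributes and `gfun = 0 ≠ κ`: contradiction.
* `L` = the image of `Γ` in `EuclideanSpace ℝ (Fin d)` as `Submodule ℤ` (`AddSubgroup.toIntSubmodule`,
  and `WithLp.toLp` as a linear equivalence).  Discrete: from local boundedness only finitely many
  elements of `Γ` are in a unit ball, so `{0}` is open in `Γ`
  (`AddSubgroup` discreteness: `discreteTopology_of_isOpen_singleton_zero`).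
  `IsZLattice ℝ L`: the real span is `⊤`.
* `Nat.card {v : L // x - v ∈ P} = m := κ.toNat` for a.e. `x`: the set is finite (`P` bounded, `Γ`
  locally finite) and `gfun` counts it; transport of a.e. statements by
  `EuclideanSpace.volume_preserving_...` (`MeasurableEquiv`).
-/

namespace Pool.Agent.MT

open MeasureTheory Module Submodule

variable {d : ℕ}

/-- the points of `Γ` whose translate of `conv S'` contains `x` -/
private def mtRedOut_A (S' : Finset (Sp d)) (Γ : AddSubgroup (Sp d)) (x : Sp d) : Set (Sp d) :=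
  {l | l ∈ Γ ∧ x - l ∈ convexHull ℝ (S' : Set (Sp d))}

private theorem mtRedOut_bdd (S' : Finset (Sp d)) :
    ∃ K : ℝ, ∀ p ∈ convexHull ℝ (S' : Set (Sp d)), ‖p‖ ≤ K :=
  (S'.finite_toSet.isCompact_convexHull (𝕜 := ℝ)).isBounded.exists_norm_le

private theorem mtRedOut_fin (S' : Finset (Sp d)) (Γ : AddSubgroup (Sp d)) (C1 : ℕ)
    (hΓ : LocB (indN Γ) C1) (x : Sp d) : (mtRedOut_A S' Γ x).Finite := by
  obtain ⟨K, hK⟩ := mtRedOut_bdd S'
  refine (hΓ.finite x K).subset ?_
  rintro l ⟨h1, h2⟩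
  refine ⟨by simp [indN, h1], ?_⟩
  rw [norm_sub_rev]
  exact hK _ h2

private theorem mtRedOut_gfun (S' : Finset (Sp d)) (Γ : AddSubgroup (Sp d)) (C1 : ℕ)
    (hΓ : LocB (indN Γ) C1) (x : Sp d) :
    gfun (Finsupp.single S' 1) (indN Γ) x = ((mtRedOut_A S' Γ x).ncard : ℤ) := by
  classical
  have hf := mtRedOut_fin S' Γ C1 hΓ x
  have e : ∀ l : Sp d, (indN Γ l : ℤ) *
      (Finsupp.single S' (1 : ℤ)).sum (fun Q c => c * ind (convexHull ℝ (Q : Set (Sp d))) (x - l)) =
      (mtRedOut_A S' Γ x).indicator (fun _ => (1 : ℤ)) l := by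
    intro l
    rw [Finsupp.sum_single_index (by simp)]
    unfold indN ind
    by_cases h1 : l ∈ Γ
    · by_cases h2 : x - l ∈ convexHull ℝ (S' : Set (Sp d))
      · rw [Set.indicator_of_mem (show l ∈ mtRedOut_A S' Γ x from ⟨h1, h2⟩)]
        simp [h1, h2]
      · rw [Set.indicator_of_notMem (fun h : l ∈ mtRedOut_A S' Γ x => h2 h.2)]
        simp [h2]
    · rw [Set.indicator_of_notMem (fun h : l ∈ mtRedOut_A S' Γ x => h1 h.1)]
      simp [h1]
  unfold gfun
  rw [finsum_congr e, finsum_eq_sum_of_support_subset (s := hf.toFinset) _ ?_]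
  · rw [Set.ncard_eq_toFinset_card _ hf, Finset.sum_congr rfl (g := fun _ => (1 : ℤ))]
    · simp
    · intro l hl
      rw [Set.indicator_of_mem (hf.mem_toFinset.1 hl)]
  · intro l hl
    rw [hf.coe_toFinset]
    by_contra hc
    exact hl (Set.indicator_of_notMem hc _)

theorem red_out (S : Finset (EuclideanSpace ℝ (Fin d))) (S' : Finset (Sp d))
    (hS' : (S' : Set (Sp d)) = WithLp.ofLp '' (S : Set (EuclideanSpace ℝ (Fin d))))
    (hint : (interior (convexHull ℝ (S' : Set (Sp d)))).Nonempty)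
    (Γ : AddSubgroup (Sp d)) (C1 : ℕ) (hΓ : LocB (indN Γ) C1) (κ : ℤ)
    (h : ∀ᵐ x : Sp d, gfun (Finsupp.single S' 1) (indN Γ) x = κ) :
    ∃ m : ℕ, 0 < m ∧
      ∃ L : Submodule ℤ (EuclideanSpace ℝ (Fin d)),
        ∃ (_ : DiscreteTopology L),
          IsZLattice ℝ L ∧
          ∀ᵐ x : EuclideanSpace ℝ (Fin d) ∂(volume : Measure (EuclideanSpace ℝ (Fin d))),
            Nat.card {v : L // x - (v : EuclideanSpace ℝ (Fin d)) ∈
              convexHull ℝ (S : Set (EuclideanSpace ℝ (Fin d)))} = m := by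
  classical
  have hdense : Dense {x : Sp d | gfun (Finsupp.single S' 1) (indN Γ) x = κ} :=
    Measure.dense_of_ae h
  -- κ is positive
  have hκ : 0 < κ := by
    obtain ⟨x, hx1, hx2⟩ := hdense.exists_mem_open isOpen_interior hint
    have hx3 : gfun (Finsupp.single S' 1) (indN Γ) x = κ := hx1
    rw [mtRedOut_gfun S' Γ C1 hΓ x] at hx3
    rw [← hx3]
    have hmem : (0 : Sp d) ∈ mtRedOut_A S' Γ x := by
      refine ⟨Γ.zero_mem, ?_⟩
      rw [sub_zero]
      exact interior_subset hx2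
    have := (Set.ncard_pos (mtRedOut_fin S' Γ C1 hΓ x)).2 ⟨0, hmem⟩
    exact_mod_cast this
  -- the span
  have hspan : span ℝ (Γ : Set (Sp d)) = ⊤ := by
    by_contra hne
    obtain ⟨φ, hφ0, hφ⟩ := Submodule.exists_le_ker_of_lt_top _ (lt_top_iff_ne_top.2 hne)
    obtain ⟨K, hK⟩ := mtRedOut_bdd S'
    have hφc : Continuous φ := LinearMap.continuous_of_finiteDimensional φ
    obtain ⟨M, hM⟩ : ∃ M : ℝ, ∀ p ∈ convexHull ℝ (S' : Set (Sp d)), φ p ≤ M := by
      have hb := ((S'.finite_toSet.isCompact_convexHull (𝕜 := ℝ)).image hφc).bddAbove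
      obtain ⟨M, hM⟩ := hb
      exact ⟨M, fun p hp => hM ⟨p, hp, rfl⟩⟩
    have hopen : IsOpen {x : Sp d | M < φ x} := isOpen_lt continuous_const hφc
    have hne' : {x : Sp d | M < φ x}.Nonempty := by
      obtain ⟨v, hv⟩ : ∃ v, φ v ≠ 0 := by
        by_contra hc
        push Not at hc
        exact hφ0 (LinearMap.ext hc)
      refine ⟨((M + 1) / φ v) • v, ?_⟩
      show M < φ (((M + 1) / φ v) • v)
      rw [map_smul, smul_eq_mul, div_mul_cancel₀ _ hv]
      linarith
    obtain ⟨x, hx1, hx2⟩ := hdense.exists_mem_open hopen hne'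
    have hx3 : gfun (Finsupp.single S' 1) (indN Γ) x = κ := hx1
    rw [mtRedOut_gfun S' Γ C1 hΓ x] at hx3
    have hpos : 0 < (mtRedOut_A S' Γ x).ncard := by
      have : (0 : ℤ) < ((mtRedOut_A S' Γ x).ncard : ℤ) := by rw [hx3]; exact hκ
      exact_mod_cast this
    obtain ⟨l, hl1, hl2⟩ := (Set.ncard_pos (mtRedOut_fin S' Γ C1 hΓ x)).1 hpos
    have h1 : φ l = 0 := hφ (subset_span hl1)
    have h2 := hM _ hl2
    rw [map_sub, h1, sub_zero] at h2
    have h3 : M < φ x := hx2
    linarith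
  -- the lattice
  set e : EuclideanSpace ℝ (Fin d) ≃ₗ[ℝ] Sp d := WithLp.linearEquiv 2 ℝ (Fin d → ℝ) with he
  have heof : ∀ x, e x = WithLp.ofLp x := fun x => rfl
  set L : Submodule ℤ (EuclideanSpace ℝ (Fin d)) :=
    AddSubgroup.toIntSubmodule (Γ.comap (e : EuclideanSpace ℝ (Fin d) →+ Sp d)) with hL
  have hLmem : ∀ v, v ∈ L ↔ e v ∈ Γ := fun v => Iff.rfl
  have hdisc : DiscreteTopology L := by
    apply discreteTopology_of_isOpen_singleton_zero
    have hF : {v : EuclideanSpace ℝ (Fin d) | e v ∈ Γ ∧ ‖e v‖ ≤ 1}.Finite := by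
      have h1 := (hΓ.finite 0 1).preimage (e.injective.injOn (s := e ⁻¹' {l | indN Γ l ≠ 0 ∧ ‖l - 0‖ ≤ 1}))
      refine h1.subset ?_
      rintro v ⟨hv1, hv2⟩
      refine ⟨by simp [indN, hv1], ?_⟩
      rwa [sub_zero]
    have hec : Continuous e := LinearMap.continuous_of_finiteDimensional (e : EuclideanSpace ℝ (Fin d) →ₗ[ℝ] Sp d)
    have hU : IsOpen ({v : EuclideanSpace ℝ (Fin d) | ‖e v‖ < 1} ∩
        ({v : EuclideanSpace ℝ (Fin d) | e v ∈ Γ ∧ ‖e v‖ ≤ 1} \ {0})ᶜ) :=
      (isOpen_lt hec.norm continuous_const).inter (hF.subset Set.sdiff_subset).isClosed.isOpen_compl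
    have h2 : ({0} : Set L) = (fun v : L => (v : EuclideanSpace ℝ (Fin d))) ⁻¹'
        ({v : EuclideanSpace ℝ (Fin d) | ‖e v‖ < 1} ∩
        ({v : EuclideanSpace ℝ (Fin d) | e v ∈ Γ ∧ ‖e v‖ ≤ 1} \ {0})ᶜ) := by
      ext v
      constructor
      · intro hv
        rw [Set.mem_singleton_iff] at hv
        subst hv
        refine ⟨?_, ?_⟩
        · show ‖e (0 : EuclideanSpace ℝ (Fin d))‖ < 1
          rw [map_zero, norm_zero]
          exact one_pos
        · intro hc
          exact hc.2 rfl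
      · rintro ⟨h3, h4⟩
        rw [Set.mem_singleton_iff]
        by_contra hc
        apply h4
        refine ⟨⟨(hLmem _).1 v.2, (le_of_lt h3)⟩, ?_⟩
        intro h5
        exact hc (Subtype.ext h5)
    rw [h2]
    exact hU.preimage continuous_subtype_val
  refine ⟨κ.toNat, by omega, L, hdisc, ⟨?_⟩, ?_⟩
  · have h1 : (L : Set (EuclideanSpace ℝ (Fin d))) = e.symm '' (Γ : Set (Sp d)) := by
      ext v
      constructor
      · intro hv
        exact ⟨e v, hv, e.symm_apply_apply v⟩
      · rintro ⟨w, hw, rfl⟩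
        show e (e.symm w) ∈ Γ
        rw [e.apply_symm_apply]
        exact hw
    rw [h1, ← LinearEquiv.coe_coe, ← Submodule.map_span, hspan, Submodule.map_top, LinearEquiv.range]
  · have hae : ∀ᵐ x : EuclideanSpace ℝ (Fin d), gfun (Finsupp.single S' 1) (indN Γ) (e x) = κ :=
      (PiLp.volume_preserving_ofLp (Fin d)).quasiMeasurePreserving.ae h
    filter_upwards [hae] with x hx
    rw [mtRedOut_gfun S' Γ C1 hΓ (e x)] at hx
    have hconv : ∀ y, y ∈ convexHull ℝ (S : Set (EuclideanSpace ℝ (Fin d))) ↔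
        e y ∈ convexHull ℝ (S' : Set (Sp d)) := by
      intro y
      have h1 : (S' : Set (Sp d)) = (e : EuclideanSpace ℝ (Fin d) →ₗ[ℝ] Sp d) '' (S : Set _) := hS'
      rw [h1, ← LinearMap.image_convexHull]
      constructor
      · intro hy
        exact ⟨y, hy, rfl⟩
      · rintro ⟨z, hz, hzy⟩
        have : z = y := e.injective hzy
        rwa [← this]
    have hcard : Nat.card {v : L // x - (v : EuclideanSpace ℝ (Fin d)) ∈
        convexHull ℝ (S : Set (EuclideanSpace ℝ (Fin d)))} = (mtRedOut_A S' Γ (e x)).ncard := by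
      rw [← Nat.card_coe_set_eq]
      refine Nat.card_congr ⟨fun v => ⟨e (v.1 : EuclideanSpace ℝ (Fin d)), ?_⟩,
        fun l => ⟨⟨e.symm l.1, ?_⟩, ?_⟩, ?_, ?_⟩
      · refine ⟨(hLmem _).1 v.1.2, ?_⟩
        rw [← map_sub]
        exact (hconv _).1 v.2
      · rw [hLmem, e.apply_symm_apply]
        exact l.2.1
      · rw [hconv, map_sub]
        simp only [e.apply_symm_apply]
        exact l.2.2
      · intro v
        apply Subtype.ext
        apply Subtype.ext
        exact e.symm_apply_apply _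
      · intro l
        apply Subtype.ext
        exact e.apply_symm_apply _
    rw [hcard]
    omega

end Pool.Agent.MT
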