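import Pool.Agent.H73.MT.Star
import Pool.Agent.H73.MT.HThree
import Pool.Agent.H73.MT.RedIn
import Pool.Agent.H73.MT.RedOut

/-!
# Project MT: assembly
-/

namespace Pool.Agent.MT

open MeasureTheory Module Submodule Pool.Agent.H73.MT

/-- the structural part (helper75) -/
def Str4 (d : ℕ) : Prop :=
  ∀ (S : Finset (Sp d)) (N : Sp d → ℕ) (C0 : ℕ), LocB N C0 → Dens N →
    ∀ FD : Set (Submodule ℝ (Sp d) × (Sp d → ℝ)), (∀ p ∈ FD, H3 S N p.1 p.2) →
      ∃ (VV : Set (Submodule ℝ (Sp d))) (EE : Submodule ℝ (Sp d))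
        (Y : Submodule ℝ (Sp d) → Submodule ℚ (Sp d)), Struc S FD VV EE Y

/-- OneStep and the compatible rational form (helper39, helper46) -/
def CompEx (d : ℕ) : Prop :=
  ∀ (S : Finset (Sp d)) (FD : Set (Submodule ℝ (Sp d) × (Sp d → ℝ)))
    (VV : Set (Submodule ℝ (Sp d))) (EE : Submodule ℝ (Sp d))
    (Y : Submodule ℝ (Sp d) → Submodule ℚ (Sp d)), Struc S FD VV EE Y →
      ∃ LL : Submodule ℚ (Sp d), Compat VV EE Y LL

theorem mt_final {d : ℕ} (hA2 : DilLemma d) (hstr : Str4 d) (hcomp : CompEx d)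
    (S : Finset (EuclideanSpace ℝ (Fin d))) (k : ℕ) (hk : 0 < k)
    (t : ℕ → EuclideanSpace ℝ (Fin d))
    (h : ∀ᵐ x : EuclideanSpace ℝ (Fin d) ∂(volume : Measure (EuclideanSpace ℝ (Fin d))),
      Nat.card {i : ℕ // x - t i ∈ convexHull ℝ (S : Set (EuclideanSpace ℝ (Fin d)))} = k) :
    ∃ m : ℕ, 0 < m ∧
      ∃ L : Submodule ℤ (EuclideanSpace ℝ (Fin d)),
        ∃ (_ : DiscreteTopology L),
          IsZLattice ℝ L ∧
          ∀ᵐ x : EuclideanSpace ℝ (Fin d) ∂(volume : Measure (EuclideanSpace ℝ (Fin d))),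
            Nat.card {v : L // x - (v : EuclideanSpace ℝ (Fin d)) ∈
              convexHull ℝ (S : Set (EuclideanSpace ℝ (Fin d)))} = m := by
  obtain ⟨S', N, C0, hS', hne, hint, hN, hD, hk'⟩ := red_in S k hk t h
  have hH3 := h3_chain hA2 hne hN (k : ℤ) hk'
  obtain ⟨VV, EE, Y, st⟩ := hstr S' N C0 hN hD (FDat S') hH3
  obtain ⟨LL, hc⟩ := hcomp S' _ VV EE Y st
  obtain ⟨Γ, C1, hΓ, κ, hκ⟩ := mt_end st subset_rfl hne hc
  exact red_out S S' hS' hint Γ C1 hΓ κ hκ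

end Pool.Agent.MT
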