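import Pool.Agent.H73.MT.Basics

/-!
# Module MT-G11: only flats carry weight

If `wt V C ≠ 0` there is `Q ∈ supp C` with `volV V Q ≠ 0`.  `conv Q ⊆ base Q + span (Q - base Q)`, so
`{t ∈ V : base Q + t ∈ conv Q}` is contained in `span (Q - base Q) ⊆ V`; a proper subspace of `V` has
Haar measure `0` (`Measure.addHaar_submodule`), so `V = span (Q - base Q)`, and `Q ⊆ S`.
-/

namespace Pool.Agent.MT

open MeasureTheory Module Submodule

variable {d : ℕ}

/-- the convex hull of `Q` lies in the coset of the span of the differences -/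
theorem mtFlat_hull {Q : Finset (Sp d)} {b : Sp d} {W : Submodule ℝ (Sp d)}
    (hW : ∀ p ∈ Q, p - b ∈ W) {y : Sp d} (hy : y ∈ convexHull ℝ (Q : Set (Sp d))) : y - b ∈ W := by
  have hconv : Convex ℝ {y : Sp d | y - b ∈ W} := by
    intro y1 h1 y2 h2 s t _ _ hst
    have h3 : s • y1 + t • y2 - b = s • (y1 - b) + t • (y2 - b) := by
      have : b = (s + t) • b := by rw [hst, one_smul]
      conv_lhs => rw [this]
      rw [add_smul, smul_sub, smul_sub]
      abel
    change s • y1 + t • y2 - b ∈ W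
    rw [h3]
    exact W.add_mem (W.smul_mem _ h1) (W.smul_mem _ h2)
  have hsub : (Q : Set (Sp d)) ⊆ {y : Sp d | y - b ∈ W} := fun p hp => hW p hp
  exact convexHull_min hsub hconv hy

/-- if `volV V Q ≠ 0` then `V` is spanned by the differences -/
theorem mtFlat_span {Q : Finset (Sp d)} {V : Submodule ℝ (Sp d)}
    (hQV : ∀ p ∈ Q, p - base Q ∈ V) (hvol : volV V Q ≠ 0) :
    V = span ℝ ((fun p => p - base Q) '' (Q : Set (Sp d))) := by
  set W : Submodule ℝ (Sp d) := span ℝ ((fun p => p - base Q) '' (Q : Set (Sp d))) with hWdef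
  have hWV : W ≤ V := by
    rw [hWdef, span_le]
    rintro _ ⟨p, hp, rfl⟩
    exact hQV p hp
  refine le_antisymm ?_ hWV
  by_contra hlt
  have hne : (W.comap V.subtype) ≠ ⊤ := by
    intro htop
    apply hlt
    intro v hv
    have h1 : (⟨v, hv⟩ : V) ∈ W.comap V.subtype := by rw [htop]; exact mem_top
    exact h1
  have hzero : (Measure.addHaar : Measure V) ((W.comap V.subtype : Submodule ℝ V) : Set V) = 0 :=
    Measure.addHaar_submodule _ _ hne
  apply hvol
  have hsub : {t : V | base Q + (t : Sp d) ∈ convexHull ℝ (Q : Set (Sp d))}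
      ⊆ ((W.comap V.subtype : Submodule ℝ V) : Set V) := by
    intro t ht
    have h1 : base Q + (t : Sp d) - base Q ∈ W := by
      refine mtFlat_hull (fun p hp => ?_) ht
      rw [hWdef]
      exact subset_span ⟨p, hp, rfl⟩
    rw [add_sub_cancel_left] at h1
    exact h1
  have h0 : (Measure.addHaar : Measure V) {t : V | base Q + (t : Sp d) ∈ convexHull ℝ (Q : Set (Sp d))} = 0 :=
    measure_mono_null hsub hzero
  unfold volV
  rw [Measure.real, h0, ENNReal.toReal_zero]

theorem wt_flat {S : Finset (Sp d)} (hS : S.Nonempty) {V : Submodule ℝ (Sp d)}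
    {C : Comb d} (h : Chain S V C) (hw : wt V C ≠ 0) :
    ∃ D3 ⊆ dif S, V = span ℝ D3 := by
  have hQ : ∃ Q ∈ C.support, volV V Q ≠ 0 := by
    by_contra hcon
    push Not at hcon
    apply hw
    unfold wt
    rw [Finsupp.sum]
    refine Finset.sum_eq_zero fun Q hQ => ?_
    rw [hcon Q hQ, mul_zero, Finsupp.single_zero]
  obtain ⟨Q, hQC, hvol⟩ := hQ
  have had := chain_adapted hS h Q hQC
  have hbase : base Q ∈ Q := base_mem had.1
  have hsubS := chain_subset h Q hQC
  refine ⟨(fun p => p - base Q) '' (Q : Set (Sp d)), ?_, ?_⟩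
  · rintro _ ⟨p, hp, rfl⟩
    exact ⟨p, hsubS hp, base Q, hsubS hbase, rfl⟩
  · exact mtFlat_span (fun p hp => had.2 p hp (base Q) hbase) hvol

end Pool.Agent.MT
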