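import Pool.Agent.H73.MT.Cnt

/-!
# Module MT-E1: a discrete subgroup `Γ` and a subspace `V`: growth of `Γ ∩ V`

`ρ = gamRk Γ V = dim_ℝ span (Γ ∩ V)`, `gamT Γ V R = fsum (indN Γ) V 0 0 R = ∑_{γ ∈ Γ ∩ V} (1 - ‖γ‖/R)^+`.

* `gam_cnt`: if no point of `Γ` is in `(y + V) ∩ ball z R` the sum is `0`.  Otherwise let `γ₀` be
  one; all others are `γ₀ + γ'`, `γ' ∈ Γ ∩ V ⊆ W = span (Γ ∩ V)`, `‖γ'‖ ≤ 2 R`, so
  `cntV (indN Γ) V y z R ≤ cntV (indN Γ) W γ₀ γ₀ (2 R) ≤ K * C1 * (2 R) ^ ρ` (`cntV_le` for `W`).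
* `gam_lower`: choose `γ_1 .. γ_ρ ∈ Γ ∩ V`, a basis of `W` (`exists_linearIndependent`), and
  `M = 1 + ∑ ‖γ_i‖`.  The points `∑ n_i γ_i`, `n_i : ℕ`, `n_i ≤ R / (2 M)`, are different elements of
  `Γ ∩ V` of norm `≤ R / 2`, where `tent R 0 ≥ 1/2`; their number is `≥ (R / (2 M)) ^ ρ`.
* `gam_cmp`: if `x ∉ Γ + V` then `fsum (indN Γ) V x z R = 0` (no `l ∈ Γ` with `l - x ∈ V`).  If
  `x = γ₀ + t₀`, then `fsum (indN Γ) V x z R = ∑_{γ' ∈ Γ ∩ V} tent R z (γ₀ + γ')` and
  `|tent R z (γ₀ + γ') - tent R 0 γ'| ≤ ‖γ₀ - z‖ / R`, both `0` unless `‖γ'‖ ≤ R + ‖γ₀ - z‖`; the number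
  of these `γ'` is `O (R ^ ρ)` by `gam_cnt`.
-/

namespace Pool.Agent.MT

open MeasureTheory Module Submodule

variable {d : ℕ}

/-- the rank of `Γ ∩ V` -/
noncomputable def gamRk (Γ : AddSubgroup (Sp d)) (V : Submodule ℝ (Sp d)) : ℕ :=
  finrank ℝ (span ℝ ((Γ : Set (Sp d)) ∩ V))

/-- the weighted number of elements of `Γ ∩ V` in a ball of radius `R` -/
noncomputable def gamT (Γ : AddSubgroup (Sp d)) (V : Submodule ℝ (Sp d)) (R : ℝ) : ℝ :=
  fsum (indN Γ) V.toAddSubgroup 0 0 R

private lemma mtGamGrow_span_le (Γ : AddSubgroup (Sp d)) (V : Submodule ℝ (Sp d)) :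
    span ℝ ((Γ : Set (Sp d)) ∩ V) ≤ V :=
  span_le.2 Set.inter_subset_right

private lemma mtGamGrow_sum_le {f : Sp d → ℝ} (hf : ∀ l, 0 ≤ f l)
    (hs : (Function.support f).Finite) (F : Finset (Sp d)) : ∑ l ∈ F, f l ≤ ∑ᶠ l, f l := by
  classical
  rw [finsum_eq_sum_of_support_subset (s := hs.toFinset ∪ F) f (by
    intro x hx
    simp only [Finset.coe_union, Set.Finite.coe_toFinset]
    exact Or.inl hx)]
  exact Finset.sum_le_sum_of_subset_of_nonneg Finset.subset_union_right (fun i _ _ => hf i)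

open Classical in
private lemma mtGamGrow_cnt_eq {Γ : AddSubgroup (Sp d)} (V : Submodule ℝ (Sp d)) (y z : Sp d)
    (R : ℝ) (F : Finset (Sp d)) (hF : ∀ l, indN Γ l ≠ 0 → ‖l - z‖ ≤ R → l ∈ F) :
    cntV (indN Γ) V y z R =
      ∑ l ∈ F, if l - y ∈ V ∧ ‖l - z‖ ≤ R then (indN Γ l : ℝ) else 0 := by
  unfold cntV
  rw [finsum_eq_sum_of_support_subset (s := F)]
  intro l hl
  rw [Function.mem_support] at hl
  by_cases h : l - y ∈ V ∧ ‖l - z‖ ≤ R
  · rw [if_pos h] at hl
    exact hF l (by exact_mod_cast hl) h.2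
  · rw [if_neg h] at hl
    exact absurd rfl hl

private lemma mtGamGrow_tent_nonneg (R : ℝ) (z y : Sp d) : 0 ≤ tent R z y := le_max_left _ _

private lemma mtGamGrow_tent_zero {R : ℝ} (hR : 0 < R) {z y : Sp d} (h : R ≤ ‖y - z‖) :
    tent R z y = 0 := by
  unfold tent
  apply max_eq_left
  rw [sub_nonpos, le_div_iff₀ hR, one_mul]
  exact h

open Classical in
private lemma mtGamGrow_fsum_eq {Γ : AddSubgroup (Sp d)} (V : Submodule ℝ (Sp d)) (y z : Sp d)
    {R : ℝ} (hR : 0 < R) (F : Finset (Sp d)) (hF : ∀ l, indN Γ l ≠ 0 → ‖l - z‖ ≤ R → l ∈ F) :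
    fsum (indN Γ) V.toAddSubgroup y z R =
      ∑ l ∈ F, if l - y ∈ V then (indN Γ l : ℝ) * tent R z l else 0 := by
  unfold fsum
  rw [finsum_eq_sum_of_support_subset (s := F)]
  · rfl
  intro l hl
  rw [Function.mem_support] at hl
  by_cases h : l - y ∈ V.toAddSubgroup
  · rw [if_pos h] at hl
    have h1 := left_ne_zero_of_mul hl
    have h2 := right_ne_zero_of_mul hl
    refine hF l (by exact_mod_cast h1) ?_
    by_contra hc
    exact h2 (mtGamGrow_tent_zero hR (le_of_lt (not_le.1 hc)))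
  · rw [if_neg h] at hl
    exact absurd rfl hl

theorem gamRk_le (Γ : AddSubgroup (Sp d)) (V : Submodule ℝ (Sp d)) : gamRk Γ V ≤ finrank ℝ V :=
  Submodule.finrank_mono (mtGamGrow_span_le Γ V)

theorem gamRk_lt {Γ : AddSubgroup (Sp d)} {V : Submodule ℝ (Sp d)}
    (h : span ℝ ((Γ : Set (Sp d)) ∩ V) ≠ V) : gamRk Γ V < finrank ℝ V :=
  Submodule.finrank_lt_finrank_of_lt (lt_of_le_of_ne (mtGamGrow_span_le Γ V) h)

theorem gam_cnt {Γ : AddSubgroup (Sp d)} {C1 : ℕ} (hΓ : LocB (indN Γ) C1)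
    (V : Submodule ℝ (Sp d)) : ∃ K : ℝ, 0 ≤ K ∧ ∀ (y z : Sp d) (R : ℝ), 1 ≤ R →
      cntV (indN Γ) V y z R ≤ K * R ^ gamRk Γ V := by
  classical
  obtain ⟨K, hK, h⟩ := cntV_le (span ℝ ((Γ : Set (Sp d)) ∩ V))
  refine ⟨K * C1 * 2 ^ gamRk Γ V, by positivity, ?_⟩
  intro y z R hR
  have hR0 : 0 < R := lt_of_lt_of_le one_pos hR
  by_cases hex : ∃ g0 : Sp d, g0 ∈ Γ ∧ g0 - y ∈ V ∧ ‖g0 - z‖ ≤ R
  · obtain ⟨g0, hg0, hg0V, hg0R⟩ := hex
    have hle : cntV (indN Γ) V y z R ≤
        cntV (indN Γ) (span ℝ ((Γ : Set (Sp d)) ∩ V)) g0 g0 (2 * R) := by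
      set F : Finset (Sp d) := (hΓ.finite z R).toFinset ∪ (hΓ.finite g0 (2 * R)).toFinset with hF
      rw [mtGamGrow_cnt_eq V y z R F, mtGamGrow_cnt_eq _ g0 g0 (2 * R) F]
      · apply Finset.sum_le_sum
        intro l _
        by_cases hl : l - y ∈ V ∧ ‖l - z‖ ≤ R
        · rw [if_pos hl]
          by_cases hlΓ : l ∈ Γ
          · have h1 : l - g0 ∈ span ℝ ((Γ : Set (Sp d)) ∩ V) := by
              apply subset_span
              refine ⟨Γ.sub_mem hlΓ hg0, ?_⟩
              have e : l - g0 = (l - y) - (g0 - y) := by abel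
              rw [e]
              exact V.sub_mem hl.1 hg0V
            have h2 : ‖l - g0‖ ≤ 2 * R := by
              have e : l - g0 = (l - z) - (g0 - z) := by abel
              rw [e]
              calc ‖(l - z) - (g0 - z)‖ ≤ ‖l - z‖ + ‖g0 - z‖ := norm_sub_le _ _
                _ ≤ 2 * R := by linarith [hl.2]
            rw [if_pos ⟨h1, h2⟩]
          · have h3 : indN Γ l = 0 := by unfold indN; rw [if_neg hlΓ]
            rw [h3]
            split_ifs <;> simp
        · rw [if_neg hl]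
          split_ifs
          · exact Nat.cast_nonneg _
          · exact le_refl _
      · intro l h1 h2
        rw [hF, Finset.mem_union]
        right
        exact (Set.Finite.mem_toFinset _).2 ⟨h1, h2⟩
      · intro l h1 h2
        rw [hF, Finset.mem_union]
        left
        exact (Set.Finite.mem_toFinset _).2 ⟨h1, h2⟩
    refine hle.trans ((h _ _ hΓ g0 g0 (2 * R) (by linarith)).trans (le_of_eq ?_))
    unfold gamRk
    rw [mul_pow]
    ring
  · have h0 : cntV (indN Γ) V y z R = 0 := by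
      unfold cntV
      apply finsum_eq_zero_of_forall_eq_zero
      intro l
      by_cases hl : l - y ∈ V ∧ ‖l - z‖ ≤ R
      · rw [if_pos hl]
        have h3 : indN Γ l = 0 := by
          unfold indN
          rw [if_neg]
          intro hlΓ
          exact hex ⟨l, hlΓ, hl.1, hl.2⟩
        rw [h3, Nat.cast_zero]
      · rw [if_neg hl]
    rw [h0]
    positivity

theorem gam_lower {Γ : AddSubgroup (Sp d)} {C1 : ℕ} (hΓ : LocB (indN Γ) C1)
    (V : Submodule ℝ (Sp d)) : ∃ c : ℝ, 0 < c ∧ ∀ R : ℝ, 1 ≤ R →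
      c * R ^ gamRk Γ V ≤ gamT Γ V R := by
  classical
  obtain ⟨b, hbs, hbspan, hbli⟩ := exists_linearIndependent ℝ ((Γ : Set (Sp d)) ∩ V)
  have : Finite b := hbli.finite
  have : Fintype b := Fintype.ofFinite b
  have hcard : gamRk Γ V = Fintype.card b := by
    unfold gamRk
    rw [← hbspan]
    have := finrank_span_eq_card hbli
    rwa [Subtype.range_coe] at this
  set M : ℝ := 1 + ∑ i : b, ‖(i : Sp d)‖ with hM
  have hM1 : 1 ≤ M := by
    rw [hM]
    have : 0 ≤ ∑ i : b, ‖(i : Sp d)‖ := Finset.sum_nonneg (fun i _ => norm_nonneg _)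
    linarith
  have hM0 : 0 < M := by linarith
  refine ⟨(1 / (2 * M)) ^ gamRk Γ V / 2, by positivity, ?_⟩
  intro R hR
  have hR0 : 0 < R := by linarith
  set k : ℕ := ⌊R / (2 * M)⌋₊ with hk
  have hk1 : (k : ℝ) ≤ R / (2 * M) := Nat.floor_le (by positivity)
  have hk2 : R / (2 * M) < k + 1 := Nat.lt_floor_add_one _
  let φ : (b → Fin (k + 1)) → Sp d := fun n => ∑ i : b, ((n i : ℕ) : ℝ) • (i : Sp d)
  have hφinj : Function.Injective φ := by
    intro n m hnm
    have h1 : ∑ i : b, (((n i : ℕ) : ℝ) - ((m i : ℕ) : ℝ)) • (i : Sp d) = 0 := by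
      have : φ n - φ m = 0 := sub_eq_zero.2 hnm
      simp only [φ] at this
      rw [← Finset.sum_sub_distrib] at this
      rw [← this]
      apply Finset.sum_congr rfl
      intro i _
      rw [sub_smul]
    have h2 := Fintype.linearIndependent_iff.1 hbli _ h1
    funext i
    have h3 := h2 i
    apply Fin.ext
    have h4 : ((n i : ℕ) : ℝ) = ((m i : ℕ) : ℝ) := by linarith
    exact_mod_cast h4
  have hφmem : ∀ n, φ n ∈ Γ ∧ φ n ∈ V := by
    intro n
    constructor
    · apply Γ.sum_mem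
      intro i _
      rw [Nat.cast_smul_eq_nsmul]
      exact Γ.nsmul_mem (hbs i.2).1 _
    · apply V.sum_mem
      intro i _
      exact V.smul_mem _ (hbs i.2).2
  have hφnorm : ∀ n, ‖φ n‖ ≤ R / 2 := by
    intro n
    calc ‖φ n‖ ≤ ∑ i : b, ‖((n i : ℕ) : ℝ) • (i : Sp d)‖ := norm_sum_le _ _
      _ ≤ ∑ i : b, (k : ℝ) * ‖(i : Sp d)‖ := by
        apply Finset.sum_le_sum
        intro i _
        rw [norm_smul, Real.norm_natCast]
        apply mul_le_mul_of_nonneg_right _ (norm_nonneg _)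
        exact_mod_cast Nat.lt_succ_iff.1 (n i).2
      _ = (k : ℝ) * ∑ i : b, ‖(i : Sp d)‖ := by rw [Finset.mul_sum]
      _ ≤ (k : ℝ) * M := by
        apply mul_le_mul_of_nonneg_left _ (Nat.cast_nonneg _)
        rw [hM]
        linarith
      _ ≤ R / (2 * M) * M := mul_le_mul_of_nonneg_right hk1 hM0.le
      _ = R / 2 := by field_simp
  have hsupp : (Function.support fun l : Sp d =>
      if l - 0 ∈ V.toAddSubgroup then (indN Γ l : ℝ) * tent R 0 l else 0).Finite := by
    apply (fsum_support_finite hΓ 0 hR0).subset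
    intro l hl
    rw [Function.mem_support] at hl
    rw [Set.mem_ofPred_eq]
    intro h0
    apply hl
    rw [h0]
    split_ifs <;> rfl
  have hnn : ∀ l : Sp d, 0 ≤ if l - 0 ∈ V.toAddSubgroup then (indN Γ l : ℝ) * tent R 0 l else 0 := by
    intro l
    split_ifs
    · exact mul_nonneg (Nat.cast_nonneg _) (mtGamGrow_tent_nonneg _ _ _)
    · exact le_refl _
  have hmain := mtGamGrow_sum_le hnn hsupp (Finset.univ.image φ)
  have hterm : ∀ l ∈ Finset.univ.image φ, (1 / 2 : ℝ) ≤
      if l - 0 ∈ V.toAddSubgroup then (indN Γ l : ℝ) * tent R 0 l else 0 := by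
    intro l hl
    rw [Finset.mem_image] at hl
    obtain ⟨n, _, rfl⟩ := hl
    rw [if_pos (by rw [sub_zero]; exact (hφmem n).2)]
    have h1 : indN Γ (φ n) = 1 := by
      unfold indN
      rw [if_pos (hφmem n).1]
    rw [h1, Nat.cast_one, one_mul]
    unfold tent
    apply le_trans _ (le_max_right _ _)
    rw [sub_zero]
    have h2 : ‖φ n‖ / R ≤ 1 / 2 := by
      rw [div_le_iff₀ hR0]
      linarith [hφnorm n]
    linarith
  have hcardF : (Finset.univ.image φ).card = (k + 1) ^ gamRk Γ V := by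
    rw [Finset.card_image_of_injective _ hφinj, Finset.card_univ, Fintype.card_fun,
      Fintype.card_fin, hcard]
  have hlow : ((k + 1 : ℕ) : ℝ) ^ gamRk Γ V * (1 / 2) ≤ gamT Γ V R := by
    unfold gamT fsum
    refine le_trans ?_ hmain
    calc ((k + 1 : ℕ) : ℝ) ^ gamRk Γ V * (1 / 2)
        = ∑ _l ∈ Finset.univ.image φ, (1 / 2 : ℝ) := by
          rw [Finset.sum_const, hcardF, nsmul_eq_mul]
          push_cast
          ring
      _ ≤ _ := Finset.sum_le_sum hterm
  refine le_trans ?_ hlow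
  have h5 : (1 / (2 * M)) ^ gamRk Γ V / 2 * R ^ gamRk Γ V = (R / (2 * M)) ^ gamRk Γ V * (1 / 2) := by
    rw [div_pow R, div_pow 1, one_pow]
    ring
  rw [h5]
  apply mul_le_mul_of_nonneg_right _ (by norm_num)
  apply pow_le_pow_left₀ (by positivity)
  push_cast
  exact hk2.le

open Classical in
theorem gam_cmp {Γ : AddSubgroup (Sp d)} {C1 : ℕ} (hΓ : LocB (indN Γ) C1)
    (V : Submodule ℝ (Sp d)) (x z : Sp d) : ∃ K : ℝ, 0 ≤ K ∧ ∀ R : ℝ, 1 ≤ R →
      |fsum (indN Γ) V.toAddSubgroup x z R -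
        (if x ∈ Γ ⊔ V.toAddSubgroup then gamT Γ V R else 0)| ≤ K * R ^ gamRk Γ V / R := by
  obtain ⟨K0, hK0, hcnt⟩ := gam_cnt hΓ V
  by_cases hx : x ∈ Γ ⊔ V.toAddSubgroup
  · obtain ⟨g0, hg0, t0, ht0, hxe⟩ := AddSubgroup.mem_sup.1 hx
    set T : ℝ := ‖g0 - z‖ with hT
    have hT0 : 0 ≤ T := norm_nonneg _
    refine ⟨T * K0 * (1 + T) ^ gamRk Γ V, by positivity, ?_⟩
    intro R hR
    have hR0 : 0 < R := by linarith
    rw [if_pos hx]
    set F : Finset (Sp d) := (hΓ.finite 0 (R + T)).toFinset with hF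
    have hFmem : ∀ l, indN Γ l ≠ 0 → ‖l - 0‖ ≤ R + T → l ∈ F := fun l h1 h2 =>
      (Set.Finite.mem_toFinset _).2 ⟨h1, h2⟩
    -- the shifted sum
    have hshift : fsum (indN Γ) V.toAddSubgroup x z R =
        ∑ l ∈ F, if l - 0 ∈ V then (indN Γ l : ℝ) * tent R z (g0 + l) else 0 := by
      unfold fsum
      rw [← finsum_comp_equiv (Equiv.addLeft g0)]
      have he : (fun l : Sp d => if (Equiv.addLeft g0) l - x ∈ V.toAddSubgroup then
          (indN Γ ((Equiv.addLeft g0) l) : ℝ) * tent R z ((Equiv.addLeft g0) l) else 0) =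
          fun l : Sp d => if l - 0 ∈ V then (indN Γ l : ℝ) * tent R z (g0 + l) else 0 := by
        funext l
        rw [Equiv.coe_addLeft]
        have h1 : (g0 + l - x ∈ V.toAddSubgroup) ↔ l - 0 ∈ V := by
          rw [← hxe, sub_zero]
          have e : g0 + l - (g0 + t0) = l - t0 := by abel
          rw [e]
          constructor
          · intro h
            have := V.add_mem (show l - t0 ∈ V from h) (show t0 ∈ V from ht0)
            rwa [sub_add_cancel] at this
          · intro h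
            exact V.sub_mem h ht0
        have h2 : indN Γ (g0 + l) = indN Γ l := by
          unfold indN
          have : g0 + l ∈ Γ ↔ l ∈ Γ := by
            constructor
            · intro h
              have := Γ.sub_mem h hg0
              rwa [add_sub_cancel_left] at this
            · intro h
              exact Γ.add_mem hg0 h
          simp only [this]
        simp only [h1, h2]
      rw [he]
      apply finsum_eq_sum_of_support_subset
      intro l hl
      rw [Function.mem_support] at hl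
      by_cases h : l - 0 ∈ V
      · rw [if_pos h] at hl
        have h1 := left_ne_zero_of_mul hl
        have h2 := right_ne_zero_of_mul hl
        refine hFmem l (by exact_mod_cast h1) ?_
        by_contra hc
        apply h2
        apply mtGamGrow_tent_zero hR0
        rw [not_le, sub_zero] at hc
        have e : l = (g0 + l - z) - (g0 - z) := by abel
        have := norm_sub_le (g0 + l - z) (g0 - z)
        rw [← e] at this
        linarith
      · rw [if_neg h] at hl
        exact absurd rfl hl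
    have hT' : gamT Γ V R = ∑ l ∈ F, if l - 0 ∈ V then (indN Γ l : ℝ) * tent R 0 l else 0 := by
      unfold gamT
      apply mtGamGrow_fsum_eq V 0 0 hR0 F
      intro l h1 h2
      exact hFmem l h1 (by linarith)
    have hc' := mtGamGrow_cnt_eq (Γ := Γ) V 0 0 (R + T) F hFmem
    rw [hshift, hT', ← Finset.sum_sub_distrib]
    have hbd : ∀ l ∈ F, |(if l - 0 ∈ V then (indN Γ l : ℝ) * tent R z (g0 + l) else 0) -
        (if l - 0 ∈ V then (indN Γ l : ℝ) * tent R 0 l else 0)| ≤
        T / R * (if l - 0 ∈ V ∧ ‖l - 0‖ ≤ R + T then (indN Γ l : ℝ) else 0) := by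
      intro l hl
      have hlF : ‖l - 0‖ ≤ R + T := ((Set.Finite.mem_toFinset _).1 hl).2
      by_cases h : l - 0 ∈ V
      · rw [if_pos h, if_pos h, if_pos ⟨h, hlF⟩, ← mul_sub, abs_mul, Nat.abs_cast, mul_comm]
        apply mul_le_mul_of_nonneg_right _ (Nat.cast_nonneg _)
        unfold tent
        refine (abs_max_sub_max_le_max _ _ _ _).trans ?_
        rw [sub_self, abs_zero]
        apply max_le (by positivity)
        have e : 1 - ‖g0 + l - z‖ / R - (1 - ‖l - 0‖ / R) = (‖l - 0‖ - ‖g0 + l - z‖) / R := by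
          ring
        rw [e, abs_div, abs_of_pos hR0]
        apply div_le_div_of_nonneg_right _ hR0.le
        refine (abs_norm_sub_norm_le _ _).trans ?_
        have e2 : l - 0 - (g0 + l - z) = -(g0 - z) := by abel
        rw [e2, norm_neg]
      · rw [if_neg h, if_neg h, if_neg (fun hh => h hh.1)]
        simp
    calc |∑ l ∈ F, ((if l - 0 ∈ V then (indN Γ l : ℝ) * tent R z (g0 + l) else 0) -
          (if l - 0 ∈ V then (indN Γ l : ℝ) * tent R 0 l else 0))|
        ≤ ∑ l ∈ F, |(if l - 0 ∈ V then (indN Γ l : ℝ) * tent R z (g0 + l) else 0) -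
          (if l - 0 ∈ V then (indN Γ l : ℝ) * tent R 0 l else 0)| :=
          Finset.abs_sum_le_sum_abs _ _
      _ ≤ ∑ l ∈ F, T / R * (if l - 0 ∈ V ∧ ‖l - 0‖ ≤ R + T then (indN Γ l : ℝ) else 0) :=
          Finset.sum_le_sum hbd
      _ = T / R * cntV (indN Γ) V 0 0 (R + T) := by rw [← Finset.mul_sum, hc']
      _ ≤ T / R * (K0 * (R + T) ^ gamRk Γ V) := by
          apply mul_le_mul_of_nonneg_left (hcnt 0 0 (R + T) (by linarith)) (by positivity)
      _ ≤ T / R * (K0 * ((1 + T) * R) ^ gamRk Γ V) := by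
          apply mul_le_mul_of_nonneg_left _ (by positivity)
          apply mul_le_mul_of_nonneg_left _ hK0
          apply pow_le_pow_left₀ (by positivity)
          nlinarith
      _ = T * K0 * (1 + T) ^ gamRk Γ V * R ^ gamRk Γ V / R := by
          rw [mul_pow]
          ring
  · refine ⟨0, le_refl _, ?_⟩
    intro R hR
    rw [if_neg hx]
    have h0 : fsum (indN Γ) V.toAddSubgroup x z R = 0 := by
      unfold fsum
      apply finsum_eq_zero_of_forall_eq_zero
      intro l
      by_cases hl : l - x ∈ V.toAddSubgroup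
      · rw [if_pos hl]
        have h3 : indN Γ l = 0 := by
          unfold indN
          rw [if_neg]
          intro hlΓ
          apply hx
          have e : x = l + -(l - x) := by abel
          rw [e]
          exact AddSubgroup.add_mem_sup hlΓ (V.toAddSubgroup.neg_mem hl)
        rw [h3, Nat.cast_zero, zero_mul]
      · rw [if_neg hl]
    rw [h0]
    simp

end Pool.Agent.MT
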