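import Pool.Agent.H73.MT.GamGrow
import Pool.Agent.H73.MT.Av

/-!
# Module MT-E2: the main formula for a discrete subgroup

`clsum Γ V C x = ∑ {wt V C v : x - v ∈ Γ + V}`.

Proof of `gam_main`.  `averaging` with `N = indN Γ`, `q = 1` (`dil_one`), `z = x`: the integral is
`κ * ∫_V tent R 0 t = κ * c * R ^ s` (a.e. equality under the integral and `integral_tent`;
`tent R x (x + t) = tent R 0 t`), `mainTerm = ∑_v wt v * fsum (indN Γ) V (x - v) x R` and by `gam_cmp`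
(finitely many `v`) this is `clsum Γ V C x * gamT Γ V R + O (R ^ ρ / R)`.  The error in `averaging` is
`K / R * ∑_Q cntV .. (R + K) = O (R ^ ρ / R)` by `gam_cnt`, `R + K ≤ (1 + K) R`.
-/

namespace Pool.Agent.MT

open MeasureTheory Module Submodule

variable {d : ℕ}

open Classical in
/-- the sum of the weights over one class modulo `Γ + V` -/
noncomputable def clsum (Γ : AddSubgroup (Sp d)) (V : Submodule ℝ (Sp d)) (C : Comb d)
    (x : Sp d) : ℝ :=
  (wt V C).sum fun v a => if x - v ∈ Γ ⊔ V.toAddSubgroup then a else 0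

private theorem mtGamMain_tent (V : Submodule ℝ (Sp d)) (x : Sp d) (R : ℝ) (t : V) :
    tent R x (x + (t : Sp d)) = tent R 0 (t : Sp d) := by
  unfold tent
  rw [add_sub_cancel_left, sub_zero]

private theorem mtGamMain_int {V : Submodule ℝ (Sp d)} {C : Comb d} {N : Sp d → ℕ} {x : Sp d} {κ : ℤ}
    (h : ∀ᵐ t : V ∂(Measure.addHaar : Measure V), gfun C N (x + t) = κ) (R : ℝ) :
    ∫ t : V, tent R x (x + (t : Sp d)) * (gfun C N (x + t) : ℝ) ∂(Measure.addHaar : Measure V) =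
      (κ : ℝ) * ∫ t : V, tent R 0 (t : Sp d) ∂(Measure.addHaar : Measure V) := by
  rw [← integral_const_mul]
  refine integral_congr_ae ?_
  filter_upwards [h] with t ht
  rw [ht, mtGamMain_tent]
  ring

private theorem mtGamMain_main {Γ : AddSubgroup (Sp d)} {C1 : ℕ} (hΓ : LocB (indN Γ) C1)
    (V : Submodule ℝ (Sp d)) (C : Comb d) (x : Sp d) : ∃ K : ℝ, 0 ≤ K ∧ ∀ R : ℝ, 1 ≤ R →
      |mainTerm V C (indN Γ) 1 x x R - clsum Γ V C x * gamT Γ V R| ≤ K * R ^ gamRk Γ V / R := by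
  classical
  choose Kv hK0 hK using fun v : Sp d => gam_cmp hΓ V (x - v) x
  refine ⟨∑ v ∈ (wt V C).support, |wt V C v| * Kv v, ?_, fun R hR => ?_⟩
  · exact Finset.sum_nonneg fun v _ => mul_nonneg (abs_nonneg _) (hK0 v)
  have h1 : mainTerm V C (indN Γ) 1 x x R - clsum Γ V C x * gamT Γ V R =
      ∑ v ∈ (wt V C).support, wt V C v * (fsum (indN Γ) V.toAddSubgroup (x - v) x R -
        (if x - v ∈ Γ ⊔ V.toAddSubgroup then gamT Γ V R else 0)) := by
    unfold mainTerm clsum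
    rw [Finsupp.sum, Finsupp.sum, Finset.sum_mul, ← Finset.sum_sub_distrib]
    refine Finset.sum_congr rfl fun v _ => ?_
    rw [Nat.cast_one, one_smul]
    split_ifs
    · ring
    · ring
  rw [h1]
  refine (Finset.abs_sum_le_sum_abs _ _).trans ?_
  rw [Finset.sum_mul, Finset.sum_div]
  refine Finset.sum_le_sum fun v _ => ?_
  rw [abs_mul]
  refine (mul_le_mul_of_nonneg_left (hK v R hR) (abs_nonneg _)).trans (le_of_eq ?_)
  ring

theorem gam_main {Γ : AddSubgroup (Sp d)} {C1 : ℕ} (hΓ : LocB (indN Γ) C1)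
    (V : Submodule ℝ (Sp d)) : ∃ c : ℝ, 0 < c ∧ ∀ (C : Comb d), Adapted V C → ∀ (x : Sp d) (κ : ℤ),
      (∀ᵐ t : V ∂(Measure.addHaar : Measure V), gfun C (indN Γ) (x + t) = κ) →
      ∃ K : ℝ, 0 ≤ K ∧ ∀ R : ℝ, 1 ≤ R →
        |(κ : ℝ) * (c * R ^ finrank ℝ V) - clsum Γ V C x * gamT Γ V R| ≤
          K * R ^ gamRk Γ V / R := by
  obtain ⟨c, hc, hcR⟩ := integral_tent V
  refine ⟨c, hc, fun C hC x κ hκ => ?_⟩
  obtain ⟨K0, hK0, hav⟩ := averaging V C hC
  obtain ⟨K1, hK1, hcnt⟩ := gam_cnt hΓ V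
  obtain ⟨K2, hK2, hmain⟩ := mtGamMain_main hΓ V C x
  refine ⟨K0 * (C.support.card * (K1 * (1 + K0) ^ gamRk Γ V)) + K2, by positivity, fun R hR => ?_⟩
  have hR0 : 0 < R := by linarith
  have h1 := hav (indN Γ) C1 hΓ 1 le_rfl x x R hR0
  rw [dil_one, mtGamMain_int hκ, hcR R hR0, Nat.cast_one, one_pow, one_pow, one_mul, mul_one] at h1
  have h2 : ∑ Q ∈ C.support, cntV (indN Γ) V (x - (1 : ℝ) • base Q) x (R + K0) ≤
      C.support.card * (K1 * (1 + K0) ^ gamRk Γ V) * R ^ gamRk Γ V := by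
    rw [mul_assoc, ← nsmul_eq_mul]
    refine Finset.sum_le_card_nsmul _ _ _ fun Q _ => ?_
    refine (hcnt _ _ _ (by linarith)).trans ?_
    rw [mul_assoc, ← mul_pow]
    refine mul_le_mul_of_nonneg_left (pow_le_pow_left₀ (by linarith) ?_ _) hK1
    nlinarith
  have h3 : K0 / R * ∑ Q ∈ C.support, cntV (indN Γ) V (x - (1 : ℝ) • base Q) x (R + K0) ≤
      K0 / R * (C.support.card * (K1 * (1 + K0) ^ gamRk Γ V) * R ^ gamRk Γ V) :=
    mul_le_mul_of_nonneg_left h2 (by positivity)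
  have h4 := hmain R hR
  have h5 : (κ : ℝ) * (c * R ^ finrank ℝ V) - clsum Γ V C x * gamT Γ V R =
      ((κ : ℝ) * (c * R ^ finrank ℝ V) - mainTerm V C (indN Γ) 1 x x R) +
        (mainTerm V C (indN Γ) 1 x x R - clsum Γ V C x * gamT Γ V R) := by ring
  rw [h5]
  refine (abs_add_le _ _).trans ((add_le_add (h1.trans h3) h4).trans (le_of_eq ?_))
  ring

end Pool.Agent.MT
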