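import Mathlib
import Pool.Agent.H39.MT.GDefs
import Pool.Agent.H75.MT.Defs

/-!
# Project MT (MP_5140a6_co, S08737): frame-free definitions for the geometry block

Space `E = Fin d → ℝ` (sup norm).  `S : Finset E`, `P = conv S`.

* `Comb d` : formal integer combinations of finite subsets of `E`.
* `bd φ C` : replace every `Q` by `[argmax_Q φ] - [argmin_Q φ]`.
* `Chain S V C` : `V ⊆ E` is a subspace and `C` the combination obtained from `[S]` by a sequence of
  functionals whose successive kernels cut out `V`.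
* `gfun C N x = ∑_λ N(λ) ∑_Q C(Q) 1_{conv Q}(x - λ)`.
* `Rel V C N` : `gfun C N` vanishes almost everywhere on every coset of `V`.
* `ConstOn V C N` : `gfun C N` is almost everywhere constant on every coset of `V`.
* `wt V C` : the signed volumes (relative to the Haar measure of `V`) of the `conv Q`, placed at a
  chosen point `base Q ∈ Q`.
-/

namespace Pool.Agent.MT

open MeasureTheory Module Submodule

variable {d : ℕ}

open Classical in
/-- points of `Q` where `φ` is maximal -/
noncomputable def amax (φ : (Sp d) →ₗ[ℝ] ℝ) (Q : Finset (Sp d)) : Finset (Sp d) :=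
  Q.filter fun p => ∀ q ∈ Q, φ q ≤ φ p

open Classical in
/-- points of `Q` where `φ` is minimal -/
noncomputable def amin (φ : (Sp d) →ₗ[ℝ] ℝ) (Q : Finset (Sp d)) : Finset (Sp d) :=
  Q.filter fun p => ∀ q ∈ Q, φ p ≤ φ q

/-- formal integer combinations of finite sets of points -/
abbrev Comb (d : ℕ) := (Finset (Sp d)) →₀ ℤ

/-- the boundary operator in direction `φ` -/
noncomputable def bd (φ : (Sp d) →ₗ[ℝ] ℝ) : Comb d →+ Comb d :=
  Finsupp.liftAddHom fun Q =>
    Finsupp.singleAddHom (amax φ Q) - Finsupp.singleAddHom (amin φ Q)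

@[simp] theorem bd_single (φ : (Sp d) →ₗ[ℝ] ℝ) (Q : Finset (Sp d)) (c : ℤ) :
    bd φ (Finsupp.single Q c) = Finsupp.single (amax φ Q) c - Finsupp.single (amin φ Q) c := by
  simp [bd]

/-- Chains of faces. -/
inductive Chain (S : Finset (Sp d)) : Submodule ℝ (Sp d) → Comb d → Prop
  | top : Chain S ⊤ (Finsupp.single S 1)
  | step (V : Submodule ℝ (Sp d)) (C : Comb d) (φ : (Sp d) →ₗ[ℝ] ℝ) :
      Chain S V C → ¬ V ≤ LinearMap.ker φ → Chain S (V ⊓ LinearMap.ker φ) (bd φ C)

/-- every finite set occurring in `C` is nonempty and contained in one coset of `V` -/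
def Adapted (V : Submodule ℝ (Sp d)) (C : Comb d) : Prop :=
  ∀ Q ∈ C.support, Q.Nonempty ∧ ∀ p ∈ Q, ∀ q ∈ Q, p - q ∈ V

open Classical in
/-- dilation of a combination by `q` -/
noncomputable def dil (q : ℕ) (C : Comb d) : Comb d :=
  Finsupp.mapDomain (fun Q : Finset (Sp d) => Q.image fun p => (q : ℝ) • p) C

/-- `∑_λ N(λ) ∑_Q C(Q) 1_{conv Q}(x - λ)` -/
noncomputable def gfun (C : Comb d) (N : (Sp d) → ℕ) (x : Sp d) : ℤ :=
  ∑ᶠ l : Sp d, (N l : ℤ) *
    C.sum fun Q c => c * ind (convexHull ℝ (Q : Set (Sp d))) (x - l)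

/-- the function of `C` and `N` vanishes a.e. on every coset of `V` -/
def Rel (V : Submodule ℝ (Sp d)) (C : Comb d) (N : (Sp d) → ℕ) : Prop :=
  ∀ x : Sp d, ∀ᵐ t : V ∂(Measure.addHaar : Measure V), gfun C N (x + t) = 0

/-- the function of `C` and `N` is a.e. constant on every coset of `V` -/
def ConstOn (V : Submodule ℝ (Sp d)) (C : Comb d) (N : (Sp d) → ℕ) : Prop :=
  ∀ x : Sp d, ∃ κ : ℤ, ∀ᵐ t : V ∂(Measure.addHaar : Measure V), gfun C N (x + t) = κ

open Classical in
/-- a chosen point of `Q` -/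
noncomputable def base (Q : Finset (Sp d)) : Sp d :=
  if h : Q.Nonempty then h.choose else 0

/-- the volume of `conv Q` in the coset `base Q + V` -/
noncomputable def volV (V : Submodule ℝ (Sp d)) (Q : Finset (Sp d)) : ℝ :=
  (Measure.addHaar : Measure V).real {t : V | base Q + t ∈ convexHull ℝ (Q : Set (Sp d))}

/-- signed volumes at the base points -/
noncomputable def wt (V : Submodule ℝ (Sp d)) (C : Comb d) : (Sp d) →₀ ℝ :=
  C.sum fun Q c => Finsupp.single (base Q) ((c : ℝ) * volV V Q)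

open Classical in
/-- `∑ {N(λ) : λ ∈ y + V, ‖λ - z‖ ≤ R}` -/
noncomputable def cntV (N : (Sp d) → ℕ) (V : Submodule ℝ (Sp d)) (y z : Sp d)
    (R : ℝ) : ℝ :=
  ∑ᶠ l : Sp d, if l - y ∈ V ∧ ‖l - z‖ ≤ R then (N l : ℝ) else 0

/-- the flag data used in the structure theorem -/
def FDat (S : Finset (Sp d)) : Set (Submodule ℝ (Sp d) × ((Sp d) → ℝ)) :=
  {p | ∃ C : Comb d, Chain S p.1 C ∧ p.1 ≠ ⊤ ∧ p.2 = fun v => wt p.1 C v}

open Classical in
/-- the indicator of a subgroup as a multiset of points -/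
noncomputable def indN (Γ : AddSubgroup (Sp d)) (z : Sp d) : ℕ := if z ∈ Γ then 1 else 0

end Pool.Agent.MT
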