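import Pool.Agent.H73.MT.Transfer
import Pool.Agent.H73.MT.AeLin
import Pool.Agent.H39.MT.J1

/-!
# Module MT-G3: constant on the cosets of `V` implies the relation on `V ⊓ ker φ`

Proof.  Choose `v ∈ V` with `φ v = 1` (scale; `V ⊓ ker φ` does not change and neither do
`amax`, `amin` under positive scaling), and `s, Ψ, Φ` from `exists_coord`.  Let `x` be given.  By
`gfun_transfer` and `ae_linearEquiv` the hypothesis is the hypothesis of `J1` for the family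
`QQ Ψ`, `cc`.  `J1` with `a = 0` and `gfun_bd_transfer` with `α = 0` give: for a.e. `y`,
`gfun (bd φ C) N (x + Φ (y, 0)) = 0`; `y ↦ Φ (y, 0)` is a linear equivalence
`(Fin s → ℝ) ≃ V ⊓ ker φ`, use `ae_linearEquiv` again.
-/

namespace Pool.Agent.MT

open MeasureTheory Module Submodule

variable {d : ℕ}

/-- `y ↦ Φ (y, 0)` is a linear equivalence onto `V ⊓ ker φ`. -/
private theorem mtJumpDown_equiv {V : Submodule ℝ (Sp d)} {s : ℕ} (φ : (Sp d) →ₗ[ℝ] ℝ)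
    (Φ : ((Fin s → ℝ) × ℝ) ≃ₗ[ℝ] V) (hφ : ∀ p, φ (Φ p) = p.2) :
    ∃ L : (Fin s → ℝ) ≃ₗ[ℝ] (V ⊓ LinearMap.ker φ : Submodule ℝ (Sp d)),
      ∀ y, ((L y : Sp d)) = (Φ (y, 0) : Sp d) := by
  let f : (Fin s → ℝ) →ₗ[ℝ] (V ⊓ LinearMap.ker φ : Submodule ℝ (Sp d)) :=
    LinearMap.codRestrict _ (V.subtype ∘ₗ Φ.toLinearMap ∘ₗ LinearMap.inl ℝ (Fin s → ℝ) ℝ)
      (fun y => by
        refine ⟨(Φ (y, 0)).2, ?_⟩
        have := hφ (y, 0)
        simpa using this)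
  have hf : ∀ y, ((f y : Sp d)) = (Φ (y, 0) : Sp d) := fun y => rfl
  have hinj : Function.Injective f := by
    intro y z hyz
    have h1 : (Φ (y, 0) : Sp d) = (Φ (z, 0) : Sp d) := by
      rw [← hf, ← hf, hyz]
    have h2 := Φ.injective (Subtype.ext h1)
    exact (Prod.mk.inj h2).1
  have hsurj : Function.Surjective f := by
    rintro ⟨w, hwV, hwk⟩
    obtain ⟨p, hp⟩ := Φ.surjective ⟨w, hwV⟩
    have h1 : p.2 = 0 := by
      rw [← hφ p, hp]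
      exact hwk
    refine ⟨p.1, Subtype.ext ?_⟩
    rw [hf]
    have h2 : ((p.1, 0) : (Fin s → ℝ) × ℝ) = p := by
      rw [← h1]
    rw [h2, hp]
  exact ⟨LinearEquiv.ofBijective f ⟨hinj, hsurj⟩, fun y => hf y⟩

theorem jump_down {V : Submodule ℝ (Sp d)} {C : Comb d} (hC : Adapted V C)
    {N : (Sp d) → ℕ} {C0 : ℕ} (hN : LocB N C0) (h : ConstOn V C N)
    (φ : (Sp d) →ₗ[ℝ] ℝ) (hφ : ¬ V ≤ LinearMap.ker φ) :
    Rel (V ⊓ LinearMap.ker φ) (bd φ C) N := by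
  obtain ⟨v0, hv0, hv0k⟩ := SetLike.not_le_iff_exists.mp hφ
  rw [LinearMap.mem_ker] at hv0k
  have hv : φ ((⟨(φ v0)⁻¹ • v0, V.smul_mem _ hv0⟩ : V) : Sp d) = 1 := by
    rw [map_smul, smul_eq_mul, inv_mul_cancel₀ hv0k]
  obtain ⟨s, Ψ, Φ, hΨ, -, hΦ⟩ := exists_coord V ⟨(φ v0)⁻¹ • v0, V.smul_mem _ hv0⟩ φ hv
  intro x
  obtain ⟨κ, hκ⟩ := h x
  have := idxT_countable hN V C x
  have hvol : (volume : Measure ((Fin s → ℝ) × ℝ)).IsAddHaarMeasure := by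
    rw [Measure.volume_eq_prod]
    infer_instance
  have h1 : ∀ᵐ p : (Fin s → ℝ) × ℝ, gfun C N (x + Φ p) = κ :=
    (ae_linearEquiv (volume : Measure ((Fin s → ℝ) × ℝ)) (Measure.addHaar : Measure V) Φ
      (fun t : V => gfun C N (x + t) = κ)).mp hκ
  have h2 : ∀ᵐ p : (Fin s → ℝ) × ℝ, ∑ᶠ i : IdxT V C N x,
      cc i * ind (convexHull ℝ (QQ Ψ i : Set ((Fin s → ℝ) × ℝ))) p = κ := by
    filter_upwards [h1] with p hp
    rw [← gfun_transfer Ψ Φ hΨ hC hN x p, hp]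
  have h3 := J1 (QQ Ψ : IdxT V C N x → _) cc (locFin_QQ Ψ Φ hΨ hC hN x) κ h2 0
  have h4 : ∀ᵐ y : Fin s → ℝ, gfun (bd φ C) N (x + Φ (y, 0)) = 0 := by
    filter_upwards [h3] with y hy
    rw [gfun_bd_transfer Ψ Φ hΨ hC hN x φ 0 (fun p => by rw [hΦ p]; simp) (y, 0)]
    exact hy
  obtain ⟨L, hL⟩ := mtJumpDown_equiv φ Φ hΦ
  refine (ae_linearEquiv (volume : Measure (Fin s → ℝ))
    (Measure.addHaar : Measure (V ⊓ LinearMap.ker φ : Submodule ℝ (Sp d))) L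
    (fun t => gfun (bd φ C) N (x + t) = 0)).mpr ?_
  filter_upwards [h4] with y hy
  rw [hL]
  exact hy

end Pool.Agent.MT
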