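import Pool.Agent.H73.MT.GeoDefs
import Pool.Agent.H73.MT.QForm

/-!
# Module MT-E4: a fine lattice in a rational form

Proof.  Let `b_1 .. b_e` be a `ℚ`-basis of `LL`; it is linearly independent over `ℝ` (`h.rk` and
`finrank` of the span).  For `n ≥ 1` let `L_n = {∑ (m_i / n) b_i : m_i ∈ ℤ}` (`AddSubgroup.closure`
of the `(1/n) b_i`, or the image of `span ℤ`).  `L_n ⊆ LL`, `L_n ⊆ L_{n k}`, every element of `LL` is
in some `L_n` (common denominator), and `n l ∈ L_1 ⊆ L_m` for `l ∈ L_n`.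
Conditions: for `p ∈ F` (a finite set of triples `(v, V, W)`) with
`v ∈ V + (LL ∩ W)`: `v = x + l` with `x ∈ V`, `l ∈ LL ∩ W`; `l ∈ L_n` for some `n = n(p)`.  Take the
product of all `n(p)`.
Locally bounded: the coordinates with respect to the `ℝ`-independent `b_i` are bounded by `K ‖·‖`
on `span b` (`LinearMap` between finite dimensional spaces is bounded), so a ball of radius `2`
contains at most `C1` elements of `L_n`; `∑_{z ∈ F} indN = #(F ∩ L_n)`, and if it is nonempty all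
elements are in `z₀ + (L_n ∩ ball 0 2)`.
-/

namespace Pool.Agent.MT

open MeasureTheory Module Submodule Pool.Agent.H73.MT

variable {d : ℕ}

/-- the group homomorphism `m ↦ ∑ (m_i / n) b_i` -/
private noncomputable def mtLat_g {e : ℕ} (b : Fin e → Sp d) (n : ℕ) : (Fin e → ℤ) →+ Sp d where
  toFun m := ∑ i, (((m i : ℤ) : ℝ) / n) • b i
  map_zero' := by simp
  map_add' m m' := by
    rw [← Finset.sum_add_distrib]
    refine Finset.sum_congr rfl fun i _ => ?_
    rw [← add_smul]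
    congr 1
    simp only [Pi.add_apply]
    push_cast
    ring

private theorem mtLat_g_apply {e : ℕ} (b : Fin e → Sp d) (n : ℕ) (m : Fin e → ℤ) :
    mtLat_g b n m = ∑ i, (((m i : ℤ) : ℝ) / n) • b i := rfl

private theorem mtLat_denom {e : ℕ} (q : Fin e → ℚ) :
    ∃ D : ℕ, 0 < D ∧ ∃ k : Fin e → ℤ, ∀ i, (k i : ℚ) = D * q i := by
  refine ⟨∏ i, (q i).den, Finset.prod_pos fun i _ => (q i).den_pos, ?_⟩
  have h : ∀ i, ∃ k : ℤ, (k : ℚ) = ((∏ i, (q i).den : ℕ) : ℚ) * q i := by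
    intro i
    obtain ⟨c, hc⟩ := Finset.dvd_prod_of_mem (fun i => (q i).den) (Finset.mem_univ i)
    refine ⟨c * (q i).num, ?_⟩
    rw [hc]
    have h1 : ((q i).den : ℚ) * q i = (q i).num := Rat.den_mul_eq_num (q i)
    push_cast
    rw [← h1]
    ring
  choose k hk using h
  exact ⟨k, hk⟩

theorem exists_fine_lattice {LL : Submodule ℚ (Sp d)} (h : IsQForm LL)
    (F : Set (Sp d × Submodule ℝ (Sp d) × Submodule ℝ (Sp d))) (hF : F.Finite) :
    ∃ (L : AddSubgroup (Sp d)) (C1 : ℕ), (∀ l ∈ L, l ∈ LL) ∧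
      (∀ l ∈ LL, ∃ n : ℕ, 0 < n ∧ n • l ∈ L) ∧ LocB (indN L) C1 ∧
      ∀ p ∈ F, (∃ l ∈ LL, l ∈ p.2.2 ∧ p.1 - l ∈ p.2.1) → ∃ l ∈ L, l ∈ p.2.2 ∧ p.1 - l ∈ p.2.1 := by
  classical
  have := h.fin
  set e := finrank ℚ LL with he
  set B : Basis (Fin e) ℚ LL := Module.finBasis ℚ LL with hB
  set b : Fin e → Sp d := fun i => (B i : Sp d) with hb
  -- real independence
  have hspan : span ℝ (LL : Set (Sp d)) = span ℝ (Set.range b) := by
    apply le_antisymm
    · rw [span_le]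
      intro x hx
      have h2 : (⟨x, hx⟩ : LL) ∈ span ℚ (Set.range B) := by rw [B.span_eq]; trivial
      have h3 : x ∈ span ℚ (Set.range b) := by
        have := Submodule.mem_map_of_mem (f := LL.subtype) h2
        rw [Submodule.map_span, ← Set.range_comp] at this
        exact this
      exact (Submodule.span_le_restrictScalars ℚ ℝ _ : _) h3
    · rw [span_le]
      rintro _ ⟨i, rfl⟩
      exact subset_span (B i).2
  have hli : LinearIndependent ℝ b := by
    rw [linearIndependent_iff_card_eq_finrank_span, Fintype.card_fin]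
    unfold Set.finrank
    rw [← hspan, h.rk]
  -- expansion
  have hexp : ∀ l ∈ LL, ∃ q : Fin e → ℚ, l = ∑ i, ((q i : ℚ) : ℝ) • b i := by
    intro l hl
    refine ⟨fun i => B.repr ⟨l, hl⟩ i, ?_⟩
    have h1 := congrArg (fun x : LL => (x : Sp d)) (B.sum_repr ⟨l, hl⟩)
    simp only [Submodule.coe_sum, Submodule.coe_smul] at h1
    refine h1.symm.trans ?_
    refine Finset.sum_congr rfl fun i _ => ?_
    rw [Rat.cast_smul_eq_qsmul ℝ]
  have hmemLL : ∀ (n : ℕ) (m : Fin e → ℤ), mtLat_g b n m ∈ LL := by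
    intro n m
    rw [mtLat_g_apply]
    refine LL.sum_mem fun i _ => ?_
    have h1 : (((m i : ℤ) : ℝ) / n) • b i = (((m i : ℤ) : ℚ) / n) • b i := by
      rw [← Rat.cast_smul_eq_qsmul ℝ]
      push_cast
      rfl
    rw [h1]
    exact LL.smul_mem _ (B i).2
  have hmul : ∀ (n k : ℕ), 0 < n → 0 < k → (mtLat_g b n).range ≤ (mtLat_g b (n * k)).range := by
    rintro n k hn hk _ ⟨m, rfl⟩
    refine ⟨fun i => k * m i, ?_⟩
    rw [mtLat_g_apply, mtLat_g_apply]
    refine Finset.sum_congr rfl fun i _ => ?_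
    congr 1
    have hn' : (n : ℝ) ≠ 0 := by positivity
    have hk' : (k : ℝ) ≠ 0 := by positivity
    push_cast
    field_simp
  have hin : ∀ l ∈ LL, ∃ n : ℕ, 0 < n ∧ l ∈ (mtLat_g b n).range := by
    intro l hl
    obtain ⟨q, hq⟩ := hexp l hl
    obtain ⟨D, hD, k, hk⟩ := mtLat_denom q
    refine ⟨D, hD, k, ?_⟩
    rw [mtLat_g_apply, hq]
    refine Finset.sum_congr rfl fun i _ => ?_
    congr 1
    have h1 : ((k i : ℤ) : ℝ) = D * ((q i : ℚ) : ℝ) := by
      have := congrArg (fun x : ℚ => (x : ℝ)) (hk i)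
      push_cast at this
      exact this
    have hD' : (D : ℝ) ≠ 0 := by positivity
    rw [h1]
    field_simp
  -- the common denominator
  have hch : ∀ p : Sp d × Submodule ℝ (Sp d) × Submodule ℝ (Sp d), ∃ n : ℕ, 0 < n ∧
      ((∃ l ∈ LL, l ∈ p.2.2 ∧ p.1 - l ∈ p.2.1) →
        ∃ l ∈ (mtLat_g b n).range, l ∈ p.2.2 ∧ p.1 - l ∈ p.2.1) := by
    intro p
    by_cases hp : ∃ l ∈ LL, l ∈ p.2.2 ∧ p.1 - l ∈ p.2.1
    · obtain ⟨l, hl, h1, h2⟩ := hp
      obtain ⟨n, hn, hln⟩ := hin l hl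
      exact ⟨n, hn, fun _ => ⟨l, hln, h1, h2⟩⟩
    · exact ⟨1, one_pos, fun hp' => absurd hp' hp⟩
  choose nn hnn hnn2 using hch
  set n : ℕ := ∏ p ∈ hF.toFinset, nn p with hndef
  have hn0 : 0 < n := Finset.prod_pos fun p _ => hnn p
  have hn0' : (n : ℝ) ≠ 0 := by positivity
  -- the antilipschitz constant
  set T : (Fin e → ℝ) →ₗ[ℝ] Sp d := Fintype.linearCombination ℝ b with hT
  have hTapp : ∀ c, T c = ∑ i, c i • b i := fun c => Fintype.linearCombination_apply ℝ b c
  have hker : LinearMap.ker T = ⊥ := by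
    rw [LinearMap.ker_eq_bot']
    intro c hc
    rw [hTapp] at hc
    funext i
    exact Fintype.linearIndependent_iff.1 hli c hc i
  obtain ⟨K, hK0, hK⟩ := LinearMap.exists_antilipschitzWith T hker
  have hKb : ∀ c : Fin e → ℝ, ‖c‖ ≤ K * ‖T c‖ := by
    intro c
    have := hK.le_mul_dist c 0
    rwa [map_zero, dist_zero_right, dist_zero_right] at this
  set M : ℕ := ⌈2 * n * (K : ℝ)⌉₊ with hM
  have hbound : ∀ m : Fin e → ℤ, ‖mtLat_g b n m‖ ≤ 2 → m ∈ Fintype.piFinset
      (fun _ : Fin e => Finset.Icc (-(M : ℤ)) M) := by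
    intro m hm
    rw [Fintype.mem_piFinset]
    intro i
    have h1 := hKb (fun i => ((m i : ℤ) : ℝ) / n)
    rw [hTapp] at h1
    rw [mtLat_g_apply] at hm
    have h2 : ‖(fun i => ((m i : ℤ) : ℝ) / n) i‖ ≤ K * 2 :=
      (norm_le_pi_norm (fun i => ((m i : ℤ) : ℝ) / n) i).trans
        (h1.trans (mul_le_mul_of_nonneg_left hm K.2))
    have hn1 : (0 : ℝ) < n := by positivity
    simp only at h2
    rw [Real.norm_eq_abs, abs_div, abs_of_pos hn1, div_le_iff₀ hn1] at h2
    have h3 : |((m i : ℤ) : ℝ)| ≤ M := by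
      refine h2.trans (le_trans (le_of_eq ?_) (Nat.le_ceil _))
      ring
    rw [Finset.mem_Icc]
    have h4 := abs_le.1 h3
    constructor
    · have h5 : ((-(M : ℤ) : ℤ) : ℝ) ≤ ((m i : ℤ) : ℝ) := by push_cast; exact h4.1
      exact_mod_cast h5
    · have h5 : ((m i : ℤ) : ℝ) ≤ (((M : ℤ) : ℤ) : ℝ) := by push_cast; exact h4.2
      exact_mod_cast h5
  refine ⟨(mtLat_g b n).range,
    (Fintype.piFinset (fun _ : Fin e => Finset.Icc (-(M : ℤ)) M)).card, ?_, ?_, ?_, ?_⟩
  · rintro _ ⟨m, rfl⟩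
    exact hmemLL n m
  · intro l hl
    obtain ⟨D, hD, k, hk⟩ := hin l hl
    refine ⟨D, hD, fun i => n * k i, ?_⟩
    rw [← hk, mtLat_g_apply, mtLat_g_apply, Finset.smul_sum]
    refine Finset.sum_congr rfl fun i _ => ?_
    rw [← Nat.cast_smul_eq_nsmul ℝ, smul_smul]
    congr 1
    have hD' : (D : ℝ) ≠ 0 := by positivity
    push_cast
    field_simp
  · intro y G hG
    have h1 : ∑ z ∈ G, indN (mtLat_g b n).range z = (G.filter (fun z => z ∈ (mtLat_g b n).range)).card := by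
      rw [Finset.card_filter]
      refine Finset.sum_congr rfl fun z _ => ?_
      unfold indN
      rfl
    rw [h1]
    rcases (G.filter (fun z => z ∈ (mtLat_g b n).range)).eq_empty_or_nonempty with he' | ⟨z0, hz0⟩
    · rw [he']; simp
    · refine le_trans (Finset.card_le_card (t := (Fintype.piFinset (fun _ : Fin e =>
        Finset.Icc (-(M : ℤ)) M)).image (fun m => z0 + mtLat_g b n m)) ?_) Finset.card_image_le
      intro z hz
      rw [Finset.mem_filter] at hz hz0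
      have h2 : z - z0 ∈ (mtLat_g b n).range := AddSubgroup.sub_mem _ hz.2 hz0.2
      obtain ⟨m, hm⟩ := h2
      rw [Finset.mem_image]
      refine ⟨m, hbound m ?_, ?_⟩
      · rw [hm]
        calc ‖z - z0‖ = ‖(z - y) - (z0 - y)‖ := by congr 1; abel
          _ ≤ ‖z - y‖ + ‖z0 - y‖ := norm_sub_le _ _
          _ ≤ 1 + 1 := add_le_add (hG z hz.1) (hG z0 hz0.1)
          _ = 2 := by norm_num
      · rw [hm]; abel
  · intro p hp hp2
    obtain ⟨l, hl, h1, h2⟩ := hnn2 p hp2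
    refine ⟨l, ?_, h1, h2⟩
    obtain ⟨c, hc⟩ := Finset.dvd_prod_of_mem nn (hF.mem_toFinset.2 hp)
    have hc0 : 0 < c := by
      rcases Nat.eq_zero_or_pos c with h0 | h0
      · exfalso
        rw [h0, mul_zero] at hc
        exact hn0.ne' hc
      · exact h0
    have h3 := hmul (nn p) c (hnn p) hc0 hl
    rw [hndef, hc]
    exact h3

end Pool.Agent.MT
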