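import Pool.Agent.H73.MT.GeoDefs

/-!
# Module MT-G5: local finiteness, measurability and boundedness of `gfun C N`

* `LocB.finite`: a closed ball of radius `R` is covered by finitely many closed balls of radius `1`
  (sup norm of `Fin d → ℝ`; compactness), and in a closed unit ball every finite set of points with
  `N ≠ 0` has at most `C0` elements, so the set of all of them is finite.
* `gfun_eq_sum`: `conv Q` (finitely many `Q`) is bounded, so for `‖x‖ ≤ R` only `l` with
  `‖l‖ ≤ R + K` contribute; `F` = the finite set of those `l` with `N l ≠ 0`.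
* measurability: on every ball `gfun` is a finite sum of indicator functions of (translates of)
  compact convex hulls (`Set.Finite.isCompact_convexHull`), the balls of radius `n : ℕ` cover.
* boundedness: at most (number of unit balls covering a ball of radius `K`) `* C0` values `l`
  contribute at `x`, counted with multiplicity `N l`.
-/

namespace Pool.Agent.MT

open MeasureTheory Module Submodule

variable {d : ℕ}

theorem LocB.le {N : (Sp d) → ℕ} {C0 : ℕ} (hN : LocB N C0) (z : Sp d) : N z ≤ C0 := by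
  have := hN z {z} (by simp)
  simpa using this

private theorem mtMeas_cover (R : ℝ) : ∃ t : Finset (Sp d), ∀ x : Sp d, ‖x‖ ≤ R →
    ∃ y ∈ t, ‖x - y‖ ≤ 1 := by
  obtain ⟨t, -, ht, hc⟩ := (isCompact_closedBall (0 : Sp d) R).finite_cover_balls
    (e := 1) one_pos
  refine ⟨ht.toFinset, fun x hx => ?_⟩
  have hx' : x ∈ Metric.closedBall (0 : Sp d) R := by simpa using hx
  have := hc hx'
  simp only [Set.mem_iUnion, Metric.mem_ball, dist_eq_norm, exists_prop] at this
  obtain ⟨y, hy, hxy⟩ := this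
  exact ⟨y, ht.mem_toFinset.2 hy, hxy.le⟩

private theorem mtMeas_bound {N : (Sp d) → ℕ} {C0 : ℕ} (hN : LocB N C0) (R : ℝ) :
    ∃ B : ℕ, ∀ (z : Sp d) (F : Finset (Sp d)), (∀ l ∈ F, ‖l - z‖ ≤ R) → ∑ l ∈ F, N l ≤ B := by
  classical
  obtain ⟨t, ht⟩ := mtMeas_cover (d := d) R
  refine ⟨t.card * C0, fun z F hF => ?_⟩
  calc ∑ l ∈ F, N l ≤ ∑ l ∈ F, ∑ y ∈ t, (if ‖l - (z + y)‖ ≤ 1 then N l else 0) := by
        refine Finset.sum_le_sum fun l hl => ?_
        obtain ⟨y, hy, hly⟩ := ht (l - z) (hF l hl)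
        have h1 : N l = if ‖l - (z + y)‖ ≤ 1 then N l else 0 := by
          rw [if_pos (by rwa [← sub_sub])]
        calc N l = if ‖l - (z + y)‖ ≤ 1 then N l else 0 := h1
          _ ≤ _ := Finset.single_le_sum (f := fun y => if ‖l - (z + y)‖ ≤ 1 then N l else 0)
            (fun _ _ => Nat.zero_le _) hy
    _ = ∑ y ∈ t, ∑ l ∈ F, (if ‖l - (z + y)‖ ≤ 1 then N l else 0) := Finset.sum_comm
    _ ≤ ∑ y ∈ t, C0 := by
        refine Finset.sum_le_sum fun y _ => ?_
        rw [← Finset.sum_filter]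
        exact hN (z + y) _ (fun l hl => (Finset.mem_filter.1 hl).2)
    _ = t.card * C0 := by rw [Finset.sum_const, smul_eq_mul]

theorem LocB.finite {N : (Sp d) → ℕ} {C0 : ℕ} (hN : LocB N C0) (z : Sp d) (R : ℝ) :
    {l | N l ≠ 0 ∧ ‖l - z‖ ≤ R}.Finite := by
  obtain ⟨B, hB⟩ := mtMeas_bound hN R
  by_contra hcon
  obtain ⟨F, hF, hc⟩ := Set.Infinite.exists_subset_card_eq hcon (B + 1)
  have h1 := hB z F (fun l hl => (hF hl).2)
  have h2 : F.card ≤ ∑ l ∈ F, N l := by
    rw [Finset.card_eq_sum_ones]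
    exact Finset.sum_le_sum fun l hl => Nat.one_le_iff_ne_zero.2 (hF hl).1
  omega

/-- there is `K` such that only `l` with `‖x - l‖ ≤ K` contribute to `gfun C N x` -/
theorem exists_bound (C : Comb d) : ∃ K : ℝ, 0 ≤ K ∧ ∀ Q ∈ C.support,
    ∀ p ∈ convexHull ℝ (Q : Set (Sp d)), ‖p‖ ≤ K := by
  have h1 : Bornology.IsBounded (⋃ Q ∈ C.support, convexHull ℝ (Q : Set (Sp d))) := by
    rw [Bornology.isBounded_biUnion_finset]
    intro Q _
    exact (isBounded_convexHull.2 Q.finite_toSet.isBounded)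
  obtain ⟨K, hK⟩ := h1.exists_norm_le
  refine ⟨max K 0, le_max_right _ _, fun Q hQ p hp => ?_⟩
  refine (hK p ?_).trans (le_max_left _ _)
  simp only [Set.mem_iUnion]
  exact ⟨Q, hQ, hp⟩

private theorem mtMeas_supp (C : Comb d) {K : ℝ} (hK : ∀ Q ∈ C.support,
    ∀ p ∈ convexHull ℝ (Q : Set (Sp d)), ‖p‖ ≤ K) (y : Sp d)
    (h : (C.sum fun Q c => c * ind (convexHull ℝ (Q : Set (Sp d))) y) ≠ 0) : ‖y‖ ≤ K := by
  obtain ⟨Q, hQ, hQ2⟩ := Finset.exists_ne_zero_of_sum_ne_zero h
  have h3 : y ∈ convexHull ℝ (Q : Set (Sp d)) := by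
    by_contra hcon
    apply hQ2
    simp [ind, hcon]
  exact hK Q hQ y h3

theorem gfun_eq_sum {N : (Sp d) → ℕ} {C0 : ℕ} (hN : LocB N C0) (C : Comb d) (z : Sp d)
    (R : ℝ) : ∃ F : Finset (Sp d), ∀ x : Sp d, ‖x - z‖ ≤ R →
      gfun C N x = ∑ l ∈ F, (N l : ℤ) *
        C.sum fun Q c => c * ind (convexHull ℝ (Q : Set (Sp d))) (x - l) := by
  obtain ⟨K, hK0, hK⟩ := exists_bound C
  refine ⟨(hN.finite z (R + K)).toFinset, fun x hx => ?_⟩
  unfold gfun
  refine finsum_eq_sum_of_support_subset _ ?_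
  intro l hl
  rw [Function.mem_support] at hl
  rw [Set.Finite.coe_toFinset]
  refine ⟨fun h => hl (by rw [h]; simp), ?_⟩
  have h2 := mtMeas_supp C hK (x - l) (fun h => hl (by rw [h]; simp))
  calc ‖l - z‖ = ‖(x - z) - (x - l)‖ := by congr 1; abel
    _ ≤ ‖x - z‖ + ‖x - l‖ := norm_sub_le _ _
    _ ≤ R + K := by linarith

private theorem mtMeas_ind {A : Set (Sp d)} (hA : MeasurableSet A) : Measurable (ind A) := by
  classical
  unfold ind
  exact Measurable.ite hA measurable_const measurable_const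

theorem gfun_measurable {N : (Sp d) → ℕ} {C0 : ℕ} (hN : LocB N C0) (C : Comb d) :
    Measurable (gfun C N) := by
  have h1 : ∀ n : ℕ, ∃ F : Finset (Sp d), ∀ x : Sp d, ‖x - 0‖ ≤ n →
      gfun C N x = ∑ l ∈ F, (N l : ℤ) *
        C.sum fun Q c => c * ind (convexHull ℝ (Q : Set (Sp d))) (x - l) :=
    fun n => gfun_eq_sum hN C 0 n
  choose F hF using h1
  have h2 : ∀ n : ℕ, Measurable (fun x : Sp d => ∑ l ∈ F n, (N l : ℤ) *
        C.sum fun Q c => c * ind (convexHull ℝ (Q : Set (Sp d))) (x - l)) := by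
    intro n
    refine Finset.measurable_sum _ fun l _ => ?_
    refine Measurable.const_mul ?_ _
    unfold Finsupp.sum
    refine Finset.measurable_sum _ fun Q _ => ?_
    refine Measurable.const_mul ?_ _
    refine (mtMeas_ind ?_).comp (measurable_id.sub_const l)
    exact (Q.finite_toSet.isCompact_convexHull ℝ).isClosed.measurableSet
  intro s hs
  have h3 : gfun C N ⁻¹' s = ⋃ n : ℕ, (Metric.closedBall (0 : Sp d) n ∩
      (fun x : Sp d => ∑ l ∈ F n, (N l : ℤ) *
        C.sum fun Q c => c * ind (convexHull ℝ (Q : Set (Sp d))) (x - l)) ⁻¹' s) := by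
    ext x
    simp only [Set.mem_preimage, Set.mem_iUnion, Set.mem_inter_iff, Metric.mem_closedBall,
      dist_eq_norm]
    constructor
    · intro hx
      obtain ⟨n, hn⟩ := exists_nat_ge ‖x - 0‖
      exact ⟨n, hn, by rw [← hF n x hn]; exact hx⟩
    · rintro ⟨n, hn, hx⟩
      rw [hF n x hn]; exact hx
  rw [h3]
  exact MeasurableSet.iUnion fun n => Metric.isClosed_closedBall.measurableSet.inter (h2 n hs)

theorem gfun_bounded {N : (Sp d) → ℕ} {C0 : ℕ} (hN : LocB N C0) (C : Comb d) :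
    ∃ B : ℤ, ∀ x, |gfun C N x| ≤ B := by
  classical
  obtain ⟨K, hK0, hK⟩ := exists_bound C
  obtain ⟨B, hB⟩ := mtMeas_bound hN K
  set M : ℤ := ∑ Q ∈ C.support, |C Q| with hM
  have hM0 : 0 ≤ M := Finset.sum_nonneg fun Q _ => abs_nonneg _
  refine ⟨B * M, fun x => ?_⟩
  obtain ⟨F, hF⟩ := gfun_eq_sum hN C x 0
  rw [hF x (by simp)]
  have hterm : ∀ y : Sp d, |C.sum fun Q c => c * ind (convexHull ℝ (Q : Set (Sp d))) y| ≤ M := by
    intro y
    unfold Finsupp.sum
    refine (Finset.abs_sum_le_sum_abs _ _).trans (Finset.sum_le_sum fun Q _ => ?_)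
    rw [abs_mul]
    refine mul_le_of_le_one_right (abs_nonneg _) ?_
    unfold ind
    split_ifs <;> simp
  calc |∑ l ∈ F, (N l : ℤ) * C.sum fun Q c => c * ind (convexHull ℝ (Q : Set (Sp d))) (x - l)|
      = |∑ l ∈ F with ‖l - x‖ ≤ K, (N l : ℤ) *
          C.sum fun Q c => c * ind (convexHull ℝ (Q : Set (Sp d))) (x - l)| := by
        rw [Finset.sum_filter_of_ne]
        intro l _ hl
        rw [norm_sub_rev]
        exact mtMeas_supp C hK (x - l) (fun h => hl (by rw [h]; simp))
    _ ≤ ∑ l ∈ F with ‖l - x‖ ≤ K, |(N l : ℤ) *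
          C.sum fun Q c => c * ind (convexHull ℝ (Q : Set (Sp d))) (x - l)| :=
        Finset.abs_sum_le_sum_abs _ _
    _ ≤ ∑ l ∈ F with ‖l - x‖ ≤ K, (N l : ℤ) * M := by
        refine Finset.sum_le_sum fun l _ => ?_
        rw [abs_mul, Nat.abs_cast]
        exact mul_le_mul_of_nonneg_left (hterm _) (Nat.cast_nonneg _)
    _ = (∑ l ∈ F with ‖l - x‖ ≤ K, N l : ℕ) * M := by
        rw [← Finset.sum_mul]; push_cast; rfl
    _ ≤ B * M := by
        refine mul_le_mul_of_nonneg_right ?_ hM0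
        exact_mod_cast hB x _ (fun l hl => (Finset.mem_filter.1 hl).2)

private theorem mtMeas_fin {N : (Sp d) → ℕ} {C0 : ℕ} (hN : LocB N C0) (C : Comb d) (x : Sp d) :
    (Function.support fun l : Sp d => (N l : ℤ) *
      C.sum fun Q c => c * ind (convexHull ℝ (Q : Set (Sp d))) (x - l)).Finite := by
  obtain ⟨K, hK0, hK⟩ := exists_bound C
  refine (hN.finite x K).subset ?_
  intro l hl
  rw [Function.mem_support] at hl
  refine ⟨fun h => hl (by rw [h]; simp), ?_⟩
  rw [norm_sub_rev]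
  exact mtMeas_supp C hK (x - l) (fun h => hl (by rw [h]; simp))

/-- `gfun` is additive in `C` -/
theorem gfun_add {N : (Sp d) → ℕ} {C0 : ℕ} (hN : LocB N C0) (C C' : Comb d)
    (x : Sp d) : gfun (C + C') N x = gfun C N x + gfun C' N x := by
  classical
  unfold gfun
  rw [← finsum_add_distrib (mtMeas_fin hN C x) (mtMeas_fin hN C' x)]
  refine finsum_congr fun l => ?_
  rw [← mul_add]
  congr 1
  exact Finsupp.sum_add_index' (fun _ => by simp) (fun _ _ _ => by ring)

private theorem mtMeas_le {f g : Sp d → ℝ} (hf : (Function.support f).Finite)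
    (hg : (Function.support g).Finite) (h : ∀ l, f l ≤ g l) : ∑ᶠ l, f l ≤ ∑ᶠ l, g l := by
  rw [finsum_eq_sum_of_support_subset f (s := (hf.union hg).toFinset)
      (by rw [Set.Finite.coe_toFinset]; exact Set.subset_union_left),
    finsum_eq_sum_of_support_subset g (s := (hf.union hg).toFinset)
      (by rw [Set.Finite.coe_toFinset]; exact Set.subset_union_right)]
  exact Finset.sum_le_sum fun l _ => h l

private theorem mtMeas_tent_zero {R : ℝ} (hR : 0 < R) {z l : Sp d} (h : R < ‖l - z‖) :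
    tent R z l = 0 := by
  unfold tent
  refine max_eq_left ?_
  have : 1 < ‖l - z‖ / R := by rwa [lt_div_iff₀ hR, one_mul]
  linarith

private theorem mtMeas_tent_nonneg (R : ℝ) (z l : Sp d) : 0 ≤ tent R z l := le_max_left _ _

private theorem mtMeas_tent_le_one {R : ℝ} (hR : 0 < R) (z l : Sp d) : tent R z l ≤ 1 := by
  unfold tent
  refine max_le zero_le_one ?_
  have : 0 ≤ ‖l - z‖ / R := div_nonneg (norm_nonneg _) hR.le
  linarith

/-- only finitely many points contribute to `fsum` -/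
theorem fsum_support_finite {N : Sp d → ℕ} {C0 : ℕ} (hN : LocB N C0) (z : Sp d) {R : ℝ}
    (hR : 0 < R) : {l : Sp d | (N l : ℝ) * tent R z l ≠ 0}.Finite := by
  refine (hN.finite z R).subset ?_
  intro l hl
  have hl' : (N l : ℝ) * tent R z l ≠ 0 := hl
  refine ⟨fun h => hl' (by rw [h]; simp), ?_⟩
  by_contra hcon
  exact hl' (by rw [mtMeas_tent_zero hR (not_le.1 hcon), mul_zero])

private theorem mtMeas_cntV_fin {N : Sp d → ℕ} {C0 : ℕ} (hN : LocB N C0)
    (V : Submodule ℝ (Sp d)) (y z : Sp d) (R : ℝ) :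
    (Function.support fun l : Sp d =>
      open Classical in if l - y ∈ V ∧ ‖l - z‖ ≤ R then (N l : ℝ) else 0).Finite := by
  classical
  refine (hN.finite z R).subset ?_
  intro l hl
  rw [Function.mem_support] at hl
  by_cases h : l - y ∈ V ∧ ‖l - z‖ ≤ R
  · exact ⟨fun h0 => hl (by rw [if_pos h, h0]; simp), h.2⟩
  · exact absurd (if_neg h) hl

/-- `0 ≤ fsum ≤ cntV` -/
theorem fsum_le_cntV {N : Sp d → ℕ} {C0 : ℕ} (hN : LocB N C0)
    (V : Submodule ℝ (Sp d)) (y z : Sp d) {R : ℝ} (hR : 0 < R) :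
    0 ≤ fsum N V.toAddSubgroup y z R ∧ fsum N V.toAddSubgroup y z R ≤ cntV N V y z R := by
  classical
  constructor
  · refine finsum_nonneg fun l => ?_
    split_ifs
    · exact mul_nonneg (Nat.cast_nonneg _) (mtMeas_tent_nonneg _ _ _)
    · exact le_rfl
  · unfold fsum cntV
    refine mtMeas_le ?_ (mtMeas_cntV_fin hN V y z R) ?_
    · refine (fsum_support_finite hN z hR).subset ?_
      intro l hl
      rw [Function.mem_support] at hl
      by_cases h : l - y ∈ V.toAddSubgroup
      · rw [if_pos h] at hl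
        exact hl
      · exact absurd (if_neg h) hl
    · intro l
      by_cases h : l - y ∈ V
      · by_cases h2 : ‖l - z‖ ≤ R
        · simp only [Submodule.mem_toAddSubgroup, h, h2, and_self, if_true]
          exact mul_le_of_le_one_right (Nat.cast_nonneg _) (mtMeas_tent_le_one hR _ _)
        · simp only [Submodule.mem_toAddSubgroup, h, h2, and_false, if_true, if_false]
          rw [mtMeas_tent_zero hR (not_le.1 h2), mul_zero]
      · simp only [Submodule.mem_toAddSubgroup, h, false_and, if_false]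
        exact le_rfl

/-- `cntV` is the sum over a finite set and increasing in `R` -/
theorem cntV_nonneg (N : Sp d → ℕ) (V : Submodule ℝ (Sp d)) (y z : Sp d) (R : ℝ) :
    0 ≤ cntV N V y z R := by
  classical
  refine finsum_nonneg fun l => ?_
  split_ifs
  · exact Nat.cast_nonneg _
  · exact le_rfl

theorem cntV_mono {N : Sp d → ℕ} {C0 : ℕ} (hN : LocB N C0) (V : Submodule ℝ (Sp d))
    (y z : Sp d) {R R' : ℝ} (h : R ≤ R') : cntV N V y z R ≤ cntV N V y z R' := by
  classical
  unfold cntV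
  refine mtMeas_le (mtMeas_cntV_fin hN V y z R) (mtMeas_cntV_fin hN V y z R') ?_
  intro l
  by_cases h1 : l - y ∈ V ∧ ‖l - z‖ ≤ R
  · simp only [h1, h1.2.trans h, and_self, if_true]
    exact le_rfl
  · simp only [h1, if_false]
    split_ifs
    · exact Nat.cast_nonneg _
    · exact le_rfl

end Pool.Agent.MT
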