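import Mathlib

/-!
# Project MT (MP_5140a6_co): the closure of a point under finitely many inflationary operations is finite

`Reach op a` is the smallest set containing `a` and stable under all `op i`.  If the order has a
strictly monotone bounded rank and all operations are inflationary, it is finite.
-/

namespace Pool.Agent.H73.MT

/-- The elements reachable from `a` with the operations `op i`. -/
inductive Reach {α ι : Type*} (op : ι → α → α) (a : α) : α → Prop
  | base : Reach op a a
  | step (i : ι) (x : α) : Reach op a x → Reach op a (op i x)

theorem reach_finite {α ι : Type*} [Finite ι] [PartialOrder α] (rk : α → ℕ) (hrk : StrictMono rk)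
    (d : ℕ) (hd : ∀ x, rk x ≤ d) (op : ι → α → α) (hop : ∀ i x, x ≤ op i x) (a : α) :
    {x | Reach op a x}.Finite := by
  classical
  cases nonempty_fintype ι
  have key : ∀ n : ℕ, ∃ F : Set α, F.Finite ∧ ∀ x, Reach op a x → rk x < n → x ∈ F := by
    intro n
    induction n with
    | zero => exact ⟨∅, Set.finite_empty, fun x _ h => absurd h (by omega)⟩
    | succ n ih =>
      obtain ⟨F, hF, hF'⟩ := ih
      refine ⟨{a} ∪ F ∪ ⋃ i, op i '' F, ?_, ?_⟩
      · exact ((Set.finite_singleton a).union hF).union
          (Set.finite_iUnion fun i => hF.image (op i))
      · intro x hx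
        induction hx with
        | base => intro _; left; left; rfl
        | step i y hy ihy =>
          intro hlt
          have hle : y ≤ op i y := hop i y
          rcases hle.lt_or_eq with h | h
          · have h1 : rk y < rk (op i y) := hrk h
            right
            exact Set.mem_iUnion.2 ⟨i, y, hF' y hy (by omega), rfl⟩
          · rw [← h] at hlt ⊢
            exact ihy hlt
  obtain ⟨F, hF, hF'⟩ := key (d + 1)
  exact hF.subset fun x hx => hF' x hx (Nat.lt_succ_of_le (hd x))

end Pool.Agent.H73.MT
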