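import Pool.Agent.H73.MT.ABC
import Pool.Agent.H73.MT.Flat
import Pool.Agent.H73.MT.Lat
import Pool.Agent.H73.MT.Comp

/-!
# Project MT: Proposition (**) and the end (6'.5, 6'.6 of h73_sec6.md)
-/

namespace Pool.Agent.MT

open MeasureTheory Module Submodule Pool.Agent.H73.MT

variable {d : ℕ}

open Classical in
/-- the sum of the weights over one class modulo `G` -/
noncomputable def csum (a : Sp d →₀ ℝ) (G : AddSubgroup (Sp d)) (y : Sp d) : ℝ :=
  a.sum fun v r => if y - v ∈ G then r else 0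

theorem clsum_eq (Γ : AddSubgroup (Sp d)) (V : Submodule ℝ (Sp d)) (C : Comb d) (x : Sp d) :
    clsum Γ V C x = csum (wt V C) (Γ ⊔ V.toAddSubgroup) x := rfl

open Classical in
theorem csum_eq_filter (a : Sp d →₀ ℝ) (G : AddSubgroup (Sp d)) (y : Sp d) :
    csum a G y = ∑ v ∈ a.support with y - v ∈ G, a v := by
  rw [csum, Finsupp.sum, Finset.sum_filter]

/-- if the class sums modulo `G` vanish so do those modulo a larger group -/
theorem csum_mono {a : Sp d →₀ ℝ} {G G' : AddSubgroup (Sp d)} (hG : G ≤ G')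
    (h : ∀ y, csum a G y = 0) (y : Sp d) : csum a G' y = 0 := by
  classical
  rw [csum_eq_filter]
  set T := a.support.filter fun v => y - v ∈ G' with hT
  have h1 : ∑ v ∈ T, a v = ∑ c ∈ T.image (fun v => (QuotientAddGroup.mk v : Sp d ⧸ G)),
      ∑ v ∈ T with (QuotientAddGroup.mk v : Sp d ⧸ G) = c, a v := by
    rw [Finset.sum_fiberwise_of_maps_to]
    intro v hv
    exact Finset.mem_image_of_mem _ hv
  rw [h1]
  apply Finset.sum_eq_zero
  intro c hc
  obtain ⟨v0, hv0, rfl⟩ := Finset.mem_image.1 hc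
  have h2 := h v0
  rw [csum_eq_filter] at h2
  rw [← h2]
  apply Finset.sum_congr _ fun _ _ => rfl
  ext v
  simp only [Finset.mem_filter, hT, QuotientAddGroup.eq]
  have hv0' := (Finset.mem_filter.1 hv0).2
  constructor
  · rintro ⟨⟨hv, _⟩, h3⟩
    refine ⟨hv, ?_⟩
    convert h3 using 1
    abel
  · rintro ⟨hv, h3⟩
    refine ⟨⟨hv, ?_⟩, ?_⟩
    · have := G'.add_mem hv0' (hG h3)
      convert this using 1
      abel
    · convert h3 using 1
      abel

/-- two groups which define the same relation on the support -/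
theorem csum_congr {a : Sp d →₀ ℝ} {G G' : AddSubgroup (Sp d)}
    (hG : ∀ v ∈ a.support, ∀ w ∈ a.support, v - w ∈ G ↔ v - w ∈ G')
    (h : ∀ y, csum a G y = 0) (y : Sp d) : csum a G' y = 0 := by
  classical
  rw [csum_eq_filter]
  by_cases hne : ∃ v0 ∈ a.support, y - v0 ∈ G'
  · obtain ⟨v0, hv0, hy⟩ := hne
    have h2 := h v0
    rw [csum_eq_filter] at h2
    rw [← h2]
    apply Finset.sum_congr _ fun _ _ => rfl
    ext v
    simp only [Finset.mem_filter]
    constructor
    · rintro ⟨hv, h3⟩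
      refine ⟨hv, (hG v0 hv0 v hv).2 ?_⟩
      have := G'.sub_mem h3 hy
      convert this using 1
      abel
    · rintro ⟨hv, h3⟩
      refine ⟨hv, ?_⟩
      have := G'.add_mem hy ((hG v0 hv0 v hv).1 h3)
      convert this using 1
      abel
  · push Not at hne
    apply Finset.sum_eq_zero
    intro v hv
    exact absurd (Finset.mem_filter.1 hv).2 (hne v (Finset.mem_filter.1 hv).1)

theorem csum_zero (G : AddSubgroup (Sp d)) (y : Sp d) : csum 0 G y = 0 := by
  simp [csum]

theorem locB_mono {Γ L : AddSubgroup (Sp d)} {C1 : ℕ} (h : LocB (indN L) C1) (hle : Γ ≤ L) :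
    LocB (indN Γ) C1 := by
  classical
  intro y F hF
  refine le_trans (Finset.sum_le_sum fun z _ => ?_) (h y F hF)
  unfold indN
  by_cases hz : z ∈ Γ
  · rw [if_pos hz, if_pos (hle hz)]
  · rw [if_neg hz]; exact Nat.zero_le _

variable {S : Finset (Sp d)} {FD : Set (Submodule ℝ (Sp d) × (Sp d → ℝ))}
  {VV : Set (Submodule ℝ (Sp d))} {EE : Submodule ℝ (Sp d)}
  {Y : Submodule ℝ (Sp d) → Submodule ℚ (Sp d)} {LL : Submodule ℚ (Sp d)}

/-- the finite set of conditions for the lattice -/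
def conds (S : Finset (Sp d)) (VV : Set (Submodule ℝ (Sp d))) (EE : Submodule ℝ (Sp d))
    (Y : Submodule ℝ (Sp d) → Submodule ℚ (Sp d)) :
    Set (Sp d × Submodule ℝ (Sp d) × Submodule ℝ (Sp d)) :=
  dif S ×ˢ ((fun D3 : Set (Sp d) => span ℝ D3) '' {D3 | D3 ⊆ dif S}) ×ˢ
    (((fun U => rs (Y U)) '' VV) ∪ {EE})

theorem dif_finite (S : Finset (Sp d)) : (dif S).Finite := by
  classical
  apply (S.product S).finite_toSet.image (fun p => p.1 - p.2) |>.subset
  rintro v ⟨a, ha, b, hb, rfl⟩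
  exact ⟨(a, b), by simpa using ⟨ha, hb⟩, rfl⟩

theorem conds_finite (S : Finset (Sp d)) {VV : Set (Submodule ℝ (Sp d))} (hVV : VV.Finite)
    (EE : Submodule ℝ (Sp d)) (Y : Submodule ℝ (Sp d) → Submodule ℚ (Sp d)) :
    (conds S VV EE Y).Finite := by
  have h1 := dif_finite S
  exact h1.prod ((h1.finite_subsets.image _).prod ((hVV.image _).union (Set.finite_singleton _)))

/-- the data of the fine lattice -/
structure Fine (S : Finset (Sp d)) (VV : Set (Submodule ℝ (Sp d))) (EE : Submodule ℝ (Sp d))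
    (Y : Submodule ℝ (Sp d) → Submodule ℚ (Sp d)) (LL : Submodule ℚ (Sp d))
    (L : AddSubgroup (Sp d)) (C1 : ℕ) : Prop where
  sub : ∀ l ∈ L, l ∈ LL
  mul : ∀ l ∈ LL, ∃ n : ℕ, 0 < n ∧ n • l ∈ L
  loc : LocB (indN L) C1
  cond : ∀ p ∈ conds S VV EE Y, (∃ l ∈ LL, l ∈ p.2.2 ∧ p.1 - l ∈ p.2.1) →
    ∃ l ∈ L, l ∈ p.2.2 ∧ p.1 - l ∈ p.2.1

/-- On `S` the classes modulo `V + (LL ∩ W)` are the classes modulo `V + (L ∩ W)`. -/
theorem mtStar_iff {L : AddSubgroup (Sp d)} {C1 : ℕ} (hL : Fine S VV EE Y LL L C1)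
    {V W : Submodule ℝ (Sp d)} {D3 : Set (Sp d)} (hD3 : D3 ⊆ dif S) (hV : V = span ℝ D3)
    (hW : W ∈ ((fun U => rs (Y U)) '' VV) ∪ {EE}) {v w : Sp d} (hv : v ∈ S) (hw : w ∈ S) :
    v - w ∈ (rq V ⊔ part LL W).toAddSubgroup ↔
      v - w ∈ (L ⊓ W.toAddSubgroup) ⊔ V.toAddSubgroup := by
  constructor
  · intro h
    have h' : v - w ∈ rq V ⊔ part LL W := h
    obtain ⟨x, hx, l, hl, hxl⟩ := Submodule.mem_sup.1 h'
    have hl' := mem_part.1 hl
    have hc := hL.cond (v - w, V, W) ⟨⟨v, hv, w, hw, rfl⟩, ⟨D3, hD3, hV.symm⟩, hW⟩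
      ⟨l, hl'.1, hl'.2, by
        have : v - w - l = x := by rw [← hxl]; abel
        rw [this]; simpa using hx⟩
    obtain ⟨l', h1, h2, h3⟩ := hc
    refine AddSubgroup.mem_sup.2 ⟨l', ⟨h1, h2⟩, v - w - l', h3, by abel⟩
  · intro h
    obtain ⟨l, hl, x, hx, hxl⟩ := AddSubgroup.mem_sup.1 h
    change v - w ∈ rq V ⊔ part LL W
    rw [← hxl, add_comm]
    refine Submodule.add_mem_sup ?_ (mem_part.2 ⟨hL.sub l hl.1, hl.2⟩)
    exact hx

/-- a real subspace spanned by its intersection with `L` is rational -/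
theorem mtStar_rat {L : AddSubgroup (Sp d)} {V : Submodule ℝ (Sp d)} (hsub : ∀ l ∈ L, l ∈ LL)
    (h : span ℝ ((L : Set (Sp d)) ∩ V) = V) : IsRat LL V := by
  rw [isRat_iff]
  conv_lhs => rw [← h]
  exact span_mono fun x hx => mem_part.2 ⟨hsub x hx.1, hx.2⟩

/-- Proposition (**). -/
theorem star (st : Struc S FD VV EE Y) (hFD : FDat S ⊆ FD) (hS : S.Nonempty)
    (hc : Compat VV EE Y LL) {L : AddSubgroup (Sp d)} {C1 : ℕ} (hL : Fine S VV EE Y LL L C1) :
    ∀ (n : ℕ) (V : Submodule ℝ (Sp d)) (C : Comb d), finrank ℝ V = n → Chain S V C → V ≠ ⊤ →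
      V ≤ EE → IsRat LL V →
      ∃ U ∈ VV, U ≤ V ∧ ∀ y, csum (wt V C) (rq V ⊔ part LL (rs (Y U))).toAddSubgroup y = 0 := by
  classical
  intro n
  induction n using Nat.strong_induction_on with
  | _ n ih =>
  intro V C hn hVC hVtop hVE hrat
  by_cases hw : wt V C = 0
  · exact ⟨⊥, st.bot_mem, bot_le, fun y => by rw [hw]; exact csum_zero _ _⟩
  obtain ⟨D3, hD3, hVD⟩ := wt_flat hS hVC hw
  have hsupp : ∀ v ∈ (wt V C).support, v ∈ S := fun v hv => wt_support hS hVC hv
  obtain ⟨U, hU, hUV, hcap⟩ := core st hc hrat hD3 hVD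
  by_cases hUeq : U = V
  · -- goodness
    subst hUeq
    refine ⟨U, hU, le_rfl, fun y => ?_⟩
    rw [← Y_eq st hc hU]
    have hg := st.good U hU (fun v => wt U C v) (hFD ⟨C, hVC, hVtop, rfl⟩) y
    rw [csum_eq_filter, ← hg]
    apply Finset.sum_subset_zero_on_sdiff
    · intro v hv
      have hv' := Finset.mem_filter.1 hv
      refine Finset.mem_filter.2 ⟨hsupp v hv'.1, ?_⟩
      have h1 : y - v ∈ Y U := hv'.2
      have := (Y U).neg_mem h1
      simpa using this
    · intro v hv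
      have hv' := Finset.mem_sdiff.1 hv
      have h1 := Finset.mem_filter.1 hv'.1
      by_contra hne
      apply hv'.2
      refine Finset.mem_filter.2 ⟨Finsupp.mem_support_iff.2 hne, ?_⟩
      have h2 : v - y ∈ Y U := h1.2
      have := (Y U).neg_mem h2
      change y - v ∈ Y U
      simpa using this
    · intro v _
      rfl
  · refine ⟨U, hU, hUV, ?_⟩
    set W := rs (Y U) with hW
    have hWm : W ∈ ((fun U => rs (Y U)) '' VV) ∪ {EE} := Or.inl ⟨U, hU, rfl⟩
    set Γ : AddSubgroup (Sp d) := L ⊓ W.toAddSubgroup with hΓ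
    have hΓL : Γ ≤ L := inf_le_left
    have hΓloc : LocB (indN Γ) C1 := locB_mono hL.loc hΓL
    have hrel := lemmaC hS hΓloc V (by
      intro V' C' hVC' hV'top hV'V hsp x
      have hsub : ∀ l ∈ Γ, l ∈ LL := fun l hl => hL.sub l (hΓL hl)
      have hrat' : IsRat LL V' := mtStar_rat hsub hsp
      have hV'W : V' ≤ W := by
        rw [← hsp, span_le]
        intro y hy
        exact hy.1.2
      have hV'U : V' ≤ U := by
        rw [← hcap]; exact le_inf hV'V hV'W
      have hlt : finrank ℝ V' < n := by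
        rw [← hn]
        apply Submodule.finrank_lt_finrank_of_lt
        exact lt_of_le_of_lt hV'U (lt_of_le_of_ne hUV hUeq)
      obtain ⟨U', hU', hU'V', hcs⟩ := ih _ hlt V' C' rfl hVC' hV'top (hV'V.trans hVE) hrat'
      have hmono : rs (Y U') ≤ W :=
        mtComp_rs_mono (st.mono U' hU' U hU (hU'V'.trans hV'U))
      have hle : (rq V' ⊔ part LL (rs (Y U'))).toAddSubgroup ≤
          (rq V' ⊔ part LL W).toAddSubgroup := by
        apply Submodule.toAddSubgroup_mono
        exact sup_le_sup_left (inf_le_inf_left _ (fun y hy => hmono hy)) _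
      have hcs2 : ∀ y, csum (wt V' C') (rq V' ⊔ part LL W).toAddSubgroup y = 0 :=
        csum_mono hle hcs
      rw [clsum_eq]
      by_cases hw' : wt V' C' = 0
      · rw [hw']; exact csum_zero _ _
      obtain ⟨D3', hD3', hVD'⟩ := wt_flat hS hVC' hw'
      have hsupp' : ∀ v ∈ (wt V' C').support, v ∈ S := fun v hv => wt_support hS hVC' hv
      exact csum_congr (fun v hv w hw => mtStar_iff hL hD3' hVD' hWm (hsupp' v hv) (hsupp' w hw))
        hcs2 x)
    have hA := lemmaA hΓloc (chain_adapted hS hVC) (hrel V C hVC hVtop le_rfl)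
    intro y
    refine csum_congr (fun v hv w hw => ?_) (fun z => by rw [← clsum_eq]; exact hA z) y
    exact (mtStar_iff hL hD3 hVD hWm (hsupp v hv) (hsupp w hw)).symm

/-- The end: `P` has a.e. constant multiplicity with the lattice `L`. -/
theorem mt_end (st : Struc S FD VV EE Y) (hFD : FDat S ⊆ FD) (hS : S.Nonempty)
    (hc : Compat VV EE Y LL) : ∃ (L : AddSubgroup (Sp d)) (C1 : ℕ), LocB (indN L) C1 ∧
      ∃ κ : ℤ, ∀ᵐ x : Sp d, gfun (Finsupp.single S 1) (indN L) x = κ := by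
  classical
  obtain ⟨L, C1, h1, h2, h3, h4⟩ :=
    exists_fine_lattice hc.form (conds S VV EE Y) (conds_finite S st.fin EE Y)
  have hL : Fine S VV EE Y LL L C1 := ⟨h1, h2, h3, h4⟩
  refine ⟨L, C1, h3, const_of_chain_rel hS h3 ?_⟩
  have key := lemmaC hS h3 ⊤ (by
    intro V C hVC hVtop _ hsp x
    have hrat : IsRat LL V := mtStar_rat h1 hsp
    have hLE : ∀ l ∈ L, l ∈ EE := fun l hl => hc.span_eq ▸ subset_span (h1 l hl)
    have hVE : V ≤ EE := by
      rw [← hsp, span_le]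
      intro y hy
      exact hLE y hy.1
    obtain ⟨U, hU, hUV, hcs⟩ := star st hFD hS hc hL _ V C rfl hVC hVtop hVE hrat
    have hle : (rq V ⊔ part LL (rs (Y U))).toAddSubgroup ≤
        (rq V ⊔ part LL EE).toAddSubgroup := by
      apply Submodule.toAddSubgroup_mono
      refine sup_le_sup_left (inf_le_inf_left _ (fun y hy => ?_)) _
      exact st.le_top _ (st.pl_mem U hU) hy
    have hcs2 : ∀ y, csum (wt V C) (rq V ⊔ part LL EE).toAddSubgroup y = 0 := csum_mono hle hcs
    rw [clsum_eq]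
    by_cases hw : wt V C = 0
    · rw [hw]; exact csum_zero _ _
    obtain ⟨D3, hD3, hVD⟩ := wt_flat hS hVC hw
    have hsupp : ∀ v ∈ (wt V C).support, v ∈ S := fun v hv => wt_support hS hVC hv
    have hLinf : L = L ⊓ EE.toAddSubgroup := by
      symm
      rw [inf_eq_left]
      exact hLE
    rw [hLinf]
    exact csum_congr (fun v hv w hw => mtStar_iff hL hD3 hVD (Or.inr rfl) (hsupp v hv)
      (hsupp w hw)) hcs2 x)
  intro V C hVC hVtop
  exact key V C hVC hVtop le_top

end Pool.Agent.MT
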