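import Pool.Agent.H73.MT.Meas
import Pool.Agent.H73.MT.Basics

/-!
# Module MT-G2: `gfun` on a coset `x + V`, written in coordinates `V ≃ ℝ^s × ℝ`

`Ψ : E → ℝ^s × ℝ` linear, `Φ : ℝ^s × ℝ ≃ V` linear with `Ψ (Φ p) = p`.  The index type is
`ι x V C N = {(l, Q) | N l ≠ 0, Q ∈ supp C, base Q + l - x ∈ V}`, the finite sets are
`QQ (l, Q) = Ψ (l + Q - x)`, the coefficients `cc (l, Q) = N l * C Q`.
If `Q ∈ supp C` and `l` are such that `base Q + l - x ∉ V` then `l + conv Q` does not meet `x + V`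
(`Q` lies in one coset of `V`).  Otherwise `l + Q - x ⊆ V`, `Ψ` is injective on `V`, and
`x + Φ p - l ∈ conv Q ↔ p ∈ conv (QQ (l, Q))` (`LinearMap.image_convexHull` or `AffineMap`).
`topf α (QQ (l, Q)) = Ψ (l + amax φ Q - x)` if `φ (Φ (y, t)) = t - ⟨α, y⟩` (and the same for `botf`,
`amin`), as `φ` on `l + Q - x ⊆ V` is the functional `t - ⟨α, y⟩` of `Ψ`.
Countability: `{l | N l ≠ 0}` is countable (union over `n` of the finite sets of `LocB.finite`) and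
`C.support` is finite.  `LocFin`: if `conv (QQ (l, Q))` has a point of norm `≤ R` then `l` is in a
bounded set.
-/

namespace Pool.Agent.MT

open MeasureTheory Module Submodule

variable {d : ℕ}

/-- index type of the coset family -/
abbrev IdxT (V : Submodule ℝ (Sp d)) (C : Comb d) (N : (Sp d) → ℕ) (x : Sp d) :
    Type :=
  {i : (Sp d) × Finset (Sp d) // N i.1 ≠ 0 ∧ i.2 ∈ C.support ∧ base i.2 + i.1 - x ∈ V}

open Classical in
/-- the finite sets of the coset family, in coordinates -/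
noncomputable def QQ {s : ℕ} (Ψ : (Sp d) →ₗ[ℝ] (Fin s → ℝ) × ℝ)
    {V : Submodule ℝ (Sp d)} {C : Comb d} {N : (Sp d) → ℕ} {x : Sp d}
    (i : IdxT V C N x) : Finset ((Fin s → ℝ) × ℝ) :=
  i.1.2.image fun p => Ψ (i.1.1 + p - x)

/-- the coefficients of the coset family -/
noncomputable def cc {V : Submodule ℝ (Sp d)} {C : Comb d} {N : (Sp d) → ℕ}
    {x : Sp d} (i : IdxT V C N x) : ℤ := (N i.1.1 : ℤ) * C i.1.2

theorem idxT_countable {N : (Sp d) → ℕ} {C0 : ℕ} (hN : LocB N C0)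
    (V : Submodule ℝ (Sp d)) (C : Comb d) (x : Sp d) : Countable (IdxT V C N x) := by
  have h1 : {l : Sp d | N l ≠ 0}.Countable := by
    have h2 : {l : Sp d | N l ≠ 0} ⊆ ⋃ n : ℕ, {l : Sp d | N l ≠ 0 ∧ ‖l - 0‖ ≤ n} := by
      intro l hl
      obtain ⟨n, hn⟩ := exists_nat_ge ‖l - 0‖
      exact Set.mem_iUnion.mpr ⟨n, hl, hn⟩
    exact (Set.countable_iUnion fun n : ℕ => (hN.finite 0 n).countable).mono h2
  have h3 : {i : (Sp d) × Finset (Sp d) | N i.1 ≠ 0 ∧ i.2 ∈ C.support ∧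
      base i.2 + i.1 - x ∈ V}.Countable := by
    refine (h1.prod (C.support.countable_toSet)).mono ?_
    rintro ⟨l, Q⟩ ⟨a, b, _⟩
    exact ⟨a, b⟩
  exact h3.to_subtype

private theorem mtTransfer_id {s : ℕ} (Ψ : (Sp d) →ₗ[ℝ] (Fin s → ℝ) × ℝ)
    {V : Submodule ℝ (Sp d)} (Φ : ((Fin s → ℝ) × ℝ) ≃ₗ[ℝ] V)
    (hΨ : ∀ p, Ψ (Φ p) = p) {u : Sp d} (hu : u ∈ V) : ((Φ (Ψ u) : V) : Sp d) = u := by
  have h1 := hΨ (Φ.symm ⟨u, hu⟩)
  rw [LinearEquiv.apply_symm_apply] at h1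
  rw [h1, LinearEquiv.apply_symm_apply]

open Classical in
/-- convex hulls in coordinates -/
private theorem mtTransfer_hull {s : ℕ} (Ψ : (Sp d) →ₗ[ℝ] (Fin s → ℝ) × ℝ)
    {V : Submodule ℝ (Sp d)} (Φ : ((Fin s → ℝ) × ℝ) ≃ₗ[ℝ] V)
    (hΨ : ∀ p, Ψ (Φ p) = p) (x l : Sp d) (Q : Finset (Sp d)) (hQ : ∀ q ∈ Q, l + q - x ∈ V)
    (p : (Fin s → ℝ) × ℝ) :
    p ∈ convexHull ℝ ((Q.image fun q => Ψ (l + q - x) : Finset _) : Set ((Fin s → ℝ) × ℝ)) ↔
      x + Φ p - l ∈ convexHull ℝ (Q : Set (Sp d)) := by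
  set T : ((Fin s → ℝ) × ℝ) →ᵃ[ℝ] Sp d :=
    ((V.subtype ∘ₗ Φ.toLinearMap).toAffineMap + AffineMap.const ℝ _ (x - l)) with hT
  have hTa : ∀ p, T p = x + Φ p - l := by
    intro p
    simp [hT]
    abel
  have hinj : Function.Injective T := by
    intro a b hab
    rw [hTa, hTa] at hab
    have h1 : ((Φ a : V) : Sp d) = Φ b := by
      have := sub_left_inj.mp hab
      exact add_left_cancel this
    exact Φ.injective (Subtype.ext h1)
  have himg : T '' ((Q.image fun q => Ψ (l + q - x) : Finset _) : Set ((Fin s → ℝ) × ℝ)) =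
      (Q : Set (Sp d)) := by
    rw [Finset.coe_image, Set.image_image]
    ext q
    constructor
    · rintro ⟨q', hq', rfl⟩
      show T (Ψ (l + q' - x)) ∈ _
      rw [hTa, mtTransfer_id Ψ Φ hΨ (hQ q' hq')]
      have : x + (l + q' - x) - l = q' := by abel
      rw [this]
      exact hq'
    · intro hq
      refine ⟨q, hq, ?_⟩
      simp only
      rw [hTa, mtTransfer_id Ψ Φ hΨ (hQ q hq)]
      abel
  rw [← hTa, ← himg, ← AffineMap.image_convexHull]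
  exact (hinj.mem_set_image).symm

private theorem mtTransfer_mem {V : Submodule ℝ (Sp d)} {C : Comb d} (hC : Adapted V C)
    {N : (Sp d) → ℕ} {x : Sp d} (i : IdxT V C N x) : ∀ q ∈ i.1.2, i.1.1 + q - x ∈ V := by
  intro q hq
  obtain ⟨h1, h2⟩ := hC i.1.2 i.2.2.1
  have h3 := h2 q hq (base i.1.2) (base_mem h1)
  have h4 := V.add_mem h3 i.2.2.2
  have : q - base i.1.2 + (base i.1.2 + i.1.1 - x) = i.1.1 + q - x := by abel
  rwa [this] at h4

theorem locFin_QQ {s : ℕ} (Ψ : (Sp d) →ₗ[ℝ] (Fin s → ℝ) × ℝ)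
    {V : Submodule ℝ (Sp d)} (Φ : ((Fin s → ℝ) × ℝ) ≃ₗ[ℝ] V)
    (hΨ : ∀ p, Ψ (Φ p) = p) {C : Comb d} (hC : Adapted V C) {N : (Sp d) → ℕ} {C0 : ℕ}
    (hN : LocB N C0) (x : Sp d) : LocFin (QQ Ψ : IdxT V C N x → _) := by
  intro R
  obtain ⟨K, hK0, hK⟩ := exists_bound C
  set L : ((Fin s → ℝ) × ℝ) →L[ℝ] Sp d :=
    LinearMap.toContinuousLinearMap (V.subtype ∘ₗ Φ.toLinearMap) with hL
  have hLa : ∀ p, L p = Φ p := fun p => rfl
  have h1 : {j : (Sp d) × Finset (Sp d) |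
      (N j.1 ≠ 0 ∧ ‖j.1 - 0‖ ≤ ‖x‖ + ‖L‖ * R + K) ∧ j.2 ∈ C.support}.Finite := by
    refine ((hN.finite 0 (‖x‖ + ‖L‖ * R + K)).prod C.support.finite_toSet).subset ?_
    rintro ⟨l, Q⟩ ⟨a, b⟩
    exact ⟨a, b⟩
  refine (h1.preimage Subtype.val_injective.injOn).subset ?_
  rintro i ⟨p, hp, hpR⟩
  refine ⟨⟨i.2.1, ?_⟩, i.2.2.1⟩
  have h2 := (mtTransfer_hull Ψ Φ hΨ x i.1.1 i.1.2 (mtTransfer_mem hC i) p).mp hp
  have h3 := hK _ i.2.2.1 _ h2
  have h4 : ‖((Φ p : V) : Sp d)‖ ≤ ‖L‖ * R := by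
    rw [← hLa]
    exact (L.le_opNorm p).trans (mul_le_mul_of_nonneg_left hpR (norm_nonneg _))
  have h5 : i.1.1 - 0 = x + Φ p - (x + Φ p - i.1.1) := by abel
  rw [h5]
  calc ‖x + (Φ p : Sp d) - (x + Φ p - i.1.1)‖ ≤ ‖x + (Φ p : Sp d)‖ + ‖x + (Φ p : Sp d) - i.1.1‖ :=
        norm_sub_le _ _
    _ ≤ (‖x‖ + ‖(Φ p : Sp d)‖) + K := add_le_add (norm_add_le _ _) h3
    _ ≤ _ := by linarith

/-- general form of the transfer -/
private theorem mtTransfer_gen {s : ℕ} {V : Submodule ℝ (Sp d)} (Φ : ((Fin s → ℝ) × ℝ) ≃ₗ[ℝ] V)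
    {C : Comb d} (hC : Adapted V C) {N : (Sp d) → ℕ} {C0 : ℕ}
    (hN : LocB N C0) (x : Sp d) (p : (Fin s → ℝ) × ℝ) (w : Finset (Sp d) → (Sp d) → ℤ)
    (hw : ∀ (Q : Finset (Sp d)) (y : Sp d), y ∉ convexHull ℝ (Q : Set (Sp d)) → w Q y = 0) :
    ∑ᶠ l : Sp d, (N l : ℤ) * C.sum (fun Q c => c * w Q (x + Φ p - l)) =
      ∑ᶠ i : IdxT V C N x, cc i * w i.1.2 (x + Φ p - i.1.1) := by
  classical
  obtain ⟨K, hK0, hK⟩ := exists_bound C
  have hfin := hN.finite (x + Φ p) K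
  set g : (Sp d) × Finset (Sp d) → ℤ := fun j => (N j.1 : ℤ) * C j.2 * w j.2 (x + Φ p - j.1) with hg
  have hg0 : ∀ j : (Sp d) × Finset (Sp d), g j ≠ 0 → (N j.1 ≠ 0 ∧ ‖j.1 - (x + Φ p)‖ ≤ K) ∧
      j.2 ∈ C.support ∧ base j.2 + j.1 - x ∈ V := by
    rintro ⟨l, Q⟩ hj
    simp only [hg] at hj
    have a1 : N l ≠ 0 := by
      rintro h; apply hj; rw [h]; simp
    have a2 : C Q ≠ 0 := by
      rintro h; apply hj; rw [h]; simp
    have a3 : x + Φ p - l ∈ convexHull ℝ (Q : Set (Sp d)) := by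
      by_contra h; apply hj; rw [hw Q _ h]; simp
    have a4 : Q ∈ C.support := Finsupp.mem_support_iff.mpr a2
    refine ⟨⟨a1, ?_⟩, a4, ?_⟩
    · rw [norm_sub_rev]; exact hK Q a4 _ a3
    · obtain ⟨h1, h2⟩ := hC Q a4
      have h3 : convexHull ℝ (Q : Set (Sp d)) ⊆ {y | y - base Q ∈ V} := by
        refine convexHull_min (fun q hq => h2 q hq _ (base_mem h1)) ?_
        have : {y : Sp d | y - base Q ∈ V} = (fun y => y - base Q) ⁻¹' (V : Set (Sp d)) := rfl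
        rw [this]
        intro a ha b hb s t hs ht hst
        simp only [Set.mem_preimage, SetLike.mem_coe] at ha hb ⊢
        have e : s • a + t • b - base Q = s • (a - base Q) + t • (b - base Q) := by
          rw [smul_sub, smul_sub]
          have : base Q = s • base Q + t • base Q := by rw [← add_smul, hst, one_smul]
          nth_rewrite 1 [this]
          abel
        rw [e]
        exact V.add_mem (V.smul_mem _ ha) (V.smul_mem _ hb)
      have h4 : x + Φ p - l - base Q ∈ V := h3 a3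
      have h5 := V.sub_mem (Φ p).2 h4
      have e : ((Φ p : V) : Sp d) - (x + Φ p - l - base Q) = base Q + l - x := by abel
      rwa [e] at h5
  have hL : ∑ᶠ l : Sp d, (N l : ℤ) * C.sum (fun Q c => c * w Q (x + Φ p - l)) =
      ∑ l ∈ hfin.toFinset, ∑ Q ∈ C.support, g (l, Q) := by
    rw [finsum_eq_sum_of_support_subset (s := hfin.toFinset)]
    · apply Finset.sum_congr rfl
      intro l _
      rw [Finsupp.sum, Finset.mul_sum]
      apply Finset.sum_congr rfl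
      intro Q _
      simp only [hg]
      ring
    · intro l hl
      rw [Function.mem_support, Finsupp.sum, Finset.mul_sum] at hl
      obtain ⟨Q, hQ, hQ2⟩ := Finset.exists_ne_zero_of_sum_ne_zero hl
      have h1 : g (l, Q) ≠ 0 := by
        simp only [hg]
        intro h; apply hQ2; rw [← h]; ring
      rw [Set.Finite.coe_toFinset]
      exact (hg0 _ h1).1
  have hR : ∑ᶠ i : IdxT V C N x, cc i * w i.1.2 (x + Φ p - i.1.1) =
      ∑ j ∈ hfin.toFinset ×ˢ C.support, g j := by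
    have h1 : ∑ᶠ i : IdxT V C N x, cc i * w i.1.2 (x + Φ p - i.1.1) =
        ∑ᶠ i : IdxT V C N x, g i.1 := by
      apply finsum_congr
      intro i
      simp only [hg, cc]
    rw [h1, finsum_subtype_eq_finsum_cond (fun i : (Sp d) × Finset (Sp d) =>
      N i.1 ≠ 0 ∧ i.2 ∈ C.support ∧ base i.2 + i.1 - x ∈ V)]
    have h2 : ∀ j : (Sp d) × Finset (Sp d), (∑ᶠ (_ : N j.1 ≠ 0 ∧ j.2 ∈ C.support ∧
        base j.2 + j.1 - x ∈ V), g j) = g j := by
      intro j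
      by_cases hj : N j.1 ≠ 0 ∧ j.2 ∈ C.support ∧ base j.2 + j.1 - x ∈ V
      · rw [finsum_eq_if, if_pos hj]
      · rw [finsum_eq_if, if_neg hj]
        by_contra h
        have h3 := hg0 j (fun h4 => h h4.symm)
        exact hj ⟨h3.1.1, h3.2.1, h3.2.2⟩
    simp_rw [h2]
    rw [finsum_eq_sum_of_support_subset]
    intro j hj
    have h3 := hg0 j hj
    rw [Finset.coe_product, Set.Finite.coe_toFinset]
    exact ⟨h3.1, h3.2.1⟩
  rw [hL, hR, Finset.sum_product]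

theorem gfun_transfer {s : ℕ} (Ψ : (Sp d) →ₗ[ℝ] (Fin s → ℝ) × ℝ)
    {V : Submodule ℝ (Sp d)} (Φ : ((Fin s → ℝ) × ℝ) ≃ₗ[ℝ] V)
    (hΨ : ∀ p, Ψ (Φ p) = p) {C : Comb d} (hC : Adapted V C) {N : (Sp d) → ℕ} {C0 : ℕ}
    (hN : LocB N C0) (x : Sp d) (p : (Fin s → ℝ) × ℝ) :
    gfun C N (x + Φ p) = ∑ᶠ i : IdxT V C N x,
      cc i * ind (convexHull ℝ (QQ Ψ i : Set ((Fin s → ℝ) × ℝ))) p := by
  have h1 := mtTransfer_gen Φ hC hN x p
    (fun Q y => ind (convexHull ℝ (Q : Set (Sp d))) y) (fun Q y hy => by simp [ind, hy])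
  unfold gfun
  rw [h1]
  apply finsum_congr
  intro i
  have h2 := mtTransfer_hull Ψ Φ hΨ x i.1.1 i.1.2 (mtTransfer_mem hC i) p
  have h3 : ind (convexHull ℝ (QQ Ψ i : Set ((Fin s → ℝ) × ℝ))) p =
      ind (convexHull ℝ (i.1.2 : Set (Sp d))) (x + Φ p - i.1.1) := by
    unfold ind
    congr 1
    exact propext h2
  rw [h3]

open Classical in
private theorem mtTransfer_top {s : ℕ} (Ψ : (Sp d) →ₗ[ℝ] (Fin s → ℝ) × ℝ)
    {V : Submodule ℝ (Sp d)} (Φ : ((Fin s → ℝ) × ℝ) ≃ₗ[ℝ] V)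
    (hΨ : ∀ p, Ψ (Φ p) = p) {C : Comb d} (hC : Adapted V C) {N : (Sp d) → ℕ}
    (x : Sp d) (φ : (Sp d) →ₗ[ℝ] ℝ) (α : Fin s → ℝ)
    (hφ : ∀ p : (Fin s → ℝ) × ℝ, φ (Φ p) = p.2 - ∑ j, α j * p.1 j) (i : IdxT V C N x) :
    topf α (QQ Ψ i) = (amax φ i.1.2).image (fun q => Ψ (i.1.1 + q - x)) ∧
    botf α (QQ Ψ i) = (amin φ i.1.2).image (fun q => Ψ (i.1.1 + q - x)) := by
  have hm := mtTransfer_mem hC i
  have key : ∀ q ∈ i.1.2, (Ψ (i.1.1 + q - x)).2 - ∑ j, α j * (Ψ (i.1.1 + q - x)).1 j =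
      φ i.1.1 + φ q - φ x := by
    intro q hq
    rw [← hφ, mtTransfer_id Ψ Φ hΨ (hm q hq), map_sub, map_add]
  constructor
  · ext u
    simp only [topf, QQ, amax, Finset.mem_filter, Finset.mem_image]
    constructor
    · rintro ⟨⟨q, hq, rfl⟩, h⟩
      refine ⟨q, ⟨hq, fun q' hq' => ?_⟩, rfl⟩
      have := h _ ⟨q', hq', rfl⟩
      rw [key q hq, key q' hq'] at this
      linarith
    · rintro ⟨q, ⟨hq, h⟩, rfl⟩
      refine ⟨⟨q, hq, rfl⟩, ?_⟩
      rintro _ ⟨q', hq', rfl⟩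
      rw [key q hq, key q' hq']
      have := h q' hq'
      linarith
  · ext u
    simp only [botf, QQ, amin, Finset.mem_filter, Finset.mem_image]
    constructor
    · rintro ⟨⟨q, hq, rfl⟩, h⟩
      refine ⟨q, ⟨hq, fun q' hq' => ?_⟩, rfl⟩
      have := h _ ⟨q', hq', rfl⟩
      rw [key q hq, key q' hq'] at this
      linarith
    · rintro ⟨q, ⟨hq, h⟩, rfl⟩
      refine ⟨⟨q, hq, rfl⟩, ?_⟩
      rintro _ ⟨q', hq', rfl⟩
      rw [key q hq, key q' hq']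
      have := h q' hq'
      linarith

private theorem mtTransfer_bd (φ : (Sp d) →ₗ[ℝ] ℝ) (C : Comb d) (h : Finset (Sp d) → ℤ) :
    (bd φ C).sum (fun Q c => c * h Q) = C.sum (fun Q c => c * (h (amax φ Q) - h (amin φ Q))) := by
  induction C using Finsupp.induction_linear with
  | zero => simp
  | add f g hf hg =>
    rw [map_add, Finsupp.sum_add_index' (by simp) (by intros; ring),
      Finsupp.sum_add_index' (by simp) (by intros; ring), hf, hg]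
  | single Q c =>
    rw [bd_single, sub_eq_add_neg, ← Finsupp.single_neg,
      Finsupp.sum_add_index' (by simp) (by intros; ring), Finsupp.sum_single_index (by simp),
      Finsupp.sum_single_index (by simp), Finsupp.sum_single_index (by simp)]
    ring

theorem gfun_bd_transfer {s : ℕ} (Ψ : (Sp d) →ₗ[ℝ] (Fin s → ℝ) × ℝ)
    {V : Submodule ℝ (Sp d)} (Φ : ((Fin s → ℝ) × ℝ) ≃ₗ[ℝ] V)
    (hΨ : ∀ p, Ψ (Φ p) = p) {C : Comb d} (hC : Adapted V C) {N : (Sp d) → ℕ} {C0 : ℕ}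
    (hN : LocB N C0) (x : Sp d) (φ : (Sp d) →ₗ[ℝ] ℝ) (α : Fin s → ℝ)
    (hφ : ∀ p : (Fin s → ℝ) × ℝ, φ (Φ p) = p.2 - ∑ j, α j * p.1 j) (p : (Fin s → ℝ) × ℝ) :
    gfun (bd φ C) N (x + Φ p) = ∑ᶠ i : IdxT V C N x, cc i *
      (ind (convexHull ℝ (topf α (QQ Ψ i) : Set ((Fin s → ℝ) × ℝ))) p -
        ind (convexHull ℝ (botf α (QQ Ψ i) : Set ((Fin s → ℝ) × ℝ))) p) := by
  classical
  have hsub1 : ∀ Q : Finset (Sp d), amax φ Q ⊆ Q := fun Q => Finset.filter_subset _ _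
  have hsub2 : ∀ Q : Finset (Sp d), amin φ Q ⊆ Q := fun Q => Finset.filter_subset _ _
  have h1 := mtTransfer_gen Φ hC hN x p
    (fun Q y => ind (convexHull ℝ (amax φ Q : Set (Sp d))) y -
      ind (convexHull ℝ (amin φ Q : Set (Sp d))) y) (fun Q y hy => by
        have a1 : y ∉ convexHull ℝ (amax φ Q : Set (Sp d)) := fun h =>
          hy (convexHull_mono (Finset.coe_subset.mpr (hsub1 Q)) h)
        have a2 : y ∉ convexHull ℝ (amin φ Q : Set (Sp d)) := fun h =>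
          hy (convexHull_mono (Finset.coe_subset.mpr (hsub2 Q)) h)
        simp [ind, a1, a2])
  have h0 : gfun (bd φ C) N (x + Φ p) = ∑ᶠ l : Sp d, (N l : ℤ) *
      C.sum (fun Q c => c * (ind (convexHull ℝ (amax φ Q : Set (Sp d))) (x + Φ p - l) -
      ind (convexHull ℝ (amin φ Q : Set (Sp d))) (x + Φ p - l))) := by
    unfold gfun
    apply finsum_congr
    intro l
    rw [mtTransfer_bd φ C (fun Q => ind (convexHull ℝ (Q : Set (Sp d))) (x + Φ p - l))]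
  rw [h0, h1]
  apply finsum_congr
  intro i
  obtain ⟨t1, t2⟩ := mtTransfer_top Ψ Φ hΨ hC x φ α hφ i
  have hm := mtTransfer_mem hC i
  have b1 := mtTransfer_hull Ψ Φ hΨ x i.1.1 (amax φ i.1.2) (fun q hq => hm q (hsub1 _ hq)) p
  have b2 := mtTransfer_hull Ψ Φ hΨ x i.1.1 (amin φ i.1.2) (fun q hq => hm q (hsub2 _ hq)) p
  rw [t1, t2]
  have c1 : ind (convexHull ℝ (((amax φ i.1.2).image (fun q => Ψ (i.1.1 + q - x)) : Finset _) :
      Set ((Fin s → ℝ) × ℝ))) p = ind (convexHull ℝ (amax φ i.1.2 : Set (Sp d))) (x + Φ p - i.1.1) := by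
    unfold ind
    congr 1
    exact propext b1
  have c2 : ind (convexHull ℝ (((amin φ i.1.2).image (fun q => Ψ (i.1.1 + q - x)) : Finset _) :
      Set ((Fin s → ℝ) × ℝ))) p = ind (convexHull ℝ (amin φ i.1.2 : Set (Sp d))) (x + Φ p - i.1.1) := by
    unfold ind
    congr 1
    exact propext b2
  rw [c1, c2]

/-- existence of adapted coordinates: for `v ≠ 0` in `V` and a functional `φ` with `φ v = 1` there
are `Φ, Ψ` with `Φ (0, 1) = v` and `φ (Φ (y, t)) = t`  (take a basis of `V ⊓ ker φ` and `v`; `Ψ` is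
`Φ⁻¹` composed with a projection onto `V`). -/
theorem exists_coord (V : Submodule ℝ (Sp d)) (v : V) (φ : (Sp d) →ₗ[ℝ] ℝ)
    (hv : φ v = 1) : ∃ (s : ℕ) (Ψ : (Sp d) →ₗ[ℝ] (Fin s → ℝ) × ℝ)
      (Φ : ((Fin s → ℝ) × ℝ) ≃ₗ[ℝ] V), (∀ p, Ψ (Φ p) = p) ∧ Φ (0, 1) = v ∧
        ∀ p, φ (Φ p) = p.2 := by
  set W : Submodule ℝ (Sp d) := V ⊓ LinearMap.ker φ with hW
  have e : W ≃ₗ[ℝ] (Fin (finrank ℝ W) → ℝ) := (Module.finBasis ℝ W).equivFun
  have hWV : W ≤ V := inf_le_left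
  set f : ((Fin (finrank ℝ W) → ℝ) × ℝ) →ₗ[ℝ] V :=
    (Submodule.inclusion hWV ∘ₗ e.symm.toLinearMap).coprod (LinearMap.toSpanSingleton ℝ V v) with hf
  have hfa : ∀ p, ((f p : V) : Sp d) = (e.symm p.1 : Sp d) + p.2 • (v : Sp d) := by
    intro p
    simp [hf]
  have hφf : ∀ p, φ (f p) = p.2 := by
    intro p
    have h1 : φ (e.symm p.1 : Sp d) = 0 := LinearMap.mem_ker.mp (e.symm p.1).2.2
    rw [hfa, map_add, map_smul, h1, hv]
    simp
  have hinj : Function.Injective f := by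
    rw [injective_iff_map_eq_zero]
    intro p hp
    have h1 : p.2 = 0 := by
      rw [← hφf p, hp]; simp
    have h2 : ((f p : V) : Sp d) = 0 := by rw [hp]; simp
    rw [hfa, h1, zero_smul, add_zero] at h2
    have h3 : e.symm p.1 = 0 := Subtype.ext h2
    have h4 : p.1 = 0 := by simpa using h3
    exact Prod.ext h4 h1
  have hsurj : Function.Surjective f := by
    intro u
    have h1 : (u : Sp d) - φ u • (v : Sp d) ∈ W := by
      refine ⟨V.sub_mem u.2 (V.smul_mem _ v.2), ?_⟩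
      rw [SetLike.mem_coe, LinearMap.mem_ker, map_sub, map_smul, hv]
      simp
    refine ⟨(e ⟨_, h1⟩, φ u), ?_⟩
    apply Subtype.ext
    rw [hfa]
    simp
  set Φ : ((Fin (finrank ℝ W) → ℝ) × ℝ) ≃ₗ[ℝ] V := LinearEquiv.ofBijective f ⟨hinj, hsurj⟩ with hΦ
  have hΦa : ∀ p, Φ p = f p := fun p => rfl
  obtain ⟨g, hg⟩ := LinearMap.exists_leftInverse_of_injective V.subtype V.ker_subtype
  refine ⟨finrank ℝ W, Φ.symm.toLinearMap ∘ₗ g, Φ, ?_, ?_, ?_⟩
  · intro p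
    have h1 : g ((Φ p : V) : Sp d) = Φ p := by
      have := LinearMap.congr_fun hg (Φ p)
      simpa using this
    rw [LinearMap.comp_apply, h1]
    simp
  · apply Subtype.ext
    rw [hΦa, hfa]
    simp
  · intro p
    rw [hΦa, hφf]

end Pool.Agent.MT
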